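import Pool.Agent.W_f569db_zs.Ana

set_option autoImplicit false

/-!
# The final estimates: exponential growth and polynomial growth
-/

namespace ZS

theorem final_exp2 (A h : ℕ → ℝ) (b k : ℕ) (hb : 1 ≤ b) (hk : 1 ≤ k) (hA1 : ∀ n, 1 ≤ A n)
    (hA : ∀ n, A n ≤ A (n + 1)) (hh : ∀ n, h n ≤ h (n + 1)) (hAh : ∀ n, A n ≤ h n)
    (hlow : ∀ m : ℕ, (b : ℝ) ^ (2 * m) ≤ (m + 1 : ℝ) ^ (b ^ 2) * h (2 * m))
    (hbound : ∀ l : ℕ, A (2 * (l * k)) ≤ (((b : ℝ) ^ k - 1) ^ l) ^ 2) :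
    ∃ c : ℝ, 0 < c ∧ ∃ C : ℝ, 0 < C ∧ ∀ n : ℕ, Real.exp (c * n) * A n ≤ C * h n := by
  have hAm : Monotone A := monotone_nat_of_le_succ hA
  have hhm : Monotone h := monotone_nat_of_le_succ hh
  set β : ℝ := (b : ℝ) ^ k with hβ
  set γ : ℝ := β - 1 with hγ
  have hγ1 : 1 ≤ γ := by
    have h1 := (hA1 (2 * (1 * k))).trans (hbound 1)
    rw [pow_one] at h1
    have hb2 : 2 ≤ b := by
      by_contra hb2
      have hb1 : b = 1 := by omega
      rw [hγ, hβ, hb1] at h1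
      norm_num at h1
    have h2 : (2 : ℝ) ≤ β := by
      calc (2 : ℝ) = 2 ^ 1 := by norm_num
        _ ≤ 2 ^ k := pow_le_pow_right₀ (by norm_num) hk
        _ ≤ (b : ℝ) ^ k := pow_le_pow_left₀ (by norm_num) (by exact_mod_cast hb2) k
    rw [hγ]
    linarith
  have hγ0 : 0 < γ := by linarith
  have hβ0 : 0 < β := by rw [hγ] at hγ0; linarith
  set y : ℝ := β / γ with hy
  have hy1 : 1 < y := by
    rw [hy, lt_div_iff₀ hγ0, hγ]
    linarith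
  have hy0 : 0 < y := by linarith
  obtain ⟨M, hM0, hM⟩ := exists_poly_bound hy1 (b ^ 2)
  have hk0 : (0 : ℝ) < k := by exact_mod_cast hk
  have hk1 : (1 : ℝ) ≤ k := by exact_mod_cast hk
  have hlogy : 0 < Real.log y := Real.log_pos hy1
  set C : ℝ := y * (γ ^ 2 * (k : ℝ) ^ (b ^ 2) * M) with hC
  have hC0 : 0 < C := by positivity
  refine ⟨Real.log y / (2 * k), by positivity, C, hC0, fun n => ?_⟩
  set l : ℕ := n / (2 * k) with hl
  have hl1 : 2 * (l * k) ≤ n := by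
    have := Nat.div_mul_le_self n (2 * k)
    rw [← hl] at this
    calc 2 * (l * k) = l * (2 * k) := by ring
      _ ≤ n := this
  have hl2 : n + 1 ≤ 2 * ((l + 1) * k) := by
    have := Nat.lt_div_mul_add (a := n) (b := 2 * k) (by omega)
    rw [← hl] at this
    have e : 2 * ((l + 1) * k) = l * (2 * k) + 2 * k := by ring
    omega
  have h1 : A n ≤ γ ^ 2 * (γ ^ l) ^ 2 := by
    calc A n ≤ A (2 * ((l + 1) * k)) := hAm (by omega)
      _ ≤ (γ ^ (l + 1)) ^ 2 := hbound (l + 1)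
      _ = γ ^ 2 * (γ ^ l) ^ 2 := by rw [pow_succ]; ring
  have h2 : (β ^ l) ^ 2 ≤ ((l * k : ℕ) + 1 : ℝ) ^ (b ^ 2) * h n := by
    have h3 := hlow (l * k)
    have e : (b : ℝ) ^ (2 * (l * k)) = (β ^ l) ^ 2 := by
      rw [hβ, ← pow_mul, ← pow_mul]
      congr 1
      ring
    rw [e] at h3
    refine h3.trans ?_
    exact mul_le_mul_of_nonneg_left (hhm hl1) (by positivity)
  have h3 : Real.exp (Real.log y / (2 * k) * n) ≤ y * y ^ l := by
    have h4 : Real.log y / (2 * k) * n ≤ Real.log y * (l + 1) := by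
      have h5 : ((n + 1 : ℕ) : ℝ) ≤ ((2 * ((l + 1) * k) : ℕ) : ℝ) := by exact_mod_cast hl2
      push_cast at h5
      rw [div_mul_eq_mul_div, div_le_iff₀ (by positivity)]
      have h6 : (n : ℝ) ≤ (l + 1) * (2 * k) := by linarith
      calc Real.log y * n ≤ Real.log y * ((l + 1) * (2 * k)) :=
            mul_le_mul_of_nonneg_left h6 hlogy.le
        _ = Real.log y * (l + 1) * (2 * k) := by ring
    calc Real.exp (Real.log y / (2 * k) * n) ≤ Real.exp (Real.log y * (l + 1)) :=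
          Real.exp_le_exp.2 h4
      _ = y * y ^ l := by
          have e : Real.log y * (l + 1) = Real.log y * ((l + 1 : ℕ) : ℝ) := by push_cast; ring
          rw [e, mul_comm, Real.exp_nat_mul, Real.exp_log hy0, pow_succ, mul_comm]
  have hA0 : 0 ≤ A n := by linarith [hA1 n]
  have hh0 : 0 ≤ h n := le_trans (by linarith [hA1 n]) (hAh n)
  have h4 : ((l * k : ℕ) + 1 : ℝ) ≤ k * (l + 1) := by
    push_cast
    nlinarith
  have h5 : ((l * k : ℕ) + 1 : ℝ) ^ (b ^ 2) ≤ (k : ℝ) ^ (b ^ 2) * ((l : ℝ) + 1) ^ (b ^ 2) := by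
    rw [← mul_pow]
    exact pow_le_pow_left₀ (by positivity) h4 _
  have h7 : γ ^ l * y ^ l = β ^ l := by
    rw [← mul_pow, hy]
    congr 1
    field_simp
  have h6 : (y ^ l * A n) * (γ ^ l * β ^ l) ≤
      (γ ^ 2 * (k : ℝ) ^ (b ^ 2) * M * h n) * (γ ^ l * β ^ l) := by
    calc (y ^ l * A n) * (γ ^ l * β ^ l) = A n * ((γ ^ l * y ^ l) * β ^ l) := by ring
      _ = A n * (β ^ l) ^ 2 := by rw [h7]; ring
      _ ≤ (γ ^ 2 * (γ ^ l) ^ 2) * (((l * k : ℕ) + 1 : ℝ) ^ (b ^ 2) * h n) := by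
          apply mul_le_mul h1 h2 (by positivity) (by positivity)
      _ ≤ (γ ^ 2 * (γ ^ l) ^ 2) * (((k : ℝ) ^ (b ^ 2) * ((l : ℝ) + 1) ^ (b ^ 2)) * h n) := by
          apply mul_le_mul_of_nonneg_left _ (by positivity)
          exact mul_le_mul_of_nonneg_right h5 hh0
      _ = (γ ^ 2 * (γ ^ l) ^ 2 * (k : ℝ) ^ (b ^ 2) * h n) * ((l : ℝ) + 1) ^ (b ^ 2) := by ring
      _ ≤ (γ ^ 2 * (γ ^ l) ^ 2 * (k : ℝ) ^ (b ^ 2) * h n) * (M * y ^ l) := by
          apply mul_le_mul_of_nonneg_left (hM l) (by positivity)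
      _ = (γ ^ 2 * (k : ℝ) ^ (b ^ 2) * M * h n) * (γ ^ l * (γ ^ l * y ^ l)) := by ring
      _ = (γ ^ 2 * (k : ℝ) ^ (b ^ 2) * M * h n) * (γ ^ l * β ^ l) := by rw [h7]
  have h8 : y ^ l * A n ≤ γ ^ 2 * (k : ℝ) ^ (b ^ 2) * M * h n :=
    le_of_mul_le_mul_right h6 (by positivity)
  calc Real.exp (Real.log y / (2 * k) * n) * A n ≤ (y * y ^ l) * A n :=
        mul_le_mul_of_nonneg_right h3 hA0
    _ = y * (y ^ l * A n) := by ring
    _ ≤ y * (γ ^ 2 * (k : ℝ) ^ (b ^ 2) * M * h n) := mul_le_mul_of_nonneg_left h8 hy0.le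
    _ = C * h n := by rw [hC]; ring

theorem final_poly (A h : ℕ → ℝ) (b : ℕ) (hb : 1 ≤ b) (hA : ∀ n, A n ≤ A (n + 1))
    (hA1 : ∀ n, 1 ≤ A n) (hup : ∀ n, h n ≤ (b : ℝ) ^ n)
    (hlowA : ∀ m : ℕ, (b : ℝ) ^ (2 * m) ≤ ((m : ℝ) + 1) ^ (b ^ 2) * A (2 * m)) :
    ∃ C : ℕ, ∀ n : ℕ, 1 ≤ n → h n ≤ C * (n : ℝ) ^ C * A n := by
  have hAm : Monotone A := monotone_nat_of_le_succ hA
  have hb1 : (1 : ℝ) ≤ b := by exact_mod_cast hb
  refine ⟨b ^ 2, fun n hn => ?_⟩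
  have hm1 : 2 * (n / 2) ≤ n := Nat.mul_div_le n 2
  have hm2 : n ≤ 2 * (n / 2) + 1 := by omega
  have hm3 : n / 2 + 1 ≤ n := by omega
  have h1 : (b : ℝ) ^ n ≤ b * (b : ℝ) ^ (2 * (n / 2)) := by
    rw [← pow_succ']
    exact pow_le_pow_right₀ hb1 hm2
  have h2 : ((n / 2 : ℕ) : ℝ) + 1 ≤ n := by exact_mod_cast hm3
  have hA0 : 0 ≤ A (2 * (n / 2)) := by linarith [hA1 (2 * (n / 2))]
  calc h n ≤ (b : ℝ) ^ n := hup n
    _ ≤ b * (b : ℝ) ^ (2 * (n / 2)) := h1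
    _ ≤ b * ((((n / 2 : ℕ) : ℝ) + 1) ^ (b ^ 2) * A (2 * (n / 2))) :=
        mul_le_mul_of_nonneg_left (hlowA _) (by positivity)
    _ ≤ b * ((n : ℝ) ^ (b ^ 2) * A n) := by
        apply mul_le_mul_of_nonneg_left _ (by positivity)
        apply mul_le_mul (pow_le_pow_left₀ (by positivity) h2 _) (hAm hm1) hA0 (by positivity)
    _ ≤ (b : ℝ) ^ 2 * ((n : ℝ) ^ (b ^ 2) * A n) := by
        apply mul_le_mul_of_nonneg_right
        · nlinarith
        · exact mul_nonneg (by positivity) (by linarith [hA1 n])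
    _ = ((b ^ 2 : ℕ) : ℝ) * (n : ℝ) ^ (b ^ 2) * A n := by push_cast; ring

end ZS
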