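import Pool.Agent.W_f569db_zs.Main
import Pool.Agent.W_f569db_zs.AnaB

set_option autoImplicit false

/-!
# The trichotomy, abstract form

`h n / A n` is `1` for all `n`, or grows at least like `log n` and at most like a power of `n`, or
grows exponentially.
-/

noncomputable section

namespace ZS

open Matrix Module ZO

set_option linter.unusedSectionVars false

variable {α : Type} [Fintype α] [DecidableEq α] [Nonempty α] {K : Type*} [Field K] [CharZero K]

namespace SSys

variable (Q : SSys α K)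

theorem h_le (n : ℕ) : Q.h n ≤ (Fintype.card α : ℝ) ^ n := by
  have h1 : finrank K (Q.P Shp.e (lin n)) ≤
      finrank K (Matrix (L n → α) (Empty → α) K) := Submodule.finrank_le _
  rw [Module.finrank_matrix, Module.finrank_self, Fintype.card_fun, Fintype.card_fun,
    card_L, Fintype.card_empty, pow_zero, mul_one, mul_one] at h1
  unfold h
  exact_mod_cast h1

/-- The trichotomy. -/
theorem trichotomy (hQ : Q.HasPerm) {u : Matrix (Unit → α) (Empty → α) K}
    {v : Matrix (Empty → α) (Unit → α) K} (hu : u ∈ Q.P Shp.e Shp.o) (hv : v ∈ Q.P Shp.o Shp.e)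
    (hvu : v * u = 1) :
    (∀ (D : Type) [Fintype D] [DecidableEq D] (d : Shp D), Q.N Shp.e d = ⊥) ∨
      ((∀ M, Q.NilBelow M) ∧
        (∃ c : ℝ, 0 < c ∧ ∀ n : ℕ, 1 ≤ n → c * Real.log (n + 1) * Q.A n ≤ Q.h n) ∧
          ∃ C : ℕ, ∀ n : ℕ, 1 ≤ n → Q.h n ≤ C * (n : ℝ) ^ C * Q.A n) ∨
        ((¬ ∀ M, Q.NilBelow M) ∧
          ∃ c : ℝ, 0 < c ∧ ∃ C : ℝ, 0 < C ∧ ∀ n : ℕ, Real.exp (c * n) * Q.A n ≤ C * Q.h n) := by
  have hu0 : u ≠ 0 := by
    rintro rfl
    rw [Matrix.mul_zero] at hvu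
    have h1 := congrFun (congrFun hvu (fun e => e.elim)) (fun e => e.elim)
    rw [Matrix.one_apply_eq] at h1
    exact zero_ne_one h1
  have hb : 1 ≤ Fintype.card α := Fintype.card_pos
  by_cases hD : ∀ (D : Type) [Fintype D] [DecidableEq D] (d : Shp D), Q.N Shp.e d = ⊥
  · exact Or.inl hD
  refine Or.inr ?_
  by_cases hnil : ∀ M, Q.NilBelow M
  · refine Or.inl ⟨hnil, ?_, ?_⟩
    · push Not at hD
      obtain ⟨D, _, _, d, hd⟩ := hD
      obtain ⟨z, hz, hz0⟩ := (Submodule.ne_bot_iff _).1 hd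
      exact Q.zero_one hQ hu hv hvu hz hz0
    · exact final_poly Q.A Q.h (Fintype.card α) hb (Q.A_mono hu hv hvu) (Q.one_le_A hu hv hvu)
        Q.h_le (lowA Q hQ hnil)
  · refine Or.inr ⟨hnil, ?_⟩
    push Not at hnil
    obtain ⟨M, hM⟩ := hnil
    unfold NilBelow at hM
    push Not at hM
    obtain ⟨S, _, _, s, hs, x, hx, hxn⟩ := hM
    have h1 : ∀ l : ℕ, Q.A (2 * (l * Fintype.card S)) ≤
        (((Fintype.card α : ℝ) ^ (Fintype.card S) - 1) ^ l) ^ 2 :=
      (Q.nil_or_bound s).resolve_left fun h => hxn (h x hx)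
    have hk : 1 ≤ Fintype.card S := by
      by_contra hk
      have hk0 : Fintype.card S = 0 := by omega
      have h2 := h1 1
      rw [hk0] at h2
      norm_num at h2
      have h3 := Q.one_le_A_zero
      linarith
    exact final_exp2 Q.A Q.h (Fintype.card α) (Fintype.card S) hb hk (Q.one_le_A hu hv hvu)
      (Q.A_mono hu hv hvu) (Q.h_mono hu hu0) Q.A_le_h (low Q hQ) h1

end SSys

end ZS
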