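import Pool.Agent.W_f569db_zs.BrF
import Pool.Agent.W_f569db_zs.Tri

set_option autoImplicit false

/-!
# The growth trichotomy
-/

noncomputable section

namespace ZS

open AlgebraicGeometry CategoryTheory MonoidalCategory ZO
open Pool.Agent.WeilH_h6 Pool.Agent.WeilH_h6.VarClass

universe u v w

variable {k : Type u} [Field k] {𝒱 : VarClass k} {K : Type v} [Field K] [CharZero K]
  (W : Weil.{u, v, w} 𝒱 K)

/-- a homogeneous basis for the parity -/
theorem exists_par_basis (X : 𝒱.Obj) :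
    ∃ (b : ℕ) (bs : Module.Basis (Fin b) K (W.H X)) (π : Fin b → ℕ),
      ∀ i, W.par X (bs i) = ((-1 : K) ^ (π i)) • bs i := by
  classical
  have : Module.Finite K (W.H X) := W.axFinite X
  let B := (W.isInternal X).collectedBasis fun i => Module.Free.chooseBasis K (W.grad X i)
  have := Module.Finite.finite_basis B
  have := Fintype.ofFinite ((i : ℕ) × Module.Free.ChooseBasisIndex K (W.grad X i))
  let e := Fintype.equivFin ((i : ℕ) × Module.Free.ChooseBasisIndex K (W.grad X i))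
  refine ⟨_, B.reindex e, fun i => (e.symm i).1, fun i => ?_⟩
  rw [Module.Basis.reindex_apply]
  exact W.par_apply ((W.isInternal X).collectedBasis_mem _ (e.symm i))

/-- a failure of `D(Y)` gives a nonzero numerically trivial class -/
theorem exists_nt {Y : 𝒱.Obj} (h : ¬ W.HomEqNum Y) : ∃ a : W.H Y, W.NT a ∧ a ≠ 0 := by
  unfold Weil.HomEqNum at h
  push Not at h
  obtain ⟨i, z, hz⟩ := h
  have hz' : W.NumTrivial z ∧ W.cl z ≠ 0 := by
    rcases hz with h1 | h1
    · exact h1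
    · exact absurd (fun j z' _ => by rw [h1.2, zero_mul, map_zero]) h1.1
  refine ⟨W.cl z, ⟨W.cl_mem_algSpan z, fun b hb => ?_⟩, hz'.2⟩
  unfold Weil.algSpan at hb
  induction hb using Submodule.span_induction with
  | mem b hb =>
    obtain ⟨j, t, rfl⟩ := hb
    by_cases hij : i + j = Y.dim
    · exact hz'.1 j t hij
    · refine W.tr_grad Y (2 * i + 2 * j) _ (W.mul_mem_grad (W.cl_mem_grad z) (W.cl_mem_grad t)) ?_
      omega
  | zero => rw [mul_zero, map_zero]
  | add x y _ _ hx hy => rw [mul_add, map_add, hx, hy, add_zero]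
  | smul c x _ hx => rw [mul_smul_comm, map_smul, hx, smul_zero]

/-- `H(X) ≠ 0` because there is a class with trace `1` -/
theorem law_nonempty {X : 𝒱.Obj} {α : Type} (bs : Module.Basis α K (W.H X)) : Nonempty α := by
  by_contra hα
  rw [not_nonempty_iff] at hα
  obtain ⟨p, _, hp⟩ := exists_tr_one_alg W X
  have hsub : Subsingleton (W.H X) := bs.repr.toEquiv.subsingleton
  rw [Subsingleton.elim p 0, map_zero] at hp
  exact zero_ne_one hp

theorem nt_eq_zero {X : 𝒱.Obj} (h : W.HomEqNum X) : ntSub W X = ⊥ := by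
  rw [eq_bot_iff]
  intro a ha
  exact (Submodule.mem_bot K).2 (W.nt_eq_zero_of_homEqNum h ha)

theorem rank_eq_of_homEqNum {X : 𝒱.Obj} (h : W.HomEqNum X) : homRank W X = numRank W X := by
  have h1 := numRank_eq W X
  rw [nt_eq_zero W h, finrank_bot, Nat.cast_zero, sub_zero] at h1
  have h3 : (homRank W X : ℝ) = numRank W X := h1.symm
  exact_mod_cast h3

theorem numTrivEnd_iff {Y : 𝒱.Obj} {φ : W.Hom Y Y} :
    NumTrivEnd W Y φ ↔ ∃ a : W.H (Y.prod Y), W.NT a ∧ W.act a = φ := by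
  constructor
  · rintro ⟨a, ha, h1, h2⟩
    refine ⟨a, ⟨ha, h1⟩, LinearMap.ext fun x => W.ext_tr fun y => ?_⟩
    rw [W.tr_act]
    exact (h2 x y).symm
  · rintro ⟨a, ha, rfl⟩
    exact ⟨a, ha.1, ha.2, fun x y => W.tr_act a x y⟩

section

variable {X : 𝒱.Obj} {α : Type} [Fintype α] [DecidableEq α] (bs : Module.Basis α K (W.H X))
  (π : α → ℕ) (hπ : ∀ a, W.par X (bs a) = ((-1 : K) ^ π a) • bs a)

omit [CharZero K] in
theorem mt_pow {S : Type} [Fintype S] [DecidableEq S] (s : Shp S)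
    (φ : W.H (ob X s) →ₗ[K] W.H (ob X s)) (N : ℕ) : mt W bs s s φ ^ N = 0 ↔ ∀ x, φ^[N] x = 0 := by
  have h1 : ∀ N : ℕ, mt W bs s s φ ^ N = mt W bs s s (φ ^ N : Module.End K (W.H (ob X s))) := by
    intro N
    induction N with
    | zero => rw [pow_zero, pow_zero]; exact (mt_id W bs s).symm
    | succ N ih =>
      rw [pow_succ, ih, pow_succ]
      exact (mt_comp W bs s s s φ (φ ^ N : Module.End K (W.H (ob X s)))).symm
  rw [h1]
  constructor
  · intro h x
    have h2 := mt_injective W bs s s (h.trans (map_zero _).symm)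
    rw [← Module.End.pow_apply, h2]
    rfl
  · intro h
    have h2 : (φ ^ N : Module.End K (W.H (ob X s))) = 0 := by
      refine LinearMap.ext fun x => ?_
      rw [Module.End.pow_apply]
      exact h x
    rw [h2]
    exact map_zero _

theorem nilNum_iff : NilNum W X ↔ ∀ M, (sysS W bs π hπ).NilBelow M := by
  have hob : NilNum W X ↔ ∀ (m : ℕ) (φ : W.Hom (ob X (lin m)) (ob X (lin m))),
      NumTrivEnd W (ob X (lin m)) φ → ∃ N : ℕ, ∀ x : W.H (ob X (lin m)), (W.ap φ)^[N] x = 0 := by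
    unfold NilNum
    refine forall_congr' fun m => ?_
    rw [ob_lin]
  rw [hob]
  constructor
  · intro h
    refine nilBelow_of_lin _ fun m x hx => ?_
    obtain ⟨φ, hφ, rfl⟩ := hx.1
    obtain ⟨a, ha, rfl⟩ := hφ
    have h1 : W.NT a := (mt_act_mem_N W bs π hπ (lin m) ha).1 hx
    obtain ⟨N, hN⟩ := h m (W.act a) ((numTrivEnd_iff W).2 ⟨a, h1, rfl⟩)
    exact ⟨N, (mt_pow W bs (lin m) (W.act a) N).2 hN⟩
  · intro h m φ hφ
    obtain ⟨a, ha, rfl⟩ := (numTrivEnd_iff W).1 hφ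
    have h1 := (mt_act_mem_N W bs π hπ (lin m) ha.1).2 ha
    obtain ⟨N, hN⟩ := h (Fintype.card (L m) + 1) (L m) (lin m) (Nat.lt_succ_self _) _ h1
    exact ⟨N, (mt_pow W bs (lin m) (W.act a) N).1 hN⟩

theorem nilNum_of_algParity (h : AlgParity W X) : NilNum W X := by
  classical
  obtain ⟨b, bs, π, hπ⟩ := exists_par_basis W X
  rw [nilNum_iff W bs π hπ]
  refine (sysS W bs π hπ).nilBelow_of_par ?_
  obtain ⟨φ, hφ, hφ'⟩ := h
  have h1 : φ = W.par X := by
    refine LinearMap.ext fun x => ?_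
    refine W.hom_induction (P := fun x => φ x = W.par X x) (by simp) ?_ ?_ x
    · intro x y hx hy; rw [map_add, map_add, hx, hy]
    · intro i x hx
      rw [W.par_apply hx]; exact hφ' i x hx
  have h2 : mt W bs Shp.o Shp.o (W.par (ob X Shp.o)) = dg (eps K π) Unit := mt_par W bs π Shp.o hπ
  change dg (eps K π) Unit ∈ PS W bs Shp.o Shp.o
  rw [← h2]
  refine mt_mem_PS W bs ?_
  have h3 := W.isAlgEnd_iff.1 hφ
  rw [h1] at h3
  exact h3

end

/-- The growth trichotomy. -/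
theorem law (X : 𝒱.Obj) :
    ((∀ n, W.HomEqNum (X.pow n)) ∧ ∀ n, homRank W (X.pow n) = numRank W (X.pow n)) ∨
    ((∃ n, ¬ W.HomEqNum (X.pow n)) ∧ NilNum W X ∧
      (∃ c : ℝ, 0 < c ∧ ∀ n : ℕ, 1 ≤ n →
        c * Real.log (n + 1) * numRank W (X.pow n) ≤ homRank W (X.pow n)) ∧
      ∃ C : ℕ, ∀ n : ℕ, 1 ≤ n →
        (homRank W (X.pow n) : ℝ) ≤ C * (n : ℝ) ^ C * numRank W (X.pow n)) ∨
    ((∃ n, ¬ W.HomEqNum (X.pow n)) ∧ ¬ NilNum W X ∧ ¬ AlgParity W X ∧
      ∃ c : ℝ, 0 < c ∧ ∃ C : ℝ, 0 < C ∧ ∀ n : ℕ,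
        Real.exp (c * n) * numRank W (X.pow n) ≤ C * homRank W (X.pow n)) := by
  by_cases h : ∀ n : ℕ, W.HomEqNum (X.pow n)
  · exact Or.inl ⟨h, fun n => rank_eq_of_homEqNum W (h n)⟩
  right
  have hn : ∃ n, ¬ W.HomEqNum (X.pow n) := by
    push Not at h
    exact h
  obtain ⟨m, hm⟩ := hn
  obtain ⟨b, bs, π, hπ⟩ := exists_par_basis W X
  have hne : Nonempty (Fin b) := law_nonempty W bs
  obtain ⟨u, v, hu, hv, hvu⟩ := exists_uv W bs π hπ
  have hA : ∀ n, (sysS W bs π hπ).A n = (numRank W (X.pow n) : ℝ) := by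
    intro n
    rw [A_sysS, numRank_eq]
  have hh : ∀ n, (sysS W bs π hπ).h n = (homRank W (X.pow n) : ℝ) := by
    intro n
    rw [h_sysS]
    rfl
  have key := (sysS W bs π hπ).trichotomy (sysS_hasPerm W bs π hπ) hu hv hvu
  simp only [hA, hh] at key
  rw [← nilNum_iff W bs π hπ] at key
  rcases key with h1 | h1 | h1
  · exfalso
    obtain ⟨a, ha, ha0⟩ := exists_nt W hm
    have h2 : (ntSub W (ob X (lin m))).map (vM W bs (lin m)) = ⊥ := by
      rw [map_vM_N W bs π hπ]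
      exact h1 (L m) (lin m)
    have h3 : ntSub W (ob X (lin m)) = ⊥ :=
      Submodule.map_injective_of_injective (vM_injective W bs (lin m))
        (h2.trans (Submodule.map_bot _).symm)
    rw [ob_lin] at h3
    apply ha0
    rw [← Submodule.mem_bot K, ← h3]
    exact ha
  · exact Or.inl ⟨⟨m, hm⟩, h1.1, h1.2.1, h1.2.2⟩
  · exact Or.inr ⟨⟨m, hm⟩, h1.1, fun h2 => h1.1 (nilNum_of_algParity W h2), h1.2⟩

end ZS
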