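import Pool.Agent.W_f569db_zs.Ann
import Pool.Agent.W_f569db_zo.Chain

set_option autoImplicit false

/-!
# The chain of layers
-/

noncomputable section

namespace ZS

open Matrix Module ZO

set_option linter.unusedSectionVars false

variable {α : Type} [Fintype α] [DecidableEq α] {K : Type*} [Field K] [CharZero K]

namespace SSys

variable (Q : SSys α K)

/-- The elements of `N s s` are nilpotent for all shapes with less than `M` letters. -/
def NilBelow (M : ℕ) : Prop :=
  ∀ (S : Type) [Fintype S] [DecidableEq S] (s : Shp S), Fintype.card S < M →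
    ∀ x ∈ Q.N s s, IsNilpotent x

omit [CharZero K] in
theorem Chain_le {S D : Type} [Fintype S] [DecidableEq S] [Fintype D] [DecidableEq D]
    {s : Shp S} {d : Shp D}
    {z : Matrix (D → α) (Empty → α) K} (hz : z ∈ Q.N Shp.e d) {Y : Type} [Fintype Y]
    [DecidableEq Y] (v : Shp Y) (y : Matrix (S → α) (Empty → α) K) :
    (Q.P (s.p d) v).map (sand (1 : Matrix (Y → α) (Y → α) K)
        (kr y z * pm α K (Equiv.emptySum Empty Empty).symm)) ≤
      (Q.N s v).map (sand (1 : Matrix (Y → α) (Y → α) K) y) := by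
  rintro _ ⟨f, hf, rfl⟩
  refine ⟨f * kr (1 : Matrix (S → α) (S → α) K) z * pm α K (Equiv.sumEmpty S Empty).symm, ?_, ?_⟩
  · exact Q.N_mul_right (Q.N_mul_left hf (Q.one_kr_mem_N hz)) (Q.runit_symm_mem s)
  · rw [sand_apply, sand_apply, Matrix.one_mul, Matrix.one_mul]
    have h1 : kr y z = kr (1 : Matrix (S → α) (S → α) K) z *
        kr y (1 : Matrix (Empty → α) (Empty → α) K) := by
      rw [kr_mul, Matrix.one_mul, Matrix.mul_one]
    rw [h1, Matrix.mul_assoc (kr 1 z), Sys.Chain_pm]
    simp only [Matrix.mul_assoc]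

/-- Let `0 ≠ z ∈ N e d`.  By induction on `J`: `(P s v) y ⊇ (N s v) y ⊇ (P (s d) v) (y ⊗ z)`. -/
theorem chain {D : Type} [Fintype D] [DecidableEq D] {d : Shp D} {z : Matrix (D → α) (Empty → α) K}
    (hz : z ∈ Q.N Shp.e d) (hz0 : z ≠ 0) {M : ℕ} (hnil : Q.NilBelow M) {T : Type} [Fintype T]
    [DecidableEq T] (t : Shp T) (hpos : 0 < Q.a t t) (J : ℕ) :
    ∀ (S : Type) [Fintype S] [DecidableEq S] (s : Shp S) (y : Matrix (S → α) (Empty → α) K),
      y ≠ 0 → (∀ j < J, Fintype.card S + j * Fintype.card D < M) →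
      ∑ j ∈ Finset.range J,
        (Q.A (Fintype.card S + j * Fintype.card D + 2 * Fintype.card T) -
          ((Fintype.card α : ℝ) ^ (Fintype.card S + j * Fintype.card D) - 1) *
            Q.A (2 * Fintype.card T)) ≤
      finrank K ((Q.P s (t.p t)).map (sand (1 : Matrix (T ⊕ T → α) (T ⊕ T → α) K) y)) := by
  induction J with
  | zero =>
    intro S _ _ s y _ _
    rw [Finset.range_zero, Finset.sum_empty]
    positivity
  | succ J ih =>
    intro S _ _ s y hy0 hM
    have hlayer := Q.layer (s := s) (hnil S s (by simpa using hM 0 (Nat.succ_pos J))) t hpos hy0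
    have hih := ih (S ⊕ D) (s.p d) _ (Sys.Chain_ne hz0 hy0) (by
      intro j hj
      have := hM (j + 1) (Nat.succ_lt_succ hj)
      rw [Fintype.card_sum]
      have e : Fintype.card S + (j + 1) * Fintype.card D =
        Fintype.card S + Fintype.card D + j * Fintype.card D := by ring
      rwa [e] at this)
    have hle : finrank K ((Q.P (s.p d) (t.p t)).map
        (sand (1 : Matrix (T ⊕ T → α) (T ⊕ T → α) K)
          (kr y z * pm α K (Equiv.emptySum Empty Empty).symm))) ≤
        finrank K ((Q.N s (t.p t)).map (sand (1 : Matrix (T ⊕ T → α) (T ⊕ T → α) K) y)) :=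
      Submodule.finrank_mono (Q.Chain_le hz (t.p t) y)
    have hle' : (finrank K ((Q.P (s.p d) (t.p t)).map
        (sand (1 : Matrix (T ⊕ T → α) (T ⊕ T → α) K)
          (kr y z * pm α K (Equiv.emptySum Empty Empty).symm))) : ℝ) ≤
        finrank K ((Q.N s (t.p t)).map (sand (1 : Matrix (T ⊕ T → α) (T ⊕ T → α) K) y)) := by
      exact_mod_cast hle
    rw [Finset.sum_range_succ']
    have hsum : ∑ j ∈ Finset.range J,
        (Q.A (Fintype.card S + (j + 1) * Fintype.card D + 2 * Fintype.card T) -
          ((Fintype.card α : ℝ) ^ (Fintype.card S + (j + 1) * Fintype.card D) - 1) *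
            Q.A (2 * Fintype.card T)) =
        ∑ j ∈ Finset.range J,
        (Q.A (Fintype.card (S ⊕ D) + j * Fintype.card D + 2 * Fintype.card T) -
          ((Fintype.card α : ℝ) ^ (Fintype.card (S ⊕ D) + j * Fintype.card D) - 1) *
            Q.A (2 * Fintype.card T)) := by
      refine Finset.sum_congr rfl fun j _ => ?_
      have h1 : Fintype.card S + (j + 1) * Fintype.card D =
          Fintype.card (S ⊕ D) + j * Fintype.card D := by
        rw [Fintype.card_sum]
        ring
      rw [h1]
    rw [hsum]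
    simp only [zero_mul, add_zero]
    unfold cod at hlayer
    linarith

/-- `s = e`, `y = 1`, `t = lin m` -/
theorem chain_h {D : Type} [Fintype D] [DecidableEq D] {d : Shp D}
    {z : Matrix (D → α) (Empty → α) K} (hz : z ∈ Q.N Shp.e d) (hz0 : z ≠ 0) {M : ℕ}
    (hnil : Q.NilBelow M) (m J : ℕ) (hpos : 0 < Q.A (2 * m)) (hM : ∀ j < J, j * Fintype.card D < M) :
    ∑ j ∈ Finset.range J,
        (Q.A (j * Fintype.card D + 2 * m) -
          ((Fintype.card α : ℝ) ^ (j * Fintype.card D) - 1) * Q.A (2 * m)) ≤ Q.h (2 * m) := by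
  have h1 : (1 : Matrix (Empty → α) (Empty → α) K) ≠ 0 := by
    intro h
    have h2 := congrFun (congrFun h Empty.elim) Empty.elim
    rw [Matrix.one_apply_eq] at h2
    exact one_ne_zero h2
  have h0 : 0 < Q.a (lin m) (lin m) := by
    rw [Q.a_eq_A, card_L, ← two_mul]
    exact hpos
  have h2 := Q.chain hz hz0 hnil (lin m) h0 J Empty Shp.e 1 h1 (by
    intro j hj
    rw [Fintype.card_empty, zero_add]
    exact hM j hj)
  simp only [card_L, Fintype.card_empty, zero_add] at h2
  refine h2.trans ?_
  have h3 := Q.finrank_P_e ((lin m).p (lin m))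
  rw [Fintype.card_sum, card_L, ← two_mul] at h3
  rw [← h3]
  exact_mod_cast Submodule.finrank_map_le _ _

end SSys

end ZS
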