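import Pool.Agent.W_f569db_zs.Low
import Pool.Agent.W_f569db_zs.Chain

set_option autoImplicit false

/-!
# The lower bound for the numerical dimensions, if all radicals are nil
-/

noncomputable section

namespace ZS

open Matrix Module ZO

set_option linter.unusedSectionVars false

theorem semis_subE {ι : Type*} [Fintype ι] [DecidableEq ι] {K : Type*} [Field K]
    {E : Matrix ι ι K} (D D' : Subalgebra K (Matrix ι ι K)) (hE : ∀ A ∈ D, E * A = A * E)
    (hnil : ∀ x ∈ radE E D, IsNilpotent x) (h : D' ≤ D) (hs : IsSemisimpleRing D') :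
    (finrank K D' : ℝ) ≤ (finrank K D.toSubmodule : ℝ) - finrank K (radE E D) := by
  let J : Ideal D' :=
    { carrier := {y | (y : Matrix ι ι K) ∈ radE E D}
      add_mem' := fun {a b} ha hb => (radE E D).add_mem ha hb
      zero_mem' := (radE E D).zero_mem
      smul_mem' := fun c a ha => radE_mul_left hE (h c.2) ha }
  obtain ⟨e, he, hJ⟩ := IsSemisimpleRing.ideal_eq_span_idempotent J
  have heJ : e ∈ J := by
    rw [hJ]
    exact Ideal.mem_span_singleton_self e
  have he0 : e = 0 := by
    have h1 : (e : Matrix ι ι K) ∈ radE E D := heJ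
    obtain ⟨n, hn⟩ := hnil _ h1
    have h2 : e ^ (n + 1) = e := he.pow_succ_eq n
    have h3 : e ^ n = 0 := Subtype.ext (by rw [SubmonoidClass.coe_pow, hn]; rfl)
    rw [← h2, pow_succ, h3, zero_mul]
  have hinf : D'.toSubmodule ⊓ radE E D = ⊥ := by
    rw [eq_bot_iff]
    rintro x ⟨hx, hx'⟩
    have h1 : (⟨x, hx⟩ : D') ∈ J := hx'
    rw [hJ, he0, Ideal.mem_span_singleton'] at h1
    obtain ⟨c, hc⟩ := h1
    rw [mul_zero] at hc
    exact (congrArg Subtype.val hc).symm
  have hle : D'.toSubmodule ⊔ radE E D ≤ D.toSubmodule := sup_le h fun x hx => hx.1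
  have h1 := Submodule.finrank_sup_add_finrank_inf_eq D'.toSubmodule (radE E D)
  rw [hinf, finrank_bot, add_zero] at h1
  have h2 := Submodule.finrank_mono hle
  have h3 : finrank K D' = finrank K D'.toSubmodule := rfl
  have h4 : finrank K D' + finrank K (radE E D) ≤ finrank K D.toSubmodule := by
    rw [h3, ← h1]
    exact h2
  have h5 : (finrank K D' : ℝ) + finrank K (radE E D) ≤ finrank K D.toSubmodule := by
    exact_mod_cast h4
  linarith

variable {α : Type} [Fintype α] [DecidableEq α] {K : Type*} [Field K] [CharZero K]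

theorem lowA (Q : SSys α K) (hQ : Q.HasPerm) (hnil : ∀ M, Q.NilBelow M) (m : ℕ) :
    (Fintype.card α : ℝ) ^ (2 * m) ≤ (m + 1 : ℝ) ^ (Fintype.card α ^ 2) * Q.A (2 * m) := by
  obtain ⟨ρ, sgn, hmem, hs, hρ1, hρ0⟩ := hQ m
  obtain ⟨D, hss, hpm, hD⟩ := exists_symS ρ
  have h1 := dc D hss
  have h2 := orbS (ρ := ρ) hs hρ1 hρ0 (Subalgebra.toSubmodule (Subalgebra.centralizer K
    (D : Set (Matrix (L m → α) (L m → α) K)))) (by
      intro A hA e
      exact hA (ρ e) (hpm e))
  have hDQ : D ≤ Q.alg (lin m) := by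
    have h3 : D.toSubmodule ≤ Q.P (lin m) (lin m) := by
      refine hD.trans ?_
      rw [Submodule.span_le]
      rintro _ ⟨e, rfl⟩
      exact hmem e
    exact h3
  have h5 : (finrank K D : ℝ) ≤ Q.A (2 * m) := by
    have h3 := semis_subE (Q.alg (lin m)) D (Q.alg_even (lin m))
      (hnil (Fintype.card (L m) + 1) (L m) (lin m) (Nat.lt_succ_self _)) hDQ hss
    have h4 := Q.a_eq_A (lin m) (lin m)
    rw [card_L, ← two_mul] at h4
    rw [← h4]
    exact h3
  have h6 : ((Fintype.card (L m → α) ^ 2 : ℕ) : ℝ) ≤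
      ((finrank K D * finrank K (Subalgebra.centralizer K
        (D : Set (Matrix (L m → α) (L m → α) K))) : ℕ) : ℝ) := by
    exact_mod_cast h1
  have h7 : ((Fintype.card (L m → α) ^ 2 : ℕ) : ℝ) = (Fintype.card α : ℝ) ^ (2 * m) := by
    rw [Fintype.card_fun, ← pow_mul, mul_comm, card_L]
    push_cast
    rfl
  have h8 : ((finrank K (Subalgebra.centralizer K
      (D : Set (Matrix (L m → α) (L m → α) K))) : ℕ) : ℝ) ≤
        (m + 1 : ℝ) ^ (Fintype.card α ^ 2) := by
    have h9 : finrank K (Subalgebra.centralizer K (D : Set (Matrix (L m → α) (L m → α) K))) ≤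
        (Fintype.card (L m) + 1) ^ (Fintype.card α ^ 2) := h2
    rw [card_L] at h9
    exact_mod_cast h9
  rw [← h7]
  refine h6.trans ?_
  push_cast
  rw [mul_comm]
  exact mul_le_mul h8 h5 (by positivity) (by positivity)

end ZS
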