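import Pool.Agent.W_f569db_zs.BrB

set_option autoImplicit false

/-!
# Bridge D: signed permutations of the factors of a power
-/

noncomputable section

namespace ZS

open AlgebraicGeometry CategoryTheory MonoidalCategory ZO Matrix
open scoped TensorProduct DirectSum
open Pool.Agent.WeilH_h6 Pool.Agent.WeilH_h6.VarClass Pool.Agent.WeilH_h6.Weil

universe u v w

variable {k : Type u} [Field k] {𝒱 : VarClass k}

/-- the letters of the power with one factor more -/
def lin1 (m : ℕ) : L (m + 1) ≃ L m ⊕ Unit := Equiv.refl _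

/-- `L m ⊕ Unit ≃ Fin (m + 1)` -/
def snocE {A : Type} {m : ℕ} (f : A ≃ Fin m) : A ⊕ Unit ≃ Fin (m + 1) where
  toFun i := Sum.elim (fun j => (f j).castSucc) (fun _ => Fin.last m) i
  invFun i := Fin.lastCases (motive := fun _ => A ⊕ Unit) (Sum.inr ())
    (fun j => Sum.inl (f.symm j)) i
  left_inv := by
    rintro (i | i)
    · simp only [Sum.elim_inl, Fin.lastCases_castSucc, Equiv.symm_apply_apply]
    · simp only [Sum.elim_inr, Fin.lastCases_last]
  right_inv := by
    intro i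
    refine Fin.lastCases ?_ (fun j => ?_) i
    · simp only [Fin.lastCases_last, Sum.elim_inr]
    · simp only [Fin.lastCases_castSucc, Sum.elim_inl, Equiv.apply_symm_apply]

/-- the letters of the `m`-th power -/
def io : (m : ℕ) → (L m ≃ Fin m)
  | 0 => (Equiv.equivOfIsEmpty Empty (Fin 0) :)
  | m + 1 => (lin1 m).trans (snocE (io m))

theorem io_symm_last (m : ℕ) : (io (m + 1)).symm (Fin.last m) = (lin1 m).symm (Sum.inr ()) := by
  change (lin1 m).symm ((snocE (io m)).symm (Fin.last m)) = _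
  congr 1
  rw [Equiv.symm_apply_eq]
  rfl

theorem io_symm_castSucc (m : ℕ) (i : Fin m) :
    (io (m + 1)).symm i.castSucc = (lin1 m).symm (Sum.inl ((io m).symm i)) := by
  change (lin1 m).symm ((snocE (io m)).symm i.castSucc) = _
  congr 1
  rw [Equiv.symm_apply_eq]
  change _ = (io m ((io m).symm i)).castSucc
  rw [Equiv.apply_symm_apply]

/-- projection -/
def lfst (X : 𝒱.Obj) (m : ℕ) : ob X (lin (m + 1)) ⟶ ob X (lin m) := Obj.fst (ob X (lin m)) X

/-- projection -/
def lsnd (X : 𝒱.Obj) (m : ℕ) : ob X (lin (m + 1)) ⟶ X := Obj.snd (ob X (lin m)) X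

/-- pairing -/
def llift {T X : 𝒱.Obj} {m : ℕ} (f : T ⟶ ob X (lin m)) (g : T ⟶ X) : T ⟶ ob X (lin (m + 1)) :=
  Obj.lift f g

theorem llift_lfst {T X : 𝒱.Obj} {m : ℕ} (f : T ⟶ ob X (lin m)) (g : T ⟶ X) :
    llift f g ≫ lfst X m = f := Obj.lift_fst f g

theorem llift_lsnd {T X : 𝒱.Obj} {m : ℕ} (f : T ⟶ ob X (lin m)) (g : T ⟶ X) :
    llift f g ≫ lsnd X m = g := Obj.lift_snd f g

theorem lhom_ext {T X : 𝒱.Obj} {m : ℕ} {f g : T ⟶ ob X (lin (m + 1))}
    (h1 : f ≫ lfst X m = g ≫ lfst X m) (h2 : f ≫ lsnd X m = g ≫ lsnd X m) : f = g :=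
  Obj.hom_ext h1 h2

/-- the isomorphism `X^m → X^(lin m)` -/
def jm (X : 𝒱.Obj) : (m : ℕ) → (X.pow m ⟶ ob X (lin m))
  | 0 => 𝟙 (Obj.pt : 𝒱.Obj)
  | m + 1 => llift (Obj.pfst X m ≫ jm X m) (Obj.psnd X m)

/-- the isomorphism `X^(lin m) → X^m` -/
def jI (X : 𝒱.Obj) : (m : ℕ) → (ob X (lin m) ⟶ X.pow m)
  | 0 => 𝟙 (Obj.pt : 𝒱.Obj)
  | m + 1 => Obj.plift (lfst X m ≫ jI X m) (lsnd X m)

theorem jm_succ (X : 𝒱.Obj) (m : ℕ) :
    jm X (m + 1) = llift (Obj.pfst X m ≫ jm X m) (Obj.psnd X m) := rfl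

theorem jI_succ (X : 𝒱.Obj) (m : ℕ) : jI X (m + 1) = Obj.plift (lfst X m ≫ jI X m) (lsnd X m) := rfl

theorem jm_jI (X : 𝒱.Obj) (m : ℕ) : jm X m ≫ jI X m = 𝟙 (X.pow m) := by
  induction m with
  | zero => exact Obj.toPt_unique _ _
  | succ m ih =>
    rw [jI_succ]
    refine Obj.phom_ext ?_ ?_
    · rw [Category.assoc, Obj.plift_pfst, jm_succ, ← Category.assoc, llift_lfst, Category.assoc, ih,
        Category.comp_id, Category.id_comp]
    · rw [Category.assoc, Obj.plift_psnd, jm_succ, llift_lsnd, Category.id_comp]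

theorem jI_jm (X : 𝒱.Obj) (m : ℕ) : jI X m ≫ jm X m = 𝟙 (ob X (lin m)) := by
  induction m with
  | zero => exact Obj.toPt_unique _ _
  | succ m ih =>
    rw [jm_succ]
    refine lhom_ext ?_ ?_
    · rw [Category.assoc, llift_lfst, jI_succ, ← Category.assoc, Obj.plift_pfst, Category.assoc, ih,
        Category.comp_id, Category.id_comp]
    · rw [Category.assoc, llift_lsnd, jI_succ, Obj.plift_psnd, Category.id_comp]

variable {K : Type v} [Field K] (W : Weil.{u, v, w} 𝒱 K) {X : 𝒱.Obj} {α : Type}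
  (bs : Module.Basis α K (W.H X)) (π : α → ℕ)

theorem pull_jm (m : ℕ) (c : L m → α) :
    W.pull (jm X m) (bS W bs (lin m) c) = W.pureT fun i => bs (c ((io m).symm i)) := by
  induction m with
  | zero =>
    have h1 : bS W bs (lin 0) c = (1 : W.H (Obj.pt : 𝒱.Obj)) := bS_e W bs c
    rw [pureT_zero]
    refine (congrArg (fun x => W.pull (jm X 0) x) h1).trans ?_
    exact map_one (W.pull (jm X 0))
  | succ m ih =>
    have h1 : bS W bs (lin (m + 1)) c = W.pull (lfst X m) (bS W bs (lin m)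
        (c ∘ (lin1 m).symm ∘ Sum.inl)) * W.pull (lsnd X m) (bs (c ((lin1 m).symm (Sum.inr ())))) := by
      refine (bS_p W bs (lin m) Shp.o c).trans ?_
      rw [bS_o]
      rfl
    rw [h1, map_mul, ← W.pull_comp, ← W.pull_comp, jm_succ, llift_lfst, llift_lsnd, W.pull_comp, ih,
      pureT_succ]
    congr 2
    · congr 1
      funext i
      rw [io_symm_castSucc]
      rfl
    · rw [io_symm_last]

/-- the permutation of the factors -/
def pmM (X : 𝒱.Obj) {m : ℕ} (σ : Equiv.Perm (L m)) : ob X (lin m) ⟶ ob X (lin m) :=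
  jI X m ≫ Obj.sel X (((io m).symm.trans σ).trans (io m)) ≫ jm X m

theorem sel_sel (X : 𝒱.Obj) {m M N : ℕ} (f : Fin m → Fin M) (g : Fin M → Fin N) :
    Obj.sel X g ≫ Obj.sel X f = Obj.sel X (g ∘ f) := by
  refine Obj.pow_hom_ext fun s => ?_
  rw [Category.assoc, Obj.sel_proj, Obj.sel_proj, Obj.sel_proj]
  rfl

theorem sel_id (X : 𝒱.Obj) {m : ℕ} : Obj.sel X (id : Fin m → Fin m) = 𝟙 (X.pow m) := by
  refine Obj.pow_hom_ext fun s => ?_
  rw [Obj.sel_proj, Category.id_comp]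
  rfl

theorem pmM_one (X : 𝒱.Obj) {m : ℕ} : pmM X (1 : Equiv.Perm (L m)) = 𝟙 _ := by
  unfold pmM
  have h : (⇑(((io m).symm.trans (1 : Equiv.Perm (L m))).trans (io m)) : Fin m → Fin m) = id := by
    funext i
    simp
  rw [h, sel_id, Category.id_comp, jI_jm]

theorem pmM_mul (X : 𝒱.Obj) {m : ℕ} (σ τ : Equiv.Perm (L m)) :
    pmM X (σ * τ) = pmM X σ ≫ pmM X τ := by
  unfold pmM
  have h : (⇑(((io m).symm.trans (σ * τ)).trans (io m)) : Fin m → Fin m) =
      (((io m).symm.trans σ).trans (io m)) ∘ (((io m).symm.trans τ).trans (io m)) := by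
    funext i
    simp
  rw [h, ← sel_sel]
  simp only [Category.assoc]
  rw [← Category.assoc (jm X m) (jI X m), jm_jI, Category.id_comp]

/-- the permutation of the factors as a linear map -/
def pmL (X : 𝒱.Obj) {m : ℕ} (σ : Equiv.Perm (L m)) : W.H (ob X (lin m)) →ₗ[K] W.H (ob X (lin m)) :=
  (W.pull (pmM X σ)).toLinearMap

variable [Fintype α] [DecidableEq α]

/-- the representation of the symmetric group by signed permutations -/
def rhoM (m : ℕ) : Equiv.Perm (L m) →* Matrix (L m → α) (L m → α) K where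
  toFun σ := mt W bs (lin m) (lin m) (pmL W X σ)
  map_one' := by
    rw [← mt_id W bs (lin m)]
    congr 1
    refine LinearMap.ext fun x => ?_
    change W.pull (pmM X 1) x = x
    rw [pmM_one, W.pull_id]
  map_mul' σ τ := by
    rw [← mt_comp]
    congr 1
    refine LinearMap.ext fun x => ?_
    change W.pull (pmM X (σ * τ)) x = W.pull (pmM X σ) (W.pull (pmM X τ) x)
    rw [pmM_mul, W.pull_comp]

theorem pull_pmM [CharZero K] (hπ : ∀ a, W.par X (bs a) = ((-1 : K) ^ π a) • bs a) {m : ℕ}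
    (σ : Equiv.Perm (L m)) (d : L m → α) : ∃ ε : K, ε ≠ 0 ∧
      W.pull (pmM X σ) (bS W bs (lin m) d) = ε • bS W bs (lin m) (d ∘ σ.symm) := by
  obtain ⟨ε, hε, h⟩ := W.pull_sel_pureT (X := X) (((io m).symm.trans σ).trans (io m))
    (fun i => π (d ((io m).symm i)))
  refine ⟨ε, ?_, ?_⟩
  · rcases hε with h1 | h1 <;> rw [h1] <;> simp
  · unfold pmM
    rw [W.pull_comp, W.pull_comp, pull_jm, h _ (fun s => hπ _), map_smul]
    congr 1
    have h1 : (fun t : Fin m => bs (d ((io m).symm ((((io m).symm.trans σ).trans (io m)).symm t)))) =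
        fun t => bs ((d ∘ σ.symm) ((io m).symm t)) := by
      funext t
      simp
    have h2 := pull_jm W bs m (d ∘ σ.symm)
    rw [← h1] at h2
    rw [← h2, ← W.pull_comp, jI_jm, W.pull_id]

end ZS
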