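import Pool.Agent.W_f569db_zo.Ana

set_option autoImplicit false

/-!
# The final estimate with a rate

`final_exp`, `final_log`: `A` and `h` satisfy either the estimates `hbound` (some numerically trivial
endomorphism is not nilpotent; then `h / A` grows exponentially), or `hlow` and `hchain` (all
numerically trivial endomorphisms are nilpotent; then `J * A (2 m) ≤ 2 * h (2 m)` for
`m ≥ (b+1)^(6 J d)`).
-/

namespace ZS

/-- polynomials against exponentials -/
theorem exists_poly_bound {x : ℝ} (hx : 1 < x) (B : ℕ) :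
    ∃ M : ℝ, 0 < M ∧ ∀ l : ℕ, ((l : ℝ) + 1) ^ B ≤ M * x ^ l := by
  have h1 := (tendsto_pow_const_div_const_pow_of_one_lt B hx).bddAbove_range
  obtain ⟨M0, hM0⟩ := h1
  have hx0 : 0 < x := by linarith
  refine ⟨(|M0| + 1) * x, by positivity, fun l => ?_⟩
  have h2 : ((l + 1 : ℕ) : ℝ) ^ B / x ^ (l + 1) ≤ M0 := hM0 ⟨l + 1, rfl⟩
  rw [div_le_iff₀ (pow_pos hx0 _)] at h2
  push_cast at h2
  calc ((l : ℝ) + 1) ^ B ≤ M0 * x ^ (l + 1) := h2
    _ ≤ (|M0| + 1) * x ^ (l + 1) := by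
        apply mul_le_mul_of_nonneg_right _ (pow_pos hx0 _).le
        linarith [le_abs_self M0]
    _ = (|M0| + 1) * x * x ^ l := by rw [pow_succ]; ring

/-- first case: `k ≥ 1`, `A (2 l k) ≤ (b^k - 1)^(2l)` -/
theorem final_exp (A h : ℕ → ℝ) (b k : ℕ) (hb : 1 ≤ b) (hk : 1 ≤ k) (hA1 : ∀ n, 1 ≤ A n)
    (hA : ∀ n, A n ≤ A (n + 1)) (hh : ∀ n, h n ≤ h (n + 1)) (hAh : ∀ n, A n ≤ h n)
    (hlow : ∀ m : ℕ, (b : ℝ) ^ (2 * m) ≤ (m + 1 : ℝ) ^ (b ^ 2) * h (2 * m))
    (hbound : ∀ l : ℕ, A (2 * (l * k)) ≤ (((b : ℝ) ^ k - 1) ^ l) ^ 2) :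
    ∃ c : ℝ, 0 < c ∧ ∀ n : ℕ, 1 ≤ n → c * Real.log (n + 1) * A n ≤ h n := by
  have hAm : Monotone A := monotone_nat_of_le_succ hA
  have hhm : Monotone h := monotone_nat_of_le_succ hh
  set β : ℝ := (b : ℝ) ^ k with hβ
  set γ : ℝ := β - 1 with hγ
  have hγ1 : 1 ≤ γ := by
    have h1 := (hA1 (2 * (1 * k))).trans (hbound 1)
    rw [pow_one] at h1
    have hb2 : 2 ≤ b := by
      by_contra hb2
      have hb1 : b = 1 := by omega
      rw [hγ, hβ, hb1] at h1
      norm_num at h1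
    have h2 : (2 : ℝ) ≤ β := by
      calc (2 : ℝ) = 2 ^ 1 := by norm_num
        _ ≤ 2 ^ k := pow_le_pow_right₀ (by norm_num) hk
        _ ≤ (b : ℝ) ^ k := pow_le_pow_left₀ (by norm_num) (by exact_mod_cast hb2) k
    rw [hγ]
    linarith
  have hγ0 : 0 < γ := by linarith
  have hβ0 : 0 < β := by rw [hγ] at hγ0; linarith
  set x : ℝ := (β / γ) ^ 2 with hx
  have hx1 : 1 < x := by
    rw [hx]
    have : 1 < β / γ := by
      rw [lt_div_iff₀ hγ0, hγ]
      linarith
    exact one_lt_pow₀ this two_ne_zero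
  obtain ⟨M, hM0, hM⟩ := exists_poly_bound hx1 (b ^ 2 + 1)
  have hk0 : (0 : ℝ) < k := by exact_mod_cast hk
  have hk1 : (1 : ℝ) ≤ k := by exact_mod_cast hk
  set C : ℝ := 2 * k * γ ^ 2 * (k : ℝ) ^ (b ^ 2) * M with hC
  have hC0 : 0 < C := by positivity
  refine ⟨1 / C, by positivity, fun n hn => ?_⟩
  set l : ℕ := n / (2 * k) with hl
  have hl1 : 2 * (l * k) ≤ n := by
    have := Nat.div_mul_le_self n (2 * k)
    rw [← hl] at this
    calc 2 * (l * k) = l * (2 * k) := by ring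
      _ ≤ n := this
  have hl2 : n + 1 ≤ 2 * ((l + 1) * k) := by
    have := Nat.lt_div_mul_add (a := n) (b := 2 * k) (by omega)
    rw [← hl] at this
    have e : 2 * ((l + 1) * k) = l * (2 * k) + 2 * k := by ring
    omega
  have h1 : A n ≤ γ ^ 2 * (γ ^ l) ^ 2 := by
    calc A n ≤ A (2 * ((l + 1) * k)) := hAm (by omega)
      _ ≤ (γ ^ (l + 1)) ^ 2 := hbound (l + 1)
      _ = γ ^ 2 * (γ ^ l) ^ 2 := by rw [pow_succ]; ring
  have h2 : (β ^ l) ^ 2 ≤ ((l * k : ℕ) + 1 : ℝ) ^ (b ^ 2) * h n := by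
    have h3 := hlow (l * k)
    have e : (b : ℝ) ^ (2 * (l * k)) = (β ^ l) ^ 2 := by
      rw [hβ, ← pow_mul, ← pow_mul]
      congr 1
      ring
    rw [e] at h3
    refine h3.trans ?_
    exact mul_le_mul_of_nonneg_left (hhm hl1) (by positivity)
  have h3 : Real.log (n + 1) ≤ 2 * k * (l + 1) := by
    have h4 : Real.log (n + 1) ≤ (n : ℝ) + 1 := by
      have := Real.log_le_sub_one_of_pos (show (0 : ℝ) < (n : ℝ) + 1 by positivity)
      linarith
    have h5 : ((n + 1 : ℕ) : ℝ) ≤ ((2 * ((l + 1) * k) : ℕ) : ℝ) := by exact_mod_cast hl2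
    push_cast at h5
    calc Real.log (n + 1) ≤ (n : ℝ) + 1 := h4
      _ ≤ 2 * (((l : ℝ) + 1) * k) := h5
      _ = 2 * k * (l + 1) := by ring
  have hh0 : 0 ≤ h n := le_trans (by linarith [hA1 n]) (hAh n)
  have h4 : ((l * k : ℕ) + 1 : ℝ) ≤ k * (l + 1) := by
    push_cast
    nlinarith
  have h5 : ((l * k : ℕ) + 1 : ℝ) ^ (b ^ 2) ≤ (k : ℝ) ^ (b ^ 2) * ((l : ℝ) + 1) ^ (b ^ 2) := by
    rw [← mul_pow]
    exact pow_le_pow_left₀ (by positivity) h4 _
  have h6 : Real.log (n + 1) * A n * (β ^ l) ^ 2 ≤ C * (β ^ l) ^ 2 * h n := by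
    have hlog0 : 0 ≤ Real.log (n + 1) := Real.log_nonneg (by
      have : (0 : ℝ) ≤ n := Nat.cast_nonneg n
      linarith)
    have h7 : (γ ^ l) ^ 2 * x ^ l = (β ^ l) ^ 2 := by
      have e : x ^ l = (β ^ l / γ ^ l) ^ 2 := by
        rw [hx, ← pow_mul, mul_comm 2 l, pow_mul, div_pow]
      rw [e, div_pow]
      field_simp
    calc Real.log (n + 1) * A n * (β ^ l) ^ 2
        ≤ (2 * k * (l + 1)) * (γ ^ 2 * (γ ^ l) ^ 2) *
            (((l * k : ℕ) + 1 : ℝ) ^ (b ^ 2) * h n) := by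
          apply mul_le_mul (mul_le_mul h3 h1 (by linarith [hA1 n]) (by positivity)) h2
            (by positivity) (by positivity)
      _ ≤ (2 * k * (l + 1)) * (γ ^ 2 * (γ ^ l) ^ 2) *
            (((k : ℝ) ^ (b ^ 2) * ((l : ℝ) + 1) ^ (b ^ 2)) * h n) := by
          apply mul_le_mul_of_nonneg_left _ (by positivity)
          exact mul_le_mul_of_nonneg_right h5 hh0
      _ = (2 * k * γ ^ 2 * (k : ℝ) ^ (b ^ 2)) * (γ ^ l) ^ 2 * h n *
            ((l : ℝ) + 1) ^ (b ^ 2 + 1) := by ring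
      _ ≤ (2 * k * γ ^ 2 * (k : ℝ) ^ (b ^ 2)) * (γ ^ l) ^ 2 * h n * (M * x ^ l) := by
          apply mul_le_mul_of_nonneg_left (hM l) (by positivity)
      _ = C * ((γ ^ l) ^ 2 * x ^ l) * h n := by rw [hC]; ring
      _ = C * (β ^ l) ^ 2 * h n := by rw [h7]
  have h8 : 0 < (β ^ l) ^ 2 := by positivity
  have h9 : Real.log (n + 1) * A n ≤ C * h n := by
    have : Real.log (n + 1) * A n * (β ^ l) ^ 2 ≤ C * h n * (β ^ l) ^ 2 := by
      calc Real.log (n + 1) * A n * (β ^ l) ^ 2 ≤ C * (β ^ l) ^ 2 * h n := h6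
        _ = C * h n * (β ^ l) ^ 2 := by ring
    exact le_of_mul_le_mul_right this h8
  calc 1 / C * Real.log (n + 1) * A n = (Real.log (n + 1) * A n) / C := by ring
    _ ≤ (C * h n) / C := div_le_div_of_nonneg_right h9 hC0.le
    _ = h n := by field_simp

/-- second case -/
theorem final_log (A h : ℕ → ℝ) (b d : ℕ) (hb : 1 ≤ b) (hA1 : ∀ n, 1 ≤ A n)
    (hA : ∀ n, A n ≤ A (n + 1)) (hh : ∀ n, h n ≤ h (n + 1)) (hAh : ∀ n, A n ≤ h n)
    (hup : ∀ n, A n ≤ (b : ℝ) ^ n)
    (hlc : ∀ m, (A (2 * (m + 1))) ^ 2 ≤ A (2 * m) * A (2 * (m + 2)))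
    (hlow : ∀ m : ℕ, (b : ℝ) ^ (2 * m) ≤ (m + 1 : ℝ) ^ (b ^ 2) * A (2 * m))
    (hchain : ∀ m J : ℕ, ∑ j ∈ Finset.range J,
        (A (j * (2 * d) + 2 * m) - ((b : ℝ) ^ (j * (2 * d)) - 1) * A (2 * m)) ≤ h (2 * m)) :
    ∃ c : ℝ, 0 < c ∧ ∀ n : ℕ, 1 ≤ n → c * Real.log (n + 1) * A n ≤ h n := by
  have hAm : Monotone A := monotone_nat_of_le_succ hA
  have hhm : Monotone h := monotone_nat_of_le_succ hh
  have heff := ZO.final_eff A h b d hb hlow (fun m => hup (2 * m)) hlc hchain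
  have hb1 : (1 : ℝ) ≤ b := by exact_mod_cast hb
  have hratio : ∀ m, A (2 * (m + 1)) ≤ (b : ℝ) ^ 2 * A (2 * m) := by
    intro m
    refine ZO.ratio_le (fun m => A (2 * m)) ((b : ℝ) ^ 2) (one_le_pow₀ hb1)
      (fun m => lt_of_lt_of_le one_pos (hA1 _)) hlc (fun m => ?_) m
    rw [← pow_mul]
    exact hup _
  rcases Nat.eq_zero_or_pos d with hd | hd
  · exfalso
    subst hd
    obtain ⟨J, hJ⟩ := exists_nat_gt (2 * h (2 * 1))
    have h1 := heff J 1 (by simp)
    have h2 := hA1 (2 * 1)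
    have h3 : (0 : ℝ) ≤ J := Nat.cast_nonneg J
    nlinarith
  · set E : ℝ := 6 * d * Real.log (b + 1) with hE
    have hlogb : 0 ≤ Real.log ((b : ℝ) + 1) := Real.log_nonneg (by linarith)
    have hE0 : 0 ≤ E := by positivity
    set C : ℝ := (b : ℝ) ^ 2 * (Real.log 4 + 3 * E) with hC
    have hlog4 : 0 < Real.log 4 := Real.log_pos (by norm_num)
    have hb2 : (1 : ℝ) ≤ (b : ℝ) ^ 2 := one_le_pow₀ hb1
    have hC0 : 0 < C := by positivity
    -- the estimate for even exponents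
    have key : ∀ m : ℕ, 1 ≤ m → Real.log m * A (2 * m) ≤ 3 * E * h (2 * m) := by
      intro m hm
      set q : ℕ := (b + 1) ^ (6 * d) with hq
      have hq1 : 1 < q := Nat.one_lt_pow (by omega) (by omega)
      set J : ℕ := Nat.log q m with hJ
      have h1 : (b + 1) ^ (6 * J * d) ≤ m := by
        have h2 := Nat.pow_log_le_self q (x := m) (by omega)
        have e : (b + 1) ^ (6 * J * d) = q ^ J := by
          rw [hq, ← pow_mul]
          congr 1
          ring
        rw [e]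
        exact h2
      have h2 := heff J m h1
      have h3 := hAh (2 * m)
      have h4 : ((J : ℝ) + 1) * A (2 * m) ≤ 3 * h (2 * m) := by linarith
      have h5 : m ≤ q ^ (J + 1) := (Nat.lt_pow_succ_log_self hq1 m).le
      have h6 : Real.log m ≤ ((J : ℝ) + 1) * E := by
        have h7 : (m : ℝ) ≤ (((b : ℝ) + 1) ^ (6 * d)) ^ (J + 1) := by
          have h8 : ((m : ℕ) : ℝ) ≤ ((q ^ (J + 1) : ℕ) : ℝ) := by exact_mod_cast h5
          rw [hq] at h8
          push_cast at h8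
          exact h8
        have h9 := Real.log_le_log (by exact_mod_cast hm) h7
        rw [Real.log_pow, Real.log_pow] at h9
        push_cast at h9
        rw [hE]
        linarith
      calc Real.log m * A (2 * m) ≤ ((J : ℝ) + 1) * E * A (2 * m) :=
            mul_le_mul_of_nonneg_right h6 (by linarith [hA1 (2 * m)])
        _ = E * (((J : ℝ) + 1) * A (2 * m)) := by ring
        _ ≤ E * (3 * h (2 * m)) := mul_le_mul_of_nonneg_left h4 hE0
        _ = 3 * E * h (2 * m) := by ring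
    refine ⟨1 / C, by positivity, fun n hn => ?_⟩
    have hh0 : 0 ≤ h n := le_trans (by linarith [hA1 n]) (hAh n)
    have goal : Real.log (n + 1) * A n ≤ C * h n := by
      rcases Nat.lt_or_ge n 2 with hn2 | hn2
      · have hn1 : n = 1 := by omega
        subst hn1
        have h1 : Real.log ((1 : ℕ) + 1) ≤ Real.log 4 :=
          Real.log_le_log (by norm_num) (by norm_num)
        calc Real.log ((1 : ℕ) + 1) * A 1 ≤ Real.log 4 * h 1 :=
              mul_le_mul h1 (hAh 1) (by linarith [hA1 1]) hlog4.le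
          _ ≤ C * h 1 := by
              apply mul_le_mul_of_nonneg_right _ hh0
              rw [hC]
              nlinarith
      · set m : ℕ := n / 2 with hm
        have hm1 : 1 ≤ m := by omega
        have hm2 : 2 * m ≤ n := by omega
        have hm3 : n ≤ 2 * (m + 1) := by omega
        have hm4 : n + 1 ≤ 4 * m := by omega
        have h1 : A n ≤ (b : ℝ) ^ 2 * A (2 * m) := (hAm hm3).trans (hratio m)
        have hmpos : (0 : ℝ) < m := by exact_mod_cast hm1
        have h2 : Real.log (n + 1) ≤ Real.log 4 + Real.log m := by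
          rw [← Real.log_mul (by norm_num) hmpos.ne']
          apply Real.log_le_log (by positivity)
          exact_mod_cast hm4
        have h3 : h (2 * m) ≤ h n := hhm hm2
        have h4 := key m hm1
        have h5 := hAh (2 * m)
        have hlog0 : 0 ≤ Real.log (n + 1) := Real.log_nonneg (by
          have : (0 : ℝ) ≤ n := Nat.cast_nonneg n
          linarith)
        have hA0 : 0 ≤ A (2 * m) := by linarith [hA1 (2 * m)]
        calc Real.log (n + 1) * A n ≤ (Real.log 4 + Real.log m) * ((b : ℝ) ^ 2 * A (2 * m)) :=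
              mul_le_mul h2 h1 (by linarith [hA1 n]) (hlog0.trans h2)
          _ = (b : ℝ) ^ 2 * (Real.log 4 * A (2 * m) + Real.log m * A (2 * m)) := by ring
          _ ≤ (b : ℝ) ^ 2 * (Real.log 4 * h (2 * m) + 3 * E * h (2 * m)) := by
              apply mul_le_mul_of_nonneg_left _ (by positivity)
              have := mul_le_mul_of_nonneg_left h5 hlog4.le
              linarith
          _ = C * h (2 * m) := by rw [hC]; ring
          _ ≤ C * h n := mul_le_mul_of_nonneg_left h3 hC0.le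
    calc 1 / C * Real.log (n + 1) * A n = (Real.log (n + 1) * A n) / C := by ring
      _ ≤ (C * h n) / C := div_le_div_of_nonneg_right goal hC0.le
      _ = h n := by field_simp

end ZS
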