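import Pool.Agent.W_f569db_zs.Two

set_option autoImplicit false

/-!
# If some numerically trivial endomorphism is not nilpotent then the dimensions `A n` grow slower

`nil_or_bound`: for every shape `s` with `k` letters either all elements of `N s s` are nilpotent or
`A (2 l k) ≤ (b^k - 1)^(2l)` for all `l`.
-/

noncomputable section

namespace ZS

open Matrix Module ZO

set_option linter.unusedSectionVars false

/-- a matrix which is not nilpotent has a polynomial without constant term which is a nonzero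
idempotent -/
theorem exists_idem {ι : Type*} [Fintype ι] [DecidableEq ι] {K : Type*} [Field K]
    (A : Matrix ι ι K) (hA : ¬ IsNilpotent A) :
    ∃ p : Polynomial K, Polynomial.aeval A (p * Polynomial.X) * Polynomial.aeval A (p * Polynomial.X) =
      Polynomial.aeval A (p * Polynomial.X) ∧ Polynomial.aeval A (p * Polynomial.X) ≠ 0 := by
  classical
  have hne : minpoly K A ≠ 0 := minpoly.ne_zero (Algebra.IsIntegral.isIntegral A)
  obtain ⟨q, hq1, hq2⟩ :=
    Polynomial.exists_eq_pow_rootMultiplicity_mul_and_not_dvd (minpoly K A) hne 0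
  rw [Polynomial.C_0, sub_zero] at hq1 hq2
  set j := (minpoly K A).rootMultiplicity 0
  have hcop : IsCoprime (Polynomial.X ^ (j + 1)) q :=
    ((Polynomial.irreducible_X.coprime_iff_not_dvd).2 hq2).pow_left
  obtain ⟨u, v, huv⟩ := hcop
  have h0 : Polynomial.aeval A (Polynomial.X ^ j * q) = 0 := by
    rw [← hq1, minpoly.aeval]
  refine ⟨u * Polynomial.X ^ j, ?_⟩
  have hp : u * Polynomial.X ^ j * Polynomial.X = u * Polynomial.X ^ (j + 1) := by ring
  rw [hp]
  set e : Matrix ι ι K := Polynomial.aeval A (u * Polynomial.X ^ (j + 1)) with he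
  have h1e : e + Polynomial.aeval A (v * q) = 1 := by
    rw [he, ← map_add, huv, map_one]
  have hemul : e * Polynomial.aeval A (v * q) = 0 := by
    have h2 : u * Polynomial.X ^ (j + 1) * (v * q) =
        (u * v * Polynomial.X) * (Polynomial.X ^ j * q) := by ring
    rw [he, ← map_mul, h2, map_mul, h0, mul_zero]
  have hidem : e * e = e := by
    have h3 : e * (e + Polynomial.aeval A (v * q)) = e := by rw [h1e, mul_one]
    rwa [mul_add, hemul, add_zero] at h3
  refine ⟨hidem, fun he0 => hA ?_⟩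
  rw [he0, zero_add] at h1e
  refine ⟨j, ?_⟩
  have h6 : A ^ j = Polynomial.aeval A ((Polynomial.X : Polynomial K) ^ j) := by
    rw [map_pow, Polynomial.aeval_X]
  have h7 : A ^ j * Polynomial.aeval A (v * q) = 0 := by
    rw [h6, ← map_mul]
    have h8 : (Polynomial.X : Polynomial K) ^ j * (v * q) = v * (Polynomial.X ^ j * q) := by ring
    rw [h8, map_mul, h0, mul_zero]
  rwa [h1e, mul_one] at h7

/-- rank factorisation -/
theorem exists_factor {ι : Type*} [Fintype ι] [DecidableEq ι] {K : Type*} [Field K]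
    (F : Matrix ι ι K) : ∃ (v : Matrix ι (Fin F.rank) K) (u : Matrix (Fin F.rank) ι K),
      v * u = F := by
  let V : Submodule K (ι → K) := LinearMap.range F.mulVecLin
  let b : Module.Basis (Fin F.rank) K V := Module.finBasisOfFinrankEq K V rfl
  have hmem : ∀ k : ι, F *ᵥ (Pi.single k 1) ∈ V := fun k => ⟨Pi.single k 1, rfl⟩
  refine ⟨Matrix.of fun i j => (b j : ι → K) i,
    Matrix.of fun j k => b.repr ⟨F *ᵥ (Pi.single k 1), hmem k⟩ j, ?_⟩
  ext i k
  rw [Matrix.mul_apply]
  simp only [Matrix.of_apply]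
  have h1 := congrArg (fun x : V => (x : ι → K) i)
    (b.sum_repr ⟨F *ᵥ (Pi.single k 1), hmem k⟩)
  simp only [Submodule.coe_sum, Submodule.coe_smul, Finset.sum_apply, Pi.smul_apply,
    smul_eq_mul] at h1
  have h2 : (F *ᵥ (Pi.single k 1)) i = F i k := by
    rw [Matrix.mulVec_single_one]
    rfl
  rw [← h2]
  refine Eq.trans ?_ h1
  exact Finset.sum_congr rfl fun j _ => mul_comm _ _

/-- `dim {F x F} ≤ (rank F)^2` -/
theorem finrank_sand_le {ι : Type*} [Fintype ι] [DecidableEq ι] {K : Type*} [Field K]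
    (F : Matrix ι ι K) (W : Submodule K (Matrix ι ι K)) :
    finrank K (W.map (sand F F)) ≤ F.rank * F.rank := by
  obtain ⟨v, u, hvu⟩ := exists_factor F
  have h1 : W.map (sand F F) ≤ LinearMap.range (sand v u) := by
    rintro _ ⟨x, _, rfl⟩
    refine ⟨u * x * v, ?_⟩
    rw [sand_apply, sand_apply]
    calc v * (u * x * v) * u = (v * u) * x * (v * u) := by simp only [Matrix.mul_assoc]
      _ = F * x * F := by rw [hvu]
  have h2 := Submodule.finrank_mono h1
  have h3 := LinearMap.finrank_range_le (sand v u)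
  rw [Module.finrank_matrix, Module.finrank_self, Fintype.card_fin, mul_one] at h3
  exact h2.trans h3

variable {α : Type} [Fintype α] [DecidableEq α] {K : Type*} [Field K]

theorem kr_add_right {S S' T T' : Type} (A : Matrix (S' → α) (S → α) K)
    (B B' : Matrix (T' → α) (T → α) K) : kr A (B + B') = kr A B + kr A B' := by
  ext c d
  exact mul_add _ _ _

theorem kr_sub_right {S S' T T' : Type} (A : Matrix (S' → α) (S → α) K)
    (B B' : Matrix (T' → α) (T → α) K) : kr A (B - B') = kr A B - kr A B' := by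
  ext c d
  exact mul_sub _ _ _

theorem kr_sub_left {S S' T T' : Type} (A A' : Matrix (S' → α) (S → α) K)
    (B : Matrix (T' → α) (T → α) K) : kr (A - A') B = kr A B - kr A' B := by
  ext c d
  exact sub_mul _ _ _

namespace SSys

variable (Q : SSys α K) {S : Type} [Fintype S] [DecidableEq S] {s : Shp S}

theorem exists_idem_N {x : Matrix (S → α) (S → α) K} (hx : x ∈ Q.N s s) (hn : ¬ IsNilpotent x) :
    ∃ e ∈ Q.N s s, e * e = e ∧ e ≠ 0 := by
  obtain ⟨p, h1, h2⟩ := exists_idem x hn
  refine ⟨_, ?_, h1, h2⟩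
  rw [map_mul, Polynomial.aeval_X]
  have hp : Polynomial.aeval x p ∈ Q.alg s :=
    Polynomial.aeval_mem_adjoin_singleton K x |> fun h =>
      (Algebra.adjoin_le (S := Q.alg s) (by
        rintro _ rfl
        exact hx.1)) h
  exact Q.N_mul_left hp hx

/-- the tensor powers of an idempotent `f` with `1 - f` numerically trivial -/
theorem exists_power [CharZero K] {f : Matrix (S → α) (S → α) K} (hf : f ∈ Q.P s s)
    (hff : f * f = f) (hN : 1 - f ∈ Q.N s s) (l : ℕ) :
    ∃ (T : Type) (_ : Fintype T) (_ : DecidableEq T) (t : Shp T) (F : Matrix (T → α) (T → α) K),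
      Fintype.card T = l * Fintype.card S ∧ F ∈ Q.P t t ∧ F * F = F ∧ F.rank = f.rank ^ l ∧
        1 - F ∈ Q.N t t := by
  induction l with
  | zero =>
    refine ⟨Empty, inferInstance, inferInstance, Shp.e, 1, by simp, Q.one_mem _, Matrix.mul_one _,
      ?_, ?_⟩
    · rw [Matrix.rank_one, pow_zero]
      simp
    · rw [sub_self]
      exact zero_mem _
  | succ l ih =>
    obtain ⟨T, _, _, t, F, h1, h2, h3, h4, h5⟩ := ih
    refine ⟨T ⊕ S, inferInstance, inferInstance, t.p s, kr F f, ?_, Q.kr_mem h2 hf, ?_, ?_, ?_⟩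
    · rw [Fintype.card_sum, h1]
      ring
    · rw [kr_mul, h3, hff]
    · rw [rank_kr_idem h3 hff, h4, pow_succ]
    · have h6 : (1 : Matrix (T ⊕ S → α) (T ⊕ S → α) K) - kr F f =
          kr (1 - F) (1 : Matrix (S → α) (S → α) K) +
            kr F (1 : Matrix (S → α) (S → α) K) * kr (1 : Matrix (T → α) (T → α) K) (1 - f) := by
        rw [kr_mul, Matrix.mul_one, Matrix.one_mul, kr_sub_left, kr_sub_right, kr_one]
        abel
      rw [h6]
      exact add_mem (Q.kr_one_mem_N h5)
        (Q.N_mul_left (Q.kr_mem h2 (Q.one_mem s)) (Q.one_kr_mem_N hN))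

theorem a_le_rank {f : Matrix (S → α) (S → α) K} (hf : f ∈ Q.P s s) (hff : f * f = f)
    (hN : 1 - f ∈ Q.N s s) : Q.a s s ≤ (f.rank : ℝ) * f.rank := by
  have h1 : Q.P s s ≤ (Q.P s s).map (sand f f) ⊔ Q.N s s := by
    intro x hx
    have h2 : x = f * x * f + ((1 - f) * x * f + x * (1 - f)) := by
      rw [Matrix.sub_mul, Matrix.sub_mul, Matrix.mul_sub, Matrix.one_mul, Matrix.mul_one]
      abel
    rw [h2]
    refine Submodule.add_mem_sup ⟨x, hx, rfl⟩ (add_mem ?_ ?_)
    · exact Q.N_mul_right (Q.N_mul_right hN hx) hf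
    · exact Q.N_mul_left hx hN
  have h2 := Submodule.finrank_mono h1
  have h3 := Submodule.finrank_add_le_finrank_add_finrank ((Q.P s s).map (sand f f)) (Q.N s s)
  have h4 := finrank_sand_le f (Q.P s s)
  have h5 : finrank K (Q.P s s) ≤ f.rank * f.rank + finrank K (Q.N s s) := by omega
  have h6 : (finrank K (Q.P s s) : ℝ) ≤ (f.rank : ℝ) * f.rank + finrank K (Q.N s s) := by
    exact_mod_cast h5
  unfold a
  linarith

/-- Either all elements of `N s s` are nilpotent or the dimensions `A n` grow slower than `b^n`. -/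
theorem nil_or_bound [CharZero K] (s : Shp S) : (∀ x ∈ Q.N s s, IsNilpotent x) ∨
    ∀ l : ℕ, Q.A (2 * (l * Fintype.card S)) ≤
      (((Fintype.card α : ℝ) ^ (Fintype.card S) - 1) ^ l) ^ 2 := by
  by_cases h : ∀ x ∈ Q.N s s, IsNilpotent x
  · exact Or.inl h
  · right
    intro l
    push Not at h
    obtain ⟨x, hx, hn⟩ := h
    obtain ⟨e, he, hee, he0⟩ := Q.exists_idem_N hx hn
    have hf : 1 - e ∈ Q.P s s := sub_mem (Q.one_mem s) he.1
    have hff : (1 - e) * (1 - e) = 1 - e := by
      rw [Matrix.sub_mul, Matrix.one_mul, Matrix.mul_sub, Matrix.mul_one, hee]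
      abel
    have hf1 : 1 - e ≠ 1 := by
      intro h1
      apply he0
      have h2 : (1 : Matrix (S → α) (S → α) K) - (1 - e) = 0 := by rw [h1, sub_self]
      rwa [sub_sub_cancel] at h2
    have hN : 1 - (1 - e) ∈ Q.N s s := by rwa [sub_sub_cancel]
    obtain ⟨T, _, _, t, F, h1, h2, h3, h4, h5⟩ := Q.exists_power hf hff hN l
    have h6 := Q.a_le_rank h2 h3 h5
    rw [Q.a_eq_A, ← two_mul, h1] at h6
    refine h6.trans ?_
    rw [← sq]
    have h7 := rank_lt_of_idem hff hf1
    have h8 : ((1 - e).rank : ℝ) ≤ (Fintype.card α : ℝ) ^ (Fintype.card S) - 1 := by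
      have h10 : (((1 - e).rank + 1 : ℕ) : ℝ) ≤ ((Fintype.card (S → α) : ℕ) : ℝ) := by
        exact_mod_cast h7
      rw [Fintype.card_fun] at h10
      push_cast at h10
      linarith
    rw [h4]
    push_cast
    exact pow_le_pow_left₀ (pow_nonneg (Nat.cast_nonneg _) _)
      (pow_le_pow_left₀ (Nat.cast_nonneg _) h8 l) 2

end SSys

end ZS
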