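import Pool.Agent.W_f569db_zs.LowA
import Pool.Agent.W_f569db_zs.NilN
import Pool.Agent.W_f569db_zs.Ana
import Pool.Agent.W_f569db_zo.Main

set_option autoImplicit false

/-!
# The zero-one law, abstract form
-/

noncomputable section

namespace ZS

open Matrix Module ZO

set_option linter.unusedSectionVars false

variable {α : Type} [Fintype α] [DecidableEq α] [Nonempty α] {K : Type*} [Field K] [CharZero K]

namespace SSys

variable (Q : SSys α K)

/-- `h n ≤ h (n+1)` -/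
theorem h_mono {u : Matrix (Unit → α) (Empty → α) K} (hu : u ∈ Q.P Shp.e Shp.o) (hu0 : u ≠ 0)
    (n : ℕ) : Q.h n ≤ Q.h (n + 1) := by
  have h1 : (Q.P Shp.e (lin n)).map (mainT u) ≤ Q.P Shp.e (lin (n + 1)) := by
    rintro _ ⟨x, hx, rfl⟩
    exact Q.mul_mem (Q.kr_mem hx hu) (Q.lunit_symm_mem Shp.e)
  have h2 := Submodule.finrank_mono h1
  rw [main_finrank_map (mainT_inj hu0)] at h2
  unfold h
  exact_mod_cast h2

/-- `A n ≤ A (n+1)` -/
theorem A_mono {u : Matrix (Unit → α) (Empty → α) K} {v : Matrix (Empty → α) (Unit → α) K}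
    (hu : u ∈ Q.P Shp.e Shp.o) (hv : v ∈ Q.P Shp.o Shp.e) (hvu : v * u = 1)
    (n : ℕ) : Q.A n ≤ Q.A (n + 1) := by
  have hu0 : u ≠ 0 := by
    rintro rfl
    rw [Matrix.mul_zero] at hvu
    have h1 := congrFun (congrFun hvu (fun e => e.elim)) (fun e => e.elim)
    rw [Matrix.one_apply_eq] at h1
    exact zero_ne_one h1
  have h0 : Q.A (n + 1) = Q.a Shp.e ((lin n).p Shp.o) := rfl
  rw [h0]
  set P1 := (Q.P Shp.e (lin n)).map (mainT u) with hP1
  set N1 := (Q.N Shp.e (lin n)).map (mainT u) with hN1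
  have h1 : P1 ≤ Q.P Shp.e ((lin n).p Shp.o) := by
    rintro _ ⟨x, hx, rfl⟩
    exact Q.mul_mem (Q.kr_mem hx hu) (Q.lunit_symm_mem Shp.e)
  have h2 : P1 ⊓ Q.N Shp.e ((lin n).p Shp.o) ≤ N1 := by
    rintro _ ⟨⟨x, hx, rfl⟩, hx'⟩
    refine ⟨x, ?_, rfl⟩
    have h3 := Q.N_mul_left (Q.mul_mem (Q.runit_mem (lin n))
      (Q.kr_mem (Q.one_mem (lin n)) hv)) hx'
    rwa [main_left_inv hvu x] at h3
  have h3 := Submodule.finrank_sup_add_finrank_inf_eq P1 (Q.N Shp.e ((lin n).p Shp.o))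
  have h4 : P1 ⊔ Q.N Shp.e ((lin n).p Shp.o) ≤ Q.P Shp.e ((lin n).p Shp.o) :=
    sup_le h1 (Q.N_le _ _)
  have h5 := Submodule.finrank_mono h4
  have h6 := Submodule.finrank_mono h2
  have h7 : finrank K P1 = finrank K (Q.P Shp.e (lin n)) :=
    main_finrank_map (mainT_inj hu0) _
  have h8 : finrank K N1 = finrank K (Q.N Shp.e (lin n)) :=
    main_finrank_map (mainT_inj hu0) _
  rw [h7] at h3
  rw [h8] at h6
  unfold A a
  have h9 : finrank K (Q.P Shp.e (lin n)) + finrank K (Q.N Shp.e ((lin n).p Shp.o)) ≤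
      finrank K (Q.P Shp.e ((lin n).p Shp.o)) + finrank K (Q.N Shp.e (lin n)) := by
    omega
  have h10 : (finrank K (Q.P Shp.e (lin n)) : ℝ) + finrank K (Q.N Shp.e ((lin n).p Shp.o)) ≤
      finrank K (Q.P Shp.e ((lin n).p Shp.o)) + finrank K (Q.N Shp.e (lin n)) := by
    exact_mod_cast h9
  linarith

theorem A_le_h (n : ℕ) : Q.A n ≤ Q.h n := by
  unfold A a h
  have h3 : (0 : ℝ) ≤ finrank K (Q.N Shp.e (lin n)) := Nat.cast_nonneg _
  linarith

theorem A_le (n : ℕ) : Q.A n ≤ (Fintype.card α : ℝ) ^ n := by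
  have h1 : finrank K (Q.P Shp.e (lin n)) ≤
      finrank K (Matrix (L n → α) (Empty → α) K) := Submodule.finrank_le _
  rw [Module.finrank_matrix, Module.finrank_self, Fintype.card_fun, Fintype.card_fun,
    card_L, Fintype.card_empty, pow_zero, mul_one, mul_one] at h1
  have h2 : (finrank K (Q.P Shp.e (lin n)) : ℝ) ≤ (Fintype.card α : ℝ) ^ n := by
    exact_mod_cast h1
  exact (Q.A_le_h n).trans h2

/-- `A 0 ≥ 1`: the identity of the unit object is not numerically trivial -/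
theorem one_le_A_zero : 1 ≤ Q.A 0 := by
  have h1 : (1 : Matrix (Empty → α) (Empty → α) K) ∉ Q.N Shp.e Shp.e := by
    intro h
    have h2 := Q.str_N h
    rw [dg_empty, Matrix.mul_one, Matrix.trace_one, Fintype.card_fun, Fintype.card_empty,
      pow_zero, Nat.cast_one] at h2
    exact one_ne_zero h2
  have h2 : Q.N Shp.e Shp.e < Q.P Shp.e Shp.e :=
    lt_of_le_of_ne (Q.N_le _ _) fun h => h1 (by rw [h]; exact Q.one_mem _)
  have h3 := Submodule.finrank_lt_finrank_of_lt h2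
  have h4 : ((finrank K (Q.N Shp.e Shp.e) + 1 : ℕ) : ℝ) ≤ finrank K (Q.P Shp.e Shp.e) := by
    exact_mod_cast h3
  push_cast at h4
  have h5 : Q.A 0 = (finrank K (Q.P Shp.e Shp.e) : ℝ) - finrank K (Q.N Shp.e Shp.e) := rfl
  rw [h5]
  linarith

theorem one_le_A {u : Matrix (Unit → α) (Empty → α) K} {v : Matrix (Empty → α) (Unit → α) K}
    (hu : u ∈ Q.P Shp.e Shp.o) (hv : v ∈ Q.P Shp.o Shp.e) (hvu : v * u = 1) (n : ℕ) :
    1 ≤ Q.A n := by
  induction n with
  | zero => exact Q.one_le_A_zero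
  | succ n ih => exact ih.trans (Q.A_mono hu hv hvu n)

/-- The zero-one law. -/
theorem zero_one (hQ : Q.HasPerm) {u : Matrix (Unit → α) (Empty → α) K}
    {v : Matrix (Empty → α) (Unit → α) K} (hu : u ∈ Q.P Shp.e Shp.o) (hv : v ∈ Q.P Shp.o Shp.e)
    (hvu : v * u = 1) {D : Type} [Fintype D] [DecidableEq D] {d : Shp D}
    {z : Matrix (D → α) (Empty → α) K} (hz : z ∈ Q.N Shp.e d) (hz0 : z ≠ 0) :
    ∃ c : ℝ, 0 < c ∧ ∀ n : ℕ, 1 ≤ n → c * Real.log (n + 1) * Q.A n ≤ Q.h n := by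
  have hu0 : u ≠ 0 := by
    rintro rfl
    rw [Matrix.mul_zero] at hvu
    have h1 := congrFun (congrFun hvu (fun e => e.elim)) (fun e => e.elim)
    rw [Matrix.one_apply_eq] at h1
    exact zero_ne_one h1
  have hb : 1 ≤ Fintype.card α := Fintype.card_pos
  by_cases hnil : ∀ M, Q.NilBelow M
  · refine final_log Q.A Q.h (Fintype.card α) (Fintype.card D) hb (Q.one_le_A hu hv hvu)
      (Q.A_mono hu hv hvu) (Q.h_mono hu hu0) Q.A_le_h Q.A_le ?_ (lowA Q hQ hnil) ?_
    · intro m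
      have h1 := Q.cs_a (lin m) (lin (m + 2))
      rw [Q.a_eq_A, Q.a_eq_A, Q.a_eq_A, card_L, card_L] at h1
      have e1 : m + (m + 2) = 2 * (m + 1) := by ring
      have e2 : m + m = 2 * m := by ring
      have e3 : m + 2 + (m + 2) = 2 * (m + 2) := by ring
      rw [e1, e2, e3] at h1
      exact h1
    · intro m J
      have hzz : mainT (S := D) z z ∈ Q.N Shp.e (d.p d) := by
        have h1 : kr z (1 : Matrix (D → α) (D → α) K) *
            kr (1 : Matrix (Empty → α) (Empty → α) K) z = kr z z := by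
          rw [kr_mul, Matrix.mul_one, Matrix.one_mul]
        rw [mainT_apply, ← h1]
        exact Q.N_mul_right (Q.N_mul_left (Q.kr_mem hz.1 (Q.one_mem d)) (Q.one_kr_mem_N hz))
          (Q.lunit_symm_mem Shp.e)
      have h2 := Q.chain_h hzz (mainT_ne_zero hz0 hz0) (hnil (J * Fintype.card (D ⊕ D) + 1)) m J
        (lt_of_lt_of_le one_pos (Q.one_le_A hu hv hvu (2 * m)))
        (fun j hj => Nat.lt_succ_of_le (Nat.mul_le_mul_right _ hj.le))
      rw [Fintype.card_sum, ← two_mul] at h2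
      exact h2
  · push Not at hnil
    obtain ⟨M, hM⟩ := hnil
    unfold NilBelow at hM
    push Not at hM
    obtain ⟨S, _, _, s, hs, x, hx, hxn⟩ := hM
    have h1 : ∀ l : ℕ, Q.A (2 * (l * Fintype.card S)) ≤
        (((Fintype.card α : ℝ) ^ (Fintype.card S) - 1) ^ l) ^ 2 :=
      (Q.nil_or_bound s).resolve_left fun h => hxn (h x hx)
    have hk : 1 ≤ Fintype.card S := by
      by_contra hk
      have hk0 : Fintype.card S = 0 := by omega
      have h2 := h1 1
      rw [hk0] at h2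
      norm_num at h2
      have h3 := Q.one_le_A_zero
      linarith
    exact final_exp Q.A Q.h (Fintype.card α) (Fintype.card S) hb hk (Q.one_le_A hu hv hvu)
      (Q.A_mono hu hv hvu) (Q.h_mono hu hu0) Q.A_le_h (low Q hQ) h1

end SSys

end ZS
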