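import Pool.Agent.W_f569db_zs.BrC
import Pool.Agent.W_f569db_zs.BrD
import Pool.Agent.W_f569db_zs.RatS
import Pool.Agent.W_f569db_zs.Main

set_option autoImplicit false

/-!
# Bridge E: the system of a variety, its dimensions
-/

noncomputable section

namespace ZS

open AlgebraicGeometry CategoryTheory MonoidalCategory ZO Matrix
open scoped TensorProduct DirectSum
open Pool.Agent.WeilH_h6 Pool.Agent.WeilH_h6.VarClass Pool.Agent.WeilH_h6.Weil

universe u v w

variable {k : Type u} [Field k] {𝒱 : VarClass k} {K : Type v} [Field K] [CharZero K]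
  (W : Weil.{u, v, w} 𝒱 K) {X : 𝒱.Obj} {α : Type} [Fintype α] [DecidableEq α]
  (bs : Module.Basis α K (W.H X)) (π : α → ℕ)
  (hπ : ∀ a, W.par X (bs a) = ((-1 : K) ^ π a) • bs a)

/-- the system of a variety -/
def sysS : SSys α K where
  P := fun s s' => PS W bs s s'
  ε := eps K π
  ε_sq := eps_sq π
  G := fun s => GS W bs s
  G' := fun s => GI W bs s
  sw := fun s t => swS W bs s t
  gg' := fun s => mul_GI W bs s
  g'g := fun s => GI_mul W bs s
  g_even := fun s => GS_even W bs π hπ s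
  g_symm := fun s => GS_symm W bs π hπ s
  even := fun hA => even_PS W bs π hπ hA
  one_mem := fun s => one_mem_PS W bs s
  mul_mem := fun hA hB => mul_mem_PS W bs hA hB
  kr_mem := fun hA hB => kr_mem_PS W bs hA hB
  assoc_mem := fun s t u => assoc_mem_PS W bs s t u
  assoc_symm_mem := fun s t u => assoc_symm_mem_PS W bs s t u
  lunit_mem := fun s => lunit_mem_PS W bs s
  lunit_symm_mem := fun s => lunit_symm_mem_PS W bs s
  runit_mem := fun s => runit_mem_PS W bs s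
  runit_symm_mem := fun s => runit_symm_mem_PS W bs s
  sw_mem := fun s t => swS_mem W bs s t
  sw_sw := fun s t => swS_swS W bs s t
  sw_kr := fun hA hB => swS_kr W bs hA hB
  cap_mem := fun s => cap_mem_PS W bs s
  cup_mem := fun s => cup_mem_PS W bs s

theorem sysS_P {S S' : Type} (s : Shp S) (s' : Shp S') :
    (sysS W bs π hπ).P s s' = PS W bs s s' := rfl

theorem sysS_hasPerm : (sysS W bs π hπ).HasPerm := by
  intro m
  have key : ∀ (σ : Equiv.Perm (L m)) (c d : L m → α), ∃ ε : K, ε ≠ 0 ∧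
      rhoM W bs m σ c d = ε * (if d ∘ σ.symm = c then 1 else 0) := by
    intro σ c d
    obtain ⟨ε, hε, h⟩ := pull_pmM W bs π hπ σ d
    refine ⟨ε, hε, ?_⟩
    change (bS W bs (lin m)).repr (W.pull (pmM X σ) (bS W bs (lin m) d)) c = _
    rw [h, map_smul, Module.Basis.repr_self, Finsupp.smul_apply, Finsupp.single_apply, smul_eq_mul]
  refine ⟨rhoM W bs m, fun σ c => rhoM W bs m σ c (c ∘ σ), fun σ => ?_, fun σ c => ?_,
    fun _ _ => rfl, fun σ c d hcd => ?_⟩
  · exact mt_mem_PS W bs (W.pull_mem_algHom _)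
  · obtain ⟨ε, hε, h⟩ := key σ c (c ∘ σ)
    have h1 : (c ∘ σ) ∘ σ.symm = c := by
      funext i
      simp
    change rhoM W bs m σ c (c ∘ σ) ≠ 0
    rw [h, if_pos h1, mul_one]
    exact hε
  · obtain ⟨ε, hε, h⟩ := key σ c d
    rw [h, if_neg, mul_zero]
    intro h1
    apply hcd
    rw [← h1]
    funext i
    simp

section dims

variable {S : Type} (s : Shp S)

/-- the linear map `H(pt) → H(Y)` which maps `1` to `a` -/
def vec (Y : 𝒱.Obj) : W.H Y →ₗ[K] (W.H (Obj.pt : 𝒱.Obj) →ₗ[K] W.H Y) where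
  toFun a := (W.tr Obj.pt).smulRight a
  map_add' a b := by
    refine LinearMap.ext fun x => ?_
    simp [LinearMap.smulRight_apply, smul_add]
  map_smul' c a := by
    refine LinearMap.ext fun x => ?_
    change W.tr Obj.pt x • (c • a) = c • (W.tr Obj.pt x • a)
    rw [smul_smul, smul_smul, mul_comm]

theorem vec_one {Y : 𝒱.Obj} (a : W.H Y) : vec W Y a 1 = a := by
  change W.tr Obj.pt 1 • a = a
  rw [W.tr_pt_one, one_smul]

theorem vec_injective (Y : 𝒱.Obj) : Function.Injective (vec W Y) := by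
  intro a b h
  rw [← vec_one W a, ← vec_one W b, h]

theorem eq_vec {Y : 𝒱.Obj} (φ : W.H (Obj.pt : 𝒱.Obj) →ₗ[K] W.H Y) : φ = vec W Y (φ 1) := by
  refine LinearMap.ext fun x => ?_
  change φ x = W.tr Obj.pt x • φ 1
  conv_lhs => rw [W.eq_smul_one x]
  rw [map_smul]

theorem vec_mem {Y : 𝒱.Obj} {a : W.H Y} : vec W Y a ∈ W.algHom Obj.pt Y ↔ a ∈ W.algSpan Y := by
  constructor
  · intro h
    rw [← vec_one W a]
    exact W.algHom_apply_mem h (W.one_mem_algSpan _)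
  · intro h
    have h1 : vec W Y a = LinearMap.mulLeft K a ∘ₗ (W.pull Y.toPt).toLinearMap := by
      rw [eq_vec W (LinearMap.mulLeft K a ∘ₗ (W.pull Y.toPt).toLinearMap)]
      congr 1
      change a = a * W.pull Y.toPt 1
      rw [map_one, mul_one]
    rw [h1]
    exact W.comp_mem_algHom (W.pull_mem_algHom _) (W.mulLeft_mem_algHom h)

/-- the linear map `H(pt) → H(X^s)` which maps `1` to `a` -/
def vecS : W.H (ob X s) →ₗ[K] (W.H (ob X Shp.e) →ₗ[K] W.H (ob X s)) := vec W (ob X s)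

/-- the vector of a class on `X^s` -/
def vM : W.H (ob X s) →ₗ[K] Matrix (S → α) (Empty → α) K :=
  mt W bs Shp.e s ∘ₗ vecS W s

theorem vM_apply (a : W.H (ob X s)) : vM W bs s a = mt W bs Shp.e s (vecS W s a) := rfl

theorem vM_injective : Function.Injective (vM W bs s) :=
  (mt_injective W bs Shp.e s).comp (vec_injective W _)

theorem map_vM : (W.algSpan (ob X s)).map (vM W bs s) = PS W bs Shp.e s := by
  ext A
  constructor
  · rintro ⟨a, ha, rfl⟩
    exact mt_mem_PS W bs ((vec_mem W).2 ha)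
  · rintro ⟨φ, hφ, rfl⟩
    have h1 : φ = vec W (ob X s) (φ (1 : W.H (Obj.pt : 𝒱.Obj))) := eq_vec W φ
    refine ⟨φ (1 : W.H (Obj.pt : 𝒱.Obj)), ?_, ?_⟩
    · refine (vec_mem W).1 ?_
      rw [← h1]
      exact hφ
    · change mt W bs Shp.e s (vec W (ob X s) (φ (1 : W.H (Obj.pt : 𝒱.Obj)))) = _
      rw [← h1]

/-- every algebraic functional is of the form `Tr (b ·)` -/
theorem functional_eq {Y : 𝒱.Obj} {φ : W.H Y →ₗ[K] W.H (Obj.pt : 𝒱.Obj)}
    (hφ : φ ∈ W.algHom Y Obj.pt) : ∃ b ∈ W.algSpan Y, ∀ x,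
      φ x = W.tr Y (b * x) • (1 : W.H (Obj.pt : 𝒱.Obj)) := by
  obtain ⟨β, hβ, h⟩ := W.mem_algHom_iff.1 hφ
  obtain ⟨b, hb, h1⟩ := W.push_algSpan (Obj.fst Y Obj.pt) hβ
  refine ⟨b, hb, fun x => ?_⟩
  rw [W.eq_smul_one (φ x)]
  congr 1
  have h2 := h x 1
  rw [mul_one, map_one, mul_one] at h2
  rw [h2, h1]

theorem exists_functional {Y : 𝒱.Obj} {b : W.H Y} (hb : b ∈ W.algSpan Y) :
    ∃ φ ∈ W.algHom Y Obj.pt, ∀ x, φ x = W.tr Y (b * x) • (1 : W.H (Obj.pt : 𝒱.Obj)) := by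
  obtain ⟨φ, hφ, h⟩ := exists_trL W Y
  refine ⟨φ ∘ₗ LinearMap.mulLeft K b, W.comp_mem_algHom (W.mulLeft_mem_algHom hb) hφ, fun x => ?_⟩
  exact h _

variable [Fintype S] [DecidableEq S]

theorem trace_mt (φ : W.H (ob X Shp.e) →ₗ[K] W.H (ob X Shp.e)) (t : K)
    (h : φ (1 : W.H (Obj.pt : 𝒱.Obj)) = t • (1 : W.H (Obj.pt : 𝒱.Obj))) :
    Matrix.trace (mt W bs Shp.e Shp.e φ) = t := by
  rw [Matrix.trace, Fintype.sum_unique]
  change mt W bs Shp.e Shp.e φ default default = t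
  rw [mt_apply]
  have h1 : φ (bS W bs Shp.e default) = t • bS W bs Shp.e default := by
    rw [bS_e]
    exact h
  rw [h1, map_smul, Module.Basis.repr_self, Finsupp.smul_apply, Finsupp.single_eq_same, smul_eq_mul,
    mul_one]

include hπ in
/-- the numerical pairing -/
theorem trace_vM (a : W.H (ob X s)) (ha : a ∈ W.algSpan (ob X s))
    (φ : W.H (ob X s) →ₗ[K] W.H (ob X Shp.e)) (b : W.H (ob X s))
    (hφ : ∀ x, φ x = W.tr (ob X s) (b * x) • (1 : W.H (Obj.pt : 𝒱.Obj))) :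
    Matrix.trace (dg (eps K π) S * (vM W bs s a * mt W bs s Shp.e φ)) =
      W.tr (ob X s) (b * a) := by
  rw [← Matrix.mul_assoc, Matrix.trace_mul_comm, ← Matrix.mul_assoc, Matrix.mul_assoc,
    ← mt_par W bs π s hπ, vM_apply, ← mt_comp, ← mt_comp]
  refine trace_mt W bs _ _ ?_
  have h1 : vecS W s a (1 : W.H (Obj.pt : 𝒱.Obj)) = a := vec_one W a
  change φ (W.par (ob X s) (vecS W s a (1 : W.H (Obj.pt : 𝒱.Obj)))) = _
  rw [h1, W.par_algSpan ha, hφ]

theorem map_vM_N : (ntSub W (ob X s)).map (vM W bs s) = (sysS W bs π hπ).N Shp.e s := by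
  ext A
  constructor
  · rintro ⟨a, ha, rfl⟩
    have ha' : W.NT a := ha
    refine ⟨?_, ?_⟩
    · rw [sysS_P, ← map_vM]
      exact Submodule.mem_map_of_mem ha'.1
    · rintro B ⟨φ, hφ, rfl⟩
      obtain ⟨b, hb, h⟩ := functional_eq W (Y := ob X s) hφ
      refine (trace_vM W bs π hπ s a ha'.1 φ b h).trans ?_
      rw [W.central hb]
      exact ha'.2 b hb
  · rintro ⟨hA, hA'⟩
    rw [sysS_P, ← map_vM] at hA
    obtain ⟨a, ha, rfl⟩ := hA
    refine ⟨a, ⟨ha, fun b hb => ?_⟩, rfl⟩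
    obtain ⟨φ, hφ, h⟩ := exists_functional W hb
    have h1 := hA' (mt W bs s Shp.e φ) (mt_mem_PS W bs hφ)
    rw [← W.central hb]
    exact (trace_vM W bs π hπ s a ha φ b h).symm.trans h1

theorem finrank_PS_e : Module.finrank K ((sysS W bs π hπ).P Shp.e s) =
    Module.finrank K (W.algSpan (ob X s)) := by
  rw [sysS_P, ← map_vM]
  exact (LinearEquiv.finrank_eq (Submodule.equivMapOfInjective _ (vM_injective W bs s) _)).symm

theorem finrank_N_e : Module.finrank K ((sysS W bs π hπ).N Shp.e s) =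
    Module.finrank K (ntSub W (ob X s)) := by
  rw [← map_vM_N]
  exact (LinearEquiv.finrank_eq (Submodule.equivMapOfInjective _ (vM_injective W bs s) _)).symm

end dims

theorem h_sysS (n : ℕ) : (sysS W bs π hπ).h n = Module.finrank K (W.algSpan (X.pow n)) := by
  unfold SSys.h
  rw [finrank_PS_e, ob_lin]

theorem A_sysS (n : ℕ) : (sysS W bs π hπ).A n =
    (Module.finrank K (W.algSpan (X.pow n)) : ℝ) - Module.finrank K (ntSub W (X.pow n)) := by
  unfold SSys.A SSys.a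
  rw [finrank_PS_e, finrank_N_e, ob_lin]

/-- the unit class and the class of a point -/
theorem exists_uv : ∃ (u : Matrix (Unit → α) (Empty → α) K) (v : Matrix (Empty → α) (Unit → α) K),
    u ∈ (sysS W bs π hπ).P Shp.e Shp.o ∧ v ∈ (sysS W bs π hπ).P Shp.o Shp.e ∧ v * u = 1 := by
  obtain ⟨p, hp, hp1⟩ := exists_tr_one_alg W X
  obtain ⟨φ, hφ, h⟩ : ∃ φ : W.H (ob X Shp.o) →ₗ[K] W.H (ob X Shp.e),
      φ ∈ W.algHom (ob X Shp.o) (ob X Shp.e) ∧ ∀ x : W.H X,
        φ x = W.tr X (p * x) • (1 : W.H (Obj.pt : 𝒱.Obj)) := exists_functional W hp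
  obtain ⟨ψ, hψ, h'⟩ : ∃ ψ : W.H (ob X Shp.e) →ₗ[K] W.H (ob X Shp.o),
      ψ ∈ W.algHom (ob X Shp.e) (ob X Shp.o) ∧ ∀ x : W.H (Obj.pt : 𝒱.Obj),
        ψ x = W.tr Obj.pt x • (1 : W.H X) :=
    ⟨vec W X 1, (vec_mem W).2 (W.one_mem_algSpan X), fun x => rfl⟩
  refine ⟨mt W bs Shp.e Shp.o ψ, mt W bs Shp.o Shp.e φ, mt_mem_PS W bs hψ, mt_mem_PS W bs hφ, ?_⟩
  rw [← mt_comp, ← mt_id W bs Shp.e]
  congr 1
  refine LinearMap.ext fun x => ?_
  have h1 : φ (ψ x) = W.tr X (p * (W.tr Obj.pt x • (1 : W.H X))) • (1 : W.H (Obj.pt : 𝒱.Obj)) := by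
    rw [← h' x]
    exact h _
  refine h1.trans ?_
  rw [mul_smul_comm, mul_one, map_smul, hp1, smul_eq_mul, mul_one]
  exact (W.eq_smul_one x).symm

end ZS
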