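import Pool.Agent.W_f569db_zs.Defs

set_option autoImplicit false

/-!
# The semisimple quotient of an algebra by its twisted trace radical
-/

noncomputable section

namespace ZS

open Matrix Module ZO

universe u v

variable {ι : Type u} [Fintype ι] [DecidableEq ι] {K : Type v} [Field K] {E : Matrix ι ι K}
  {D : Subalgebra K (Matrix ι ι K)}

/-- the twisted trace of a nilpotent matrix commuting with `E` is zero -/
theorem trace_comm_nil {A : Matrix ι ι K} (hE : E * A = A * E) (hA : IsNilpotent A) :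
    Matrix.trace (E * A) = 0 := by
  obtain ⟨n, hn⟩ := hA
  have h1 : IsNilpotent (E * A) := ⟨n, by
    rw [(show Commute E A from hE).mul_pow, hn, Matrix.mul_zero]⟩
  exact (Matrix.isNilpotent_trace_of_isNilpotent h1).eq_zero

theorem radE_mul_left (hE : ∀ A ∈ D, E * A = A * E) {A B : Matrix ι ι K} (hA : A ∈ D)
    (hB : B ∈ radE E D) : A * B ∈ radE E D := by
  refine mem_radE.2 ⟨D.mul_mem hA (mem_radE.1 hB).1, fun C hC => ?_⟩
  have h1 : E * (A * B * C) = A * (E * (B * C)) := by
    rw [Matrix.mul_assoc A B C, ← Matrix.mul_assoc E A, hE A hA, Matrix.mul_assoc A E]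
  rw [h1, Matrix.trace_mul_comm, Matrix.mul_assoc, Matrix.mul_assoc]
  exact (mem_radE.1 hB).2 _ (D.mul_mem hC hA)

theorem radE_mul_right {A B : Matrix ι ι K} (hA : A ∈ radE E D)
    (hB : B ∈ D) : A * B ∈ radE E D := by
  refine mem_radE.2 ⟨D.mul_mem (mem_radE.1 hA).1 hB, fun C hC => ?_⟩
  rw [Matrix.mul_assoc A B C]
  exact (mem_radE.1 hA).2 _ (D.mul_mem hB hC)

theorem exists_quotE (hE : ∀ A ∈ D, E * A = A * E) :
    ∃ (R : Type (max u v)) (_ : Ring R) (_ : Algebra K R) (_ : Module.Finite K R)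
      (_ : IsSemisimpleRing R) (π : D →ₐ[K] R), Function.Surjective π ∧
        ∀ x : D, π x = 0 ↔ (x : Matrix ι ι K) ∈ radE E D := by
  let I : Ideal D :=
    { carrier := {x | (x : Matrix ι ι K) ∈ radE E D}
      add_mem' := fun {x y} hx hy => by
        simp only [Set.mem_ofPred_eq] at hx hy ⊢
        exact add_mem hx hy
      zero_mem' := by
        simp only [Set.mem_ofPred_eq]
        exact zero_mem _
      smul_mem' := fun c x hx => by
        simp only [Set.mem_ofPred_eq] at hx ⊢
        exact radE_mul_left hE c.2 hx }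
  have memI : ∀ x : D, x ∈ I ↔ (x : Matrix ι ι K) ∈ radE E D := fun x => Iff.rfl
  have hI : I.IsTwoSided := ⟨fun {a} b ha => radE_mul_right ha b.2⟩
  have hsurj : Function.Surjective (Ideal.Quotient.mkₐ K I) := Ideal.Quotient.mkₐ_surjective K I
  have hfin : Module.Finite K (D ⧸ I) :=
    Module.Finite.of_surjective (Ideal.Quotient.mkₐ K I).toLinearMap hsurj
  have hart : IsArtinianRing D := IsArtinianRing.of_finite K D
  obtain ⟨n, hn⟩ := IsSemiprimaryRing.isNilpotent (R := D)
  have hJ : Ring.jacobson D ≤ I := by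
    intro x hx
    rw [memI]
    refine mem_radE.2 ⟨x.2, fun B hB => ?_⟩
    have h1 : (⟨B, hB⟩ * x : D) ∈ Ring.jacobson D := Ideal.mul_mem_left _ _ hx
    have h2 : ((⟨B, hB⟩ * x : D)) ^ n = 0 := by
      have := Ideal.pow_mem_pow h1 n
      rw [hn] at this
      exact this
    have h3 : IsNilpotent (B * (x : Matrix ι ι K)) := ⟨n, congrArg Subtype.val h2⟩
    have h4 : E * (B * (x : Matrix ι ι K)) = (B * (x : Matrix ι ι K)) * E :=
      hE _ (D.mul_mem hB x.2)
    have h5 := trace_comm_nil h4 h3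
    rw [← Matrix.mul_assoc, hE B hB, Matrix.mul_assoc, Matrix.trace_mul_comm, Matrix.mul_assoc] at h5
    exact h5
  have hss : IsSemisimpleRing (D ⧸ I) := by
    haveI : IsSemisimpleRing (D ⧸ Ring.jacobson D) := inferInstance
    exact RingHom.isSemisimpleRing_of_surjective (Ideal.Quotient.factor hJ)
      (Ideal.Quotient.factor_surjective hJ)
  refine ⟨D ⧸ I, inferInstance, inferInstance, hfin, hss, Ideal.Quotient.mkₐ K I, hsurj,
    fun x => ?_⟩
  rw [← memI x]
  exact Ideal.Quotient.eq_zero_iff_mem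

end ZS
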