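import Pool.Agent.W_f569db_zo.Wed
import Pool.Agent.W_f569db_zs.Nil

set_option autoImplicit false

/-!
# Cauchy-Schwarz and idempotent generators for the twisted trace radical
-/

noncomputable section

namespace ZS

open Matrix Module ZO

variable {ι : Type*} [Fintype ι] [DecidableEq ι] {K : Type*} [Field K] {E : Matrix ι ι K}

/-- the rank of the trace pairing on `f D e` is the dimension of a Peirce block of `D / radE E D` -/
theorem cauchy_codE (D : Subalgebra K (Matrix ι ι K)) (hE : ∀ A ∈ D, E * A = A * E) {R : Type*} [Ring R] [Algebra K R]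
    (π : D →ₐ[K] R) (hπ : Function.Surjective π)
    (hk : ∀ x : D, π x = 0 ↔ (x : Matrix ι ι K) ∈ radE E D) {e f : Matrix ι ι K} (he : e ∈ D)
    (hf : f ∈ D) (he2 : e * e = e) (hf2 : f * f = f) :
    cod (sand f e) D.toSubmodule (radE E D) =
      finrank K (LinearMap.range (sandR K (π ⟨f, hf⟩) (π ⟨e, he⟩))) := by
  set W := D.toSubmodule.map (sand f e) with hW
  have hWD : ∀ w ∈ W, w ∈ D := by
    rintro w ⟨x, hx, rfl⟩
    exact D.mul_mem (D.mul_mem hf hx) he
  let ψ : W →ₗ[K] R :=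
    { toFun := fun w => π ⟨w.1, hWD w.1 w.2⟩
      map_add' := fun a b => by
        rw [← map_add]
        rfl
      map_smul' := fun c a => by
        rw [RingHom.id_apply, ← map_smul]
        rfl }
  have hψ : ∀ w : W, ψ w = π ⟨w.1, hWD w.1 w.2⟩ := fun _ => rfl
  have hr : LinearMap.range ψ = LinearMap.range (sandR K (π ⟨f, hf⟩) (π ⟨e, he⟩)) := by
    apply le_antisymm
    · rintro _ ⟨⟨w, x, hx, rfl⟩, rfl⟩
      refine ⟨π ⟨x, hx⟩, ?_⟩
      rw [hψ, sandR_apply, ← map_mul, ← map_mul]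
      congr 1
      apply Subtype.ext
      change f * (x * e) = f * x * e
      rw [Matrix.mul_assoc]
    · rintro _ ⟨y, rfl⟩
      obtain ⟨x, rfl⟩ := hπ y
      refine ⟨⟨f * x.1 * e, x.1, x.2, rfl⟩, ?_⟩
      rw [hψ, sandR_apply, ← map_mul, ← map_mul]
      congr 1
      apply Subtype.ext
      change f * x.1 * e = f * (x.1 * e)
      rw [Matrix.mul_assoc]
  have hke : (LinearMap.ker ψ).map W.subtype = (radE E D).map (sand f e) := by
    apply le_antisymm
    · rintro _ ⟨⟨w, x, hx, rfl⟩, hw, rfl⟩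
      have h1 : (sand f e) x ∈ radE E D := (hk _).1 hw
      refine ⟨(sand f e) x, h1, ?_⟩
      change f * (f * x * e) * e = f * x * e
      calc f * (f * x * e) * e = (f * f) * x * (e * e) := by
            simp only [Matrix.mul_assoc]
        _ = f * x * e := by rw [he2, hf2]
    · rintro _ ⟨r, hr', rfl⟩
      have h1 : (sand f e) r ∈ radE E D := radE_mul_right (radE_mul_left hE hf hr') he
      refine ⟨⟨(sand f e) r, r, hr'.1, rfl⟩, ?_, rfl⟩
      exact (hk _).2 h1
  have h1 := LinearMap.finrank_range_add_finrank_ker ψ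
  have h2 : finrank K (LinearMap.ker ψ) = finrank K ((radE E D).map (sand f e)) := by
    rw [← hke]
    exact (LinearEquiv.finrank_eq (Submodule.equivMapOfInjective W.subtype
      W.injective_subtype (LinearMap.ker ψ)))
  rw [h2, hr] at h1
  unfold cod
  rw [← hW, ← h1]
  push_cast
  ring

theorem cs_radE (D : Subalgebra K (Matrix ι ι K)) (hE : ∀ A ∈ D, E * A = A * E) {e f : Matrix ι ι K} (he : e ∈ D) (hf : f ∈ D)
    (he2 : e * e = e) (hf2 : f * f = f) :
    (cod (sand f e) D.toSubmodule (radE E D)) ^ 2 ≤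
      cod (sand e e) D.toSubmodule (radE E D) * cod (sand f f) D.toSubmodule (radE E D) := by
  obtain ⟨R, _, _, _, _, π, hπ, hk⟩ := exists_quotE hE
  rw [cauchy_codE D hE π hπ hk he hf he2 hf2, cauchy_codE D hE π hπ hk he he he2 he2,
    cauchy_codE D hE π hπ hk hf hf hf2 hf2]
  have h1 : IsIdempotentElem (π ⟨e, he⟩) := by
    rw [IsIdempotentElem, ← map_mul]
    congr 1
    exact Subtype.ext he2
  have h2 : IsIdempotentElem (π ⟨f, hf⟩) := by
    rw [IsIdempotentElem, ← map_mul]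
    congr 1
    exact Subtype.ext hf2
  have h3 := wed K h1 h2
  exact_mod_cast h3

theorem left_idemE (D : Subalgebra K (Matrix ι ι K)) (hE : ∀ A ∈ D, E * A = A * E)
    (hnil : ∀ x ∈ radE E D, IsNilpotent x) (L : Submodule K (Matrix ι ι K))
    (hL : L ≤ D.toSubmodule) (hmul : ∀ x ∈ D, ∀ y ∈ L, x * y ∈ L) :
    ∃ q ∈ D, q * q = q ∧ (∀ x ∈ L, x - x * q ∈ radE E D) ∧ ∃ l ∈ L, q - l ∈ radE E D := by
  obtain ⟨R, _, _, _, _, π, hπ, hk⟩ := exists_quotE hE
  let J : Ideal R :=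
    { carrier := {y | ∃ l : D, (l : Matrix ι ι K) ∈ L ∧ π l = y}
      add_mem' := by
        rintro _ _ ⟨a, ha, rfl⟩ ⟨b, hb, rfl⟩
        exact ⟨a + b, L.add_mem ha hb, map_add π a b⟩
      zero_mem' := ⟨0, L.zero_mem, map_zero π⟩
      smul_mem' := by
        rintro c _ ⟨a, ha, rfl⟩
        obtain ⟨d, rfl⟩ := hπ c
        exact ⟨d * a, hmul d.1 d.2 a.1 ha, map_mul π d a⟩ }
  obtain ⟨e, he, hJ⟩ := IsSemisimpleRing.ideal_eq_span_idempotent J
  have heJ : e ∈ J := by
    rw [hJ]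
    exact Ideal.mem_span_singleton_self e
  obtain ⟨l, hl, hle⟩ := heJ
  obtain ⟨q, hq, hqe⟩ := exists_isIdempotentElem_eq_of_ker_isNilpotent
    (π : D →+* R) (fun x hx => by
      obtain ⟨n, hn⟩ := hnil _ ((hk x).1 hx)
      exact ⟨n, Subtype.ext (by rw [SubmonoidClass.coe_pow, hn]; rfl)⟩) e ⟨l, hle⟩ he
  have hqe' : π q = e := hqe
  refine ⟨q.1, q.2, congrArg Subtype.val hq, ?_, l.1, hl, ?_⟩
  · intro x hx
    have hxJ : π ⟨x, hL hx⟩ ∈ J := ⟨⟨x, hL hx⟩, hx, rfl⟩
    rw [hJ, Ideal.mem_span_singleton'] at hxJ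
    obtain ⟨c, hc⟩ := hxJ
    have h1 : π (⟨x, hL hx⟩ - ⟨x, hL hx⟩ * q) = 0 := by
      rw [map_sub, map_mul, hqe', ← hc, mul_assoc, he.eq, sub_self]
    exact (hk _).1 h1
  · have h1 : π (q - l) = 0 := by
      rw [map_sub, hqe', hle, sub_self]
    exact (hk _).1 h1

end ZS
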