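import Pool.Agent.W_f569db_zs.Nil
import Pool.Agent.W_f569db_zo.BendA

set_option autoImplicit false

/-!
# The ideal `N`, planar isomorphisms
-/

noncomputable section

namespace ZS

open Matrix Module ZO

/-- The shapes `s` and `t` are isomorphic by a planar isomorphism. -/
def SSys.Pl {α : Type} [Fintype α] [DecidableEq α] {K : Type*} [Field K] (Q : SSys α K)
    {S T : Type} (s : Shp S) (t : Shp T) : Prop :=
  ∃ e : S ≃ T, pm α K e ∈ Q.P s t ∧ pm α K e.symm ∈ Q.P t s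

/-- The letters of a shape form a finite type. -/
def Shp.fintype : {S : Type} → Shp S → Fintype S
  | _, .e => inferInstance
  | _, .o => inferInstance
  | _, .p s t => @instFintypeSum _ _ s.fintype t.fintype

theorem card_L (n : ℕ) : Fintype.card (L n) = n := by
  induction n with
  | zero => rfl
  | succ n ih =>
    have h : Fintype.card (L (n + 1)) = Fintype.card (L n) + Fintype.card Unit :=
      Fintype.card_sum
    rw [h, ih, Fintype.card_unit]

set_option linter.unusedSectionVars false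

variable {α : Type} [Fintype α] [DecidableEq α] {K : Type*} [Field K]
  {S S' S'' T T' T'' : Type} [Fintype S] [DecidableEq S] [Fintype S'] [DecidableEq S']
  [Fintype S''] [DecidableEq S''] [Fintype T] [DecidableEq T] [Fintype T'] [DecidableEq T']
  [Fintype T''] [DecidableEq T'']

theorem dg_kr (ε : α → K) : kr (dg ε S) (dg ε T) = dg ε (S ⊕ T) := by
  ext c d
  change dg ε S (c ∘ Sum.inl) (d ∘ Sum.inl) * dg ε T (c ∘ Sum.inr) (d ∘ Sum.inr) = _
  unfold dg
  by_cases h : c = d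
  · subst h
    rw [Matrix.diagonal_apply_eq, Matrix.diagonal_apply_eq, Matrix.diagonal_apply_eq,
      Fintype.prod_sum_type]
    rfl
  · rw [Matrix.diagonal_apply_ne _ h]
    by_cases h1 : c ∘ Sum.inl = d ∘ Sum.inl
    · have h2 : c ∘ Sum.inr ≠ d ∘ Sum.inr := by
        intro h2
        apply h
        funext x
        rcases x with x | x
        · exact congrFun h1 x
        · exact congrFun h2 x
      rw [Matrix.diagonal_apply_ne _ h2, mul_zero]
    · rw [Matrix.diagonal_apply_ne _ h1, zero_mul]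

theorem dg_empty (ε : α → K) : dg ε Empty = 1 := by
  ext c d
  rw [Subsingleton.elim c d]
  unfold dg
  rw [Matrix.diagonal_apply_eq, Matrix.one_apply_eq, Fintype.prod_empty]

theorem dg_sq {ε : α → K} (h : ∀ a, ε a * ε a = 1) : dg ε S * dg ε S = 1 := by
  unfold dg
  rw [Matrix.diagonal_mul_diagonal, ← Matrix.diagonal_one]
  congr 1
  funext c
  rw [← Finset.prod_mul_distrib]
  exact Finset.prod_eq_one fun s _ => h (c s)

namespace SSys

variable (Q : SSys α K) {s : Shp S} {s' : Shp S'} {s'' : Shp S''} {t : Shp T} {t' : Shp T'}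
  {t'' : Shp T''}

/-- `N` is an ideal -/
theorem N_mul_left {A : Matrix (S'' → α) (S' → α) K} {B : Matrix (S' → α) (S → α) K}
    (hA : A ∈ Q.P s' s'') (hB : B ∈ Q.N s s') : A * B ∈ Q.N s s'' := by
  refine ⟨Q.mul_mem hA hB.1, fun C hC => ?_⟩
  have h1 : dg Q.ε S'' * (A * B * C) = A * (dg Q.ε S' * (B * C)) := by
    rw [Matrix.mul_assoc A B C, ← Matrix.mul_assoc _ A, Q.even hA, Matrix.mul_assoc A]
  rw [h1, Matrix.trace_mul_comm, Matrix.mul_assoc, Matrix.mul_assoc]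
  exact hB.2 (C * A) (Q.mul_mem hC hA)

theorem N_mul_right {A : Matrix (S'' → α) (S' → α) K} {B : Matrix (S' → α) (S → α) K}
    (hA : A ∈ Q.N s' s'') (hB : B ∈ Q.P s s') : A * B ∈ Q.N s s'' := by
  refine ⟨Q.mul_mem hA.1 hB, fun C hC => ?_⟩
  rw [Matrix.mul_assoc A B C]
  exact hA.2 (B * C) (Q.mul_mem hB hC)

/-- the supertrace of `A B` and of `B A` -/
theorem str_comm {A : Matrix (S' → α) (S → α) K} {B : Matrix (S → α) (S' → α) K}
    (hA : A ∈ Q.P s s') :
    Matrix.trace (dg Q.ε S' * (A * B)) = Matrix.trace (dg Q.ε S * (B * A)) := by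
  rw [← Matrix.mul_assoc, Q.even hA, Matrix.mul_assoc, Matrix.trace_mul_comm, Matrix.mul_assoc]

/-- `N` in terms of the products on the other side -/
theorem mem_N' {A : Matrix (S' → α) (S → α) K} :
    A ∈ Q.N s s' ↔ A ∈ Q.P s s' ∧ ∀ B ∈ Q.P s' s, Matrix.trace (dg Q.ε S * (B * A)) = 0 := by
  constructor
  · rintro ⟨h1, h2⟩
    refine ⟨h1, fun B hB => ?_⟩
    rw [← Q.str_comm h1]
    exact h2 B hB
  · rintro ⟨h1, h2⟩
    refine ⟨h1, fun B hB => ?_⟩
    rw [Q.str_comm h1]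
    exact h2 B hB

/-- the supertrace of a numerically trivial endomorphism vanishes -/
theorem str_N {A : Matrix (S → α) (S → α) K} (hA : A ∈ Q.N s s) :
    Matrix.trace (dg Q.ε S * A) = 0 := by
  have h := hA.2 1 (Q.one_mem s)
  rwa [Matrix.mul_one] at h

theorem Pl_refl (s : Shp S) : Q.Pl s s :=
  ⟨Equiv.refl S, by rw [pm_refl]; exact Q.one_mem s, by
    rw [Equiv.refl_symm, pm_refl]; exact Q.one_mem s⟩

variable {Q} in
theorem Pl.symm (h : Q.Pl s t) : Q.Pl t s := by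
  obtain ⟨e, h1, h2⟩ := h
  exact ⟨e.symm, h2, by rwa [Equiv.symm_symm]⟩

variable {Q} in
theorem Pl.trans (h : Q.Pl s s') (h' : Q.Pl s' s'') : Q.Pl s s'' := by
  obtain ⟨e, h1, h2⟩ := h
  obtain ⟨f, h3, h4⟩ := h'
  refine ⟨e.trans f, ?_, ?_⟩
  · rw [← pm_mul]
    exact Q.mul_mem h3 h1
  · have h5 : (e.trans f).symm = f.symm.trans e.symm := rfl
    rw [h5, ← pm_mul]
    exact Q.mul_mem h2 h4

theorem Pm_kr (e : S ≃ S') (f : T ≃ T') :
    kr (pm α K e) (pm α K f) = pm α K (Equiv.sumCongr e f) := by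
  ext c d
  change pm α K e (c ∘ Sum.inl) (d ∘ Sum.inl) * pm α K f (c ∘ Sum.inr) (d ∘ Sum.inr) = _
  rw [Pm_apply, Pm_apply, Pm_apply]
  have h : c ∘ (Equiv.sumCongr e f) = d ↔
      ((c ∘ Sum.inl) ∘ e = d ∘ Sum.inl ∧ (c ∘ Sum.inr) ∘ f = d ∘ Sum.inr) := by
    constructor
    · intro h
      rw [← h]
      exact ⟨rfl, rfl⟩
    · rintro ⟨h1, h2⟩
      funext x
      rcases x with x | x
      · exact congrFun h1 x
      · exact congrFun h2 x
  by_cases h1 : (c ∘ Sum.inl) ∘ e = d ∘ Sum.inl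
  · by_cases h2 : (c ∘ Sum.inr) ∘ f = d ∘ Sum.inr
    · rw [if_pos h1, if_pos h2, if_pos (h.2 ⟨h1, h2⟩), mul_one]
    · rw [if_neg h2, if_neg (fun h3 => h2 (h.1 h3).2), mul_zero]
  · rw [if_neg h1, if_neg (fun h3 => h1 (h.1 h3).1), zero_mul]

variable {Q} in
theorem Pl.kr (h : Q.Pl s s') (h' : Q.Pl t t') : Q.Pl (s.p t) (s'.p t') := by
  obtain ⟨e, h1, h2⟩ := h
  obtain ⟨f, h3, h4⟩ := h'
  refine ⟨Equiv.sumCongr e f, ?_, ?_⟩
  · rw [← Pm_kr]
    exact Q.kr_mem h1 h3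
  · have h5 : (Equiv.sumCongr e f).symm = Equiv.sumCongr e.symm f.symm := rfl
    rw [h5, ← Pm_kr]
    exact Q.kr_mem h2 h4

/-- Transport along planar isomorphisms. -/
theorem a_congr (h : Q.Pl s t) (h' : Q.Pl s' t') : Q.a s s' = Q.a t t' := by
  obtain ⟨e, h1, h2⟩ := h
  obtain ⟨e', h3, h4⟩ := h'
  have hP : (Q.P s s').map (Sys.Pm_tr α K e e').toLinearMap = Q.P t t' := by
    refine le_antisymm ?_ ?_
    · rintro _ ⟨X, hX, rfl⟩
      exact Q.mul_mem (Q.mul_mem h3 hX) h2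
    · intro Y hY
      refine ⟨(Sys.Pm_tr α K e e').symm Y, ?_, (Sys.Pm_tr α K e e').apply_symm_apply Y⟩
      exact Q.mul_mem (Q.mul_mem h4 hY) h1
  have hN : (Q.N s s').map (Sys.Pm_tr α K e e').toLinearMap = Q.N t t' := by
    refine le_antisymm ?_ ?_
    · rintro _ ⟨X, hX, rfl⟩
      exact Q.N_mul_right (Q.N_mul_left h3 hX) h2
    · intro Y hY
      refine ⟨(Sys.Pm_tr α K e e').symm Y, ?_, (Sys.Pm_tr α K e e').apply_symm_apply Y⟩
      exact Q.N_mul_right (Q.N_mul_left h4 hY) h1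
  have h5 := LinearEquiv.finrank_map_eq (Sys.Pm_tr α K e e') (Q.P s s')
  have h6 := LinearEquiv.finrank_map_eq (Sys.Pm_tr α K e e') (Q.N s s')
  rw [hP] at h5
  rw [hN] at h6
  unfold a
  rw [h5, h6]

theorem finrank_P_congr (h : Q.Pl s t) (h' : Q.Pl s' t') :
    finrank K (Q.P s s') = finrank K (Q.P t t') := by
  obtain ⟨e, h1, h2⟩ := h
  obtain ⟨e', h3, h4⟩ := h'
  have hP : (Q.P s s').map (Sys.Pm_tr α K e e').toLinearMap = Q.P t t' := by
    refine le_antisymm ?_ ?_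
    · rintro _ ⟨X, hX, rfl⟩
      exact Q.mul_mem (Q.mul_mem h3 hX) h2
    · intro Y hY
      refine ⟨(Sys.Pm_tr α K e e').symm Y, ?_, (Sys.Pm_tr α K e e').apply_symm_apply Y⟩
      exact Q.mul_mem (Q.mul_mem h4 hY) h1
  have h5 := LinearEquiv.finrank_map_eq (Sys.Pm_tr α K e e') (Q.P s s')
  rw [hP] at h5
  exact h5.symm

theorem Pl_assoc (s : Shp S) (t : Shp T) (u : Shp S') :
    Q.Pl ((s.p t).p u) (s.p (t.p u)) :=
  ⟨Equiv.sumAssoc S T S', Q.assoc_mem s t u, Q.assoc_symm_mem s t u⟩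

theorem Pl_lunit (s : Shp S) : Q.Pl (Shp.e.p s) s :=
  ⟨Equiv.emptySum Empty S, Q.lunit_mem s, Q.lunit_symm_mem s⟩

theorem Pl_runit (s : Shp S) : Q.Pl (s.p Shp.e) s :=
  ⟨Equiv.sumEmpty S Empty, Q.runit_mem s, Q.runit_symm_mem s⟩

theorem Pl_lin_add (m n : ℕ) : Q.Pl ((lin m).p (lin n)) (lin (m + n)) := by
  induction n with
  | zero => exact Q.Pl_runit (lin m)
  | succ n ih =>
    have h1 : Q.Pl ((lin m).p ((lin n).p Shp.o)) (((lin m).p (lin n)).p Shp.o) :=
      (Q.Pl_assoc (lin m) (lin n) Shp.o).symm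
    exact h1.trans (ih.kr (Q.Pl_refl Shp.o))

theorem exists_lin {S : Type} (s : Shp S) : ∃ n, Q.Pl s (lin n) := by
  classical
  induction s with
  | e => exact ⟨0, Q.Pl_refl Shp.e⟩
  | o =>
    refine ⟨1, ?_⟩
    exact (Q.Pl_lunit Shp.o).symm
  | @p S T s t hs ht =>
    obtain ⟨m, hm⟩ := hs
    obtain ⟨n, hn⟩ := ht
    haveI := s.fintype
    haveI := t.fintype
    exact ⟨m + n, (hm.kr hn).trans (Q.Pl_lin_add m n)⟩

theorem Pl_lin (s : Shp S) : Q.Pl s (lin (Fintype.card S)) := by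
  obtain ⟨n, hn⟩ := Q.exists_lin s
  have h : Fintype.card S = n := by
    obtain ⟨e, -⟩ := hn
    rw [Fintype.card_congr e, card_L]
  rwa [h]

/-- `dim P e s` is `h (card S)` -/
theorem finrank_P_e (s : Shp S) : (finrank K (Q.P Shp.e s) : ℝ) = Q.h (Fintype.card S) := by
  unfold h
  rw [Q.finrank_P_congr (Q.Pl_refl Shp.e) (Q.Pl_lin s)]

/-- `P s s` as an algebra -/
def alg (s : Shp S) : Subalgebra K (Matrix (S → α) (S → α) K) where
  carrier := Q.P s s
  mul_mem' := fun h1 h2 => Q.mul_mem h1 h2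
  one_mem' := Q.one_mem s
  add_mem' := fun h1 h2 => add_mem h1 h2
  zero_mem' := zero_mem _
  algebraMap_mem' := by
    intro r
    rw [Algebra.algebraMap_eq_smul_one]
    exact Submodule.smul_mem _ r (Q.one_mem s)

theorem alg_toSubmodule (s : Shp S) : (Q.alg s).toSubmodule = Q.P s s := rfl

theorem rad_alg (s : Shp S) : radE (dg Q.ε S) (Q.alg s) = Q.N s s := rfl

theorem alg_even (s : Shp S) : ∀ A ∈ Q.alg s, dg Q.ε S * A = A * dg Q.ε S :=
  fun _ hA => Q.even hA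

end SSys

end ZS
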