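import Pool.Agent.W_f569db_zo.CSP
import Pool.Agent.W_f569db_zs.Cauchy
import Pool.Agent.W_f569db_zs.Pm

set_option autoImplicit false

/-!
# Cauchy-Schwarz for the morphism spaces
-/

noncomputable section

namespace ZS

open Matrix Module ZO

set_option linter.unusedSectionVars false

variable {α : Type} [Fintype α] [DecidableEq α] {K : Type*} [Field K]

/-- `cod (sand 1 1)` -/
theorem csp_sand_one {S S' : Type} [Fintype S] [DecidableEq S] [Fintype S'] [DecidableEq S']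
    (F G : Submodule K (Matrix (S' → α) (S → α) K)) :
    cod (sand (1 : Matrix (S' → α) (S' → α) K) (1 : Matrix (S → α) (S → α) K)) F G =
      (finrank K F : ℝ) - finrank K G := by
  have h : sand (1 : Matrix (S' → α) (S' → α) K) (1 : Matrix (S → α) (S → α) K) =
      LinearMap.id := by
    apply LinearMap.ext
    intro x
    rw [sand_apply, Matrix.one_mul, Matrix.mul_one]
    rfl
  unfold cod
  rw [h, Submodule.map_id, Submodule.map_id]

namespace SSys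

variable (Q : SSys α K) {S S' : Type} [Fintype S] [DecidableEq S] [Fintype S'] [DecidableEq S']
  (s : Shp S) (s' : Shp S')

/-- the algebra of block matrices -/
def cspD : Subalgebra K (Matrix ((S → α) ⊕ (S' → α)) ((S → α) ⊕ (S' → α)) K) where
  carrier := {M | M.toBlocks₁₁ ∈ Q.P s s ∧ M.toBlocks₁₂ ∈ Q.P s' s ∧ M.toBlocks₂₁ ∈ Q.P s s' ∧
    M.toBlocks₂₂ ∈ Q.P s' s'}
  mul_mem' := by
    rintro M M' ⟨h1, h2, h3, h4⟩ ⟨k1, k2, k3, k4⟩
    have h : M * M' = fromBlocks (M.toBlocks₁₁ * M'.toBlocks₁₁ + M.toBlocks₁₂ * M'.toBlocks₂₁)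
        (M.toBlocks₁₁ * M'.toBlocks₁₂ + M.toBlocks₁₂ * M'.toBlocks₂₂)
        (M.toBlocks₂₁ * M'.toBlocks₁₁ + M.toBlocks₂₂ * M'.toBlocks₂₁)
        (M.toBlocks₂₁ * M'.toBlocks₁₂ + M.toBlocks₂₂ * M'.toBlocks₂₂) := by
      rw [← fromBlocks_multiply, fromBlocks_toBlocks, fromBlocks_toBlocks]
    rw [h]
    exact ⟨add_mem (Q.mul_mem h1 k1) (Q.mul_mem h2 k3),
      add_mem (Q.mul_mem h1 k2) (Q.mul_mem h2 k4),
      add_mem (Q.mul_mem h3 k1) (Q.mul_mem h4 k3),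
      add_mem (Q.mul_mem h3 k2) (Q.mul_mem h4 k4)⟩
  one_mem' := by
    have h : (1 : Matrix ((S → α) ⊕ (S' → α)) ((S → α) ⊕ (S' → α)) K) = fromBlocks 1 0 0 1 :=
      fromBlocks_one.symm
    rw [h]
    exact ⟨Q.one_mem s, zero_mem _, zero_mem _, Q.one_mem s'⟩
  add_mem' := by
    rintro M M' ⟨h1, h2, h3, h4⟩ ⟨k1, k2, k3, k4⟩
    exact ⟨add_mem h1 k1, add_mem h2 k2, add_mem h3 k3, add_mem h4 k4⟩
  zero_mem' := ⟨zero_mem _, zero_mem _, zero_mem _, zero_mem _⟩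
  algebraMap_mem' := by
    intro r
    have h : algebraMap K (Matrix ((S → α) ⊕ (S' → α)) ((S → α) ⊕ (S' → α)) K) r =
        fromBlocks (r • 1) 0 0 (r • 1) := by
      rw [Algebra.algebraMap_eq_smul_one, ← fromBlocks_one, fromBlocks_smul, smul_zero, smul_zero]
    rw [h]
    exact ⟨Submodule.smul_mem _ r (Q.one_mem s), zero_mem _, zero_mem _,
      Submodule.smul_mem _ r (Q.one_mem s')⟩

theorem csp_memD {M : Matrix ((S → α) ⊕ (S' → α)) ((S → α) ⊕ (S' → α)) K} :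
    M ∈ Q.cspD s s' ↔ M.toBlocks₁₁ ∈ Q.P s s ∧ M.toBlocks₁₂ ∈ Q.P s' s ∧
      M.toBlocks₂₁ ∈ Q.P s s' ∧ M.toBlocks₂₂ ∈ Q.P s' s' := Iff.rfl

variable (S S') in
/-- the parity operator of the sum -/
def cspE : Matrix ((S → α) ⊕ (S' → α)) ((S → α) ⊕ (S' → α)) K :=
  fromBlocks (dg Q.ε S) 0 0 (dg Q.ε S')

theorem cspE_comm : ∀ M ∈ Q.cspD s s', Q.cspE S S' * M = M * Q.cspE S S' := by
  intro M hM
  obtain ⟨h1, h2, h3, h4⟩ := (Q.csp_memD s s').1 hM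
  rw [← fromBlocks_toBlocks M, cspE, fromBlocks_multiply, fromBlocks_multiply, Q.even h1,
    Q.even h2, Q.even h3, Q.even h4]
  simp

/-- the twisted trace of a product of block matrices -/
theorem csp_str (M M' : Matrix ((S → α) ⊕ (S' → α)) ((S → α) ⊕ (S' → α)) K) :
    trace (Q.cspE S S' * (M * M')) =
      trace (dg Q.ε S * (M.toBlocks₁₁ * M'.toBlocks₁₁)) +
        trace (dg Q.ε S * (M.toBlocks₁₂ * M'.toBlocks₂₁)) +
      (trace (dg Q.ε S' * (M.toBlocks₂₁ * M'.toBlocks₁₂)) +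
        trace (dg Q.ε S' * (M.toBlocks₂₂ * M'.toBlocks₂₂))) := by
  have h : Q.cspE S S' * (M * M') = fromBlocks
      (dg Q.ε S * (M.toBlocks₁₁ * M'.toBlocks₁₁) + dg Q.ε S * (M.toBlocks₁₂ * M'.toBlocks₂₁))
      (dg Q.ε S * (M.toBlocks₁₁ * M'.toBlocks₁₂) + dg Q.ε S * (M.toBlocks₁₂ * M'.toBlocks₂₂))
      (dg Q.ε S' * (M.toBlocks₂₁ * M'.toBlocks₁₁) + dg Q.ε S' * (M.toBlocks₂₂ * M'.toBlocks₂₁))
      (dg Q.ε S' * (M.toBlocks₂₁ * M'.toBlocks₁₂) + dg Q.ε S' * (M.toBlocks₂₂ * M'.toBlocks₂₂)) := by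
    conv_lhs => rw [← fromBlocks_toBlocks M, ← fromBlocks_toBlocks M']
    rw [cspE, fromBlocks_multiply, fromBlocks_multiply]
    simp only [Matrix.mul_add, Matrix.zero_mul, add_zero, zero_add]
  rw [h, ← trace_add, ← trace_add]
  simp only [Matrix.trace, Fintype.sum_sum_type, diag_apply, fromBlocks_apply₁₁,
    fromBlocks_apply₂₂]

theorem csp_rad {M : Matrix ((S → α) ⊕ (S' → α)) ((S → α) ⊕ (S' → α)) K} :
    M ∈ radE (Q.cspE S S') (Q.cspD s s') ↔ M.toBlocks₁₁ ∈ Q.N s s ∧ M.toBlocks₁₂ ∈ Q.N s' s ∧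
      M.toBlocks₂₁ ∈ Q.N s s' ∧ M.toBlocks₂₂ ∈ Q.N s' s' := by
  constructor
  · rintro ⟨h, ht⟩
    obtain ⟨h1, h2, h3, h4⟩ := (Q.csp_memD s s').1 h
    refine ⟨⟨h1, fun B hB => ?_⟩, ⟨h2, fun B hB => ?_⟩, ⟨h3, fun B hB => ?_⟩, ⟨h4, fun B hB => ?_⟩⟩
    · have := ht (fromBlocks B 0 0 0) ⟨hB, zero_mem _, zero_mem _, zero_mem _⟩
      rw [csp_str] at this
      simpa using this
    · have := ht (fromBlocks 0 0 B 0) ⟨zero_mem _, zero_mem _, hB, zero_mem _⟩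
      rw [csp_str] at this
      simpa using this
    · have := ht (fromBlocks 0 B 0 0) ⟨zero_mem _, hB, zero_mem _, zero_mem _⟩
      rw [csp_str] at this
      simpa using this
    · have := ht (fromBlocks 0 0 0 B) ⟨zero_mem _, zero_mem _, zero_mem _, hB⟩
      rw [csp_str] at this
      simpa using this
  · rintro ⟨h1, h2, h3, h4⟩
    refine ⟨⟨h1.1, h2.1, h3.1, h4.1⟩, fun B hB => ?_⟩
    obtain ⟨k1, k2, k3, k4⟩ := (Q.csp_memD s s').1 hB
    rw [csp_str, h1.2 _ k1, h2.2 _ k3, h3.2 _ k2, h4.2 _ k4]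
    simp

variable {s s'}

theorem cs_P {e : Matrix (S → α) (S → α) K} {f : Matrix (S' → α) (S' → α) K} (he : e ∈ Q.P s s)
    (hf : f ∈ Q.P s' s') (he2 : e * e = e) (hf2 : f * f = f) :
    (cod (sand f e) (Q.P s s') (Q.N s s')) ^ 2 ≤
      cod (sand e e) (Q.P s s) (Q.N s s) * cod (sand f f) (Q.P s' s') (Q.N s' s') := by
  have hE : (fromBlocks e 0 0 0 : Matrix ((S → α) ⊕ (S' → α)) ((S → α) ⊕ (S' → α)) K) ∈
      Q.cspD s s' := ⟨he, zero_mem _, zero_mem _, zero_mem _⟩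
  have hF : (fromBlocks 0 0 0 f : Matrix ((S → α) ⊕ (S' → α)) ((S → α) ⊕ (S' → α)) K) ∈
      Q.cspD s s' := ⟨zero_mem _, zero_mem _, zero_mem _, hf⟩
  have hE2 : (fromBlocks e 0 0 0 : Matrix ((S → α) ⊕ (S' → α)) ((S → α) ⊕ (S' → α)) K) *
      fromBlocks e 0 0 0 = fromBlocks e 0 0 0 := by
    rw [fromBlocks_multiply]
    simp [he2]
  have hF2 : (fromBlocks 0 0 0 f : Matrix ((S → α) ⊕ (S' → α)) ((S → α) ⊕ (S' → α)) K) *
      fromBlocks 0 0 0 f = fromBlocks 0 0 0 f := by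
    rw [fromBlocks_multiply]
    simp [hf2]
  have key := cs_radE (Q.cspD s s') (Q.cspE_comm s s') hE hF hE2 hF2
  have c21 : cod (sand (fromBlocks 0 0 0 f : Matrix ((S → α) ⊕ (S' → α)) ((S → α) ⊕ (S' → α)) K)
      (fromBlocks e 0 0 0 : Matrix ((S → α) ⊕ (S' → α)) ((S → α) ⊕ (S' → α)) K))
      (Q.cspD s s').toSubmodule
      (radE (Q.cspE S S') (Q.cspD s s')) = cod (sand f e) (Q.P s s') (Q.N s s') := by
    refine csp_cod _ cspEm21 _ cspPr21 (csp_sand21 e f) cspEm21_inj _ _ _ _ ?_ ?_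
    · apply le_antisymm
      · rintro _ ⟨M, hM, rfl⟩
        exact hM.2.2.1
      · intro C hC
        exact ⟨fromBlocks 0 0 C 0, ⟨zero_mem _, zero_mem _, hC, zero_mem _⟩, rfl⟩
    · apply le_antisymm
      · rintro _ ⟨M, hM, rfl⟩
        exact ((Q.csp_rad s s').1 hM).2.2.1
      · intro C hC
        exact ⟨fromBlocks 0 0 C 0, (Q.csp_rad s s').2 ⟨zero_mem _, zero_mem _, hC, zero_mem _⟩, rfl⟩
  have c11 : cod (sand (fromBlocks e 0 0 0 : Matrix ((S → α) ⊕ (S' → α)) ((S → α) ⊕ (S' → α)) K)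
      (fromBlocks e 0 0 0 : Matrix ((S → α) ⊕ (S' → α)) ((S → α) ⊕ (S' → α)) K))
      (Q.cspD s s').toSubmodule
      (radE (Q.cspE S S') (Q.cspD s s')) = cod (sand e e) (Q.P s s) (Q.N s s) := by
    refine csp_cod _ cspEm11 _ cspPr11 (csp_sand11 e) cspEm11_inj _ _ _ _ ?_ ?_
    · apply le_antisymm
      · rintro _ ⟨M, hM, rfl⟩
        exact hM.1
      · intro C hC
        exact ⟨fromBlocks C 0 0 0, ⟨hC, zero_mem _, zero_mem _, zero_mem _⟩, rfl⟩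
    · apply le_antisymm
      · rintro _ ⟨M, hM, rfl⟩
        exact ((Q.csp_rad s s').1 hM).1
      · intro C hC
        exact ⟨fromBlocks C 0 0 0, (Q.csp_rad s s').2 ⟨hC, zero_mem _, zero_mem _, zero_mem _⟩, rfl⟩
  have c22 : cod (sand (fromBlocks 0 0 0 f : Matrix ((S → α) ⊕ (S' → α)) ((S → α) ⊕ (S' → α)) K)
      (fromBlocks 0 0 0 f : Matrix ((S → α) ⊕ (S' → α)) ((S → α) ⊕ (S' → α)) K))
      (Q.cspD s s').toSubmodule
      (radE (Q.cspE S S') (Q.cspD s s')) = cod (sand f f) (Q.P s' s') (Q.N s' s') := by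
    refine csp_cod _ cspEm22 _ cspPr22 (csp_sand22 f) cspEm22_inj _ _ _ _ ?_ ?_
    · apply le_antisymm
      · rintro _ ⟨M, hM, rfl⟩
        exact hM.2.2.2
      · intro C hC
        exact ⟨fromBlocks 0 0 0 C, ⟨zero_mem _, zero_mem _, zero_mem _, hC⟩, rfl⟩
    · apply le_antisymm
      · rintro _ ⟨M, hM, rfl⟩
        exact ((Q.csp_rad s s').1 hM).2.2.2
      · intro C hC
        exact ⟨fromBlocks 0 0 0 C, (Q.csp_rad s s').2 ⟨zero_mem _, zero_mem _, zero_mem _, hC⟩, rfl⟩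
  rw [c21, c11, c22] at key
  exact key

/-- the case `e = 1`, `f = 1` -/
theorem cs_a (s : Shp S) (s' : Shp S') : (Q.a s s') ^ 2 ≤ Q.a s s * Q.a s' s' := by
  have h := Q.cs_P (Q.one_mem s) (Q.one_mem s') (Matrix.mul_one 1) (Matrix.mul_one 1)
  rw [csp_sand_one, csp_sand_one, csp_sand_one] at h
  exact h

end SSys

end ZS
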