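import Pool.Agent.W_f569db_zs.BendB
import Pool.Agent.W_f569db_zs.CSP
import Pool.Agent.W_f569db_zo.Two

set_option autoImplicit false

/-!
# The upper bound `dim Hom_num (q V^{⊗ s} ⊗ V^{⊗ t}, V^{⊗ t}) ≤ rank q * a t t`
-/

noncomputable section

namespace ZS

open Matrix Module ZO

set_option linter.unusedSectionVars false

variable {α : Type} [Fintype α] [DecidableEq α] {K : Type*} [Field K]

theorem adj_idem {S : Type} [Fintype S] [DecidableEq S] {g g' : Matrix (S → α) (S → α) K}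
    (h : g' * g = 1) {f : Matrix (S → α) (S → α) K}
    (hf : f * f = f) : adj g g' f * adj g g' f = adj g g' f := by
  rw [← adj_mul h, hf]

theorem rank_adj_idem [CharZero K] {S : Type} [Fintype S] [DecidableEq S]
    {g g' : Matrix (S → α) (S → α) K} (h : g' * g = 1) {f : Matrix (S → α) (S → α) K}
    (hf : f * f = f) : (adj g g' f).rank = f.rank := by
  have h2 : ((adj g g' f).rank : K) = (f.rank : K) := by
    rw [← trace_idem (adj_idem h hf), trace_adj h, trace_idem hf]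
  exact_mod_cast h2

namespace SSys

variable (Q : SSys α K) {S T : Type} [Fintype S] [DecidableEq S] [Fintype T] [DecidableEq T]
  {s : Shp S} {t : Shp T}

/-- `dim (P (s t) t) (q ⊗ 1) - dim (N (s t) t) (q ⊗ 1)` -/
def pT (t : Shp T) (s : Shp S) (q : Matrix (S → α) (S → α) K) : ℝ :=
  cod (sand (1 : Matrix (T → α) (T → α) K) (kr q (1 : Matrix (T → α) (T → α) K)))
    (Q.P (s.p t) t) (Q.N (s.p t) t)

theorem pT_base [CharZero K] {q : Matrix (S → α) (S → α) K} (hq2 : q * q = q) :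
    Q.pT t s q ≤ (q.rank : ℝ) * (Fintype.card α : ℝ) ^ (2 * Fintype.card T) := by
  unfold pT
  refine (Sys.Two_cod_le _ _ _).trans ?_
  have h1 := finrank_range_sand (kr q (1 : Matrix (T → α) (T → α) K)) (Q.P (s.p t) t)
  have h2 : (kr q (1 : Matrix (T → α) (T → α) K)).rank = q.rank * Fintype.card (T → α) := by
    rw [rank_kr_idem hq2 (Matrix.one_mul _), Matrix.rank_one]
  rw [h2] at h1
  have h3 : (finrank K ((Q.P (s.p t) t).map
      (sand (1 : Matrix (T → α) (T → α) K) (kr q (1 : Matrix (T → α) (T → α) K)))) : ℝ) ≤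
      ((Fintype.card (T → α) * (q.rank * Fintype.card (T → α)) : ℕ) : ℝ) := by
    exact_mod_cast h1
  refine h3.trans (le_of_eq ?_)
  rw [Fintype.card_fun]
  push_cast
  ring

theorem pT_nonneg [CharZero K] (q : Matrix (S → α) (S → α) K) : 0 ≤ Q.pT t s q :=
  Sys.Two_cod_nonneg _ (Q.N_le (s.p t) t)

variable {S₁ S₂ : Type} [Fintype S₁] [DecidableEq S₁] [Fintype S₂] [DecidableEq S₂]
  {s₁ : Shp S₁} {s₂ : Shp S₂}

/-- right multiplication by an invertible element -/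
theorem Two_map_P {X : Matrix (S₂ → α) (S₁ → α) K} {Y : Matrix (S₁ → α) (S₂ → α) K}
    (hX : X ∈ Q.P s₁ s₂) (hY : Y ∈ Q.P s₂ s₁) (hYX : Y * X = 1) :
    (Q.P s₂ t).map (sand (1 : Matrix (T → α) (T → α) K) X) = Q.P s₁ t := by
  apply le_antisymm
  · rintro _ ⟨x, hx, rfl⟩
    rw [sand_apply, Matrix.one_mul]
    exact Q.mul_mem hx hX
  · intro y hy
    refine ⟨y * Y, Q.mul_mem hy hY, ?_⟩
    rw [sand_apply, Matrix.one_mul, Matrix.mul_assoc, hYX, Matrix.mul_one]

theorem Two_map_N {X : Matrix (S₂ → α) (S₁ → α) K} {Y : Matrix (S₁ → α) (S₂ → α) K}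
    (hX : X ∈ Q.P s₁ s₂) (hY : Y ∈ Q.P s₂ s₁) (hYX : Y * X = 1) :
    (Q.N s₂ t).map (sand (1 : Matrix (T → α) (T → α) K) X) = Q.N s₁ t := by
  apply le_antisymm
  · rintro _ ⟨x, hx, rfl⟩
    rw [sand_apply, Matrix.one_mul]
    exact Q.N_mul_right hx hX
  · intro y hy
    refine ⟨y * Y, Q.N_mul_right hy hY, ?_⟩
    rw [sand_apply, Matrix.one_mul, Matrix.mul_assoc, hYX, Matrix.mul_one]

theorem Two_inj {X : Matrix (S₂ → α) (S₁ → α) K} {Y : Matrix (S₁ → α) (S₂ → α) K}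
    (hXY : X * Y = 1) :
    Function.Injective (sand (1 : Matrix (T → α) (T → α) K) X :
      Matrix (T → α) (S₂ → α) K →ₗ[K] Matrix (T → α) (S₁ → α) K) := by
  intro x y hxy
  rw [sand_apply, sand_apply, Matrix.one_mul, Matrix.one_mul] at hxy
  calc x = x * (X * Y) := by rw [hXY, Matrix.mul_one]
    _ = y * (X * Y) := by
        rw [← Matrix.mul_assoc, hxy, Matrix.mul_assoc]
    _ = y := by rw [hXY, Matrix.mul_one]

theorem Two_pm_mul_symm (e : S₁ ≃ S₂) :
    pm α K e * pm α K e.symm = (1 : Matrix (S₂ → α) (S₂ → α) K) := by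
  have := pm_symm_mul (α := α) (K := K) e.symm
  rwa [Equiv.symm_symm] at this

/-- With `E = kr q 1`: `cod (sand E E) (P (s t) (s t)) (N ..) = pT (kr (adj q) q)`. -/
theorem cod_sand_eq [CharZero K] {q : Matrix (S → α) (S → α) K} :
    cod (sand (kr q (1 : Matrix (T → α) (T → α) K)) (kr q (1 : Matrix (T → α) (T → α) K)))
      (Q.P (s.p t) (s.p t)) (Q.N (s.p t) (s.p t)) =
        Q.pT t (s.p s) (kr (adj (Q.G s) (Q.G' s) q) q) := by
  let b : Matrix (S ⊕ T → α) (S ⊕ T → α) K →ₗ[K] Matrix (T → α) (S ⊕ (S ⊕ T) → α) K :=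
    bnd (S := S) (T' := T) (T := S ⊕ T) (Q.G s)
  let r : Matrix (T → α) (S ⊕ (S ⊕ T) → α) K →ₗ[K] Matrix (T → α) ((S ⊕ S) ⊕ T → α) K :=
    sand (1 : Matrix (T → α) (T → α) K) (pm α K (Equiv.sumAssoc S S T))
  have hb : Function.Injective b := Q.bnd_inj s
  have hΨ : Function.Injective (r ∘ₗ b) := by
    rw [LinearMap.coe_comp]
    exact (Two_inj (Two_pm_mul_symm (Equiv.sumAssoc S S T))).comp hb
  refine Sys.Two_cod_transport _ _ (r ∘ₗ b) (r ∘ₗ b) hΨ ?_ ?_ ?_
  · intro x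
    show r (b _) = sand _ _ (r (b x))
    have h1 : b (kr q (1 : Matrix (T → α) (T → α) K) * x * kr q (1 : Matrix (T → α) (T → α) K)) =
        b x * kr (adj (Q.G s) (Q.G' s) q) (kr q (1 : Matrix (T → α) (T → α) K)) := by
      show bnd (Q.G s) _ = bnd (Q.G s) x * _
      rw [Matrix.mul_assoc, bnd_kr_one (Q.g'g s), bnd_mul, Matrix.mul_assoc, kr_mul,
        Matrix.one_mul, Matrix.mul_one]
    have h0 : sand (kr q (1 : Matrix (T → α) (T → α) K)) (kr q (1 : Matrix (T → α) (T → α) K)) x =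
        kr q (1 : Matrix (T → α) (T → α) K) * x * kr q (1 : Matrix (T → α) (T → α) K) :=
      sand_apply _ _ _
    rw [h0, h1]
    show (1 : Matrix (T → α) (T → α) K) *
        (b x * kr (adj (Q.G s) (Q.G' s) q) (kr q (1 : Matrix (T → α) (T → α) K))) *
          pm α K (Equiv.sumAssoc S S T) =
      (1 : Matrix (T → α) (T → α) K) * ((1 : Matrix (T → α) (T → α) K) * b x *
        pm α K (Equiv.sumAssoc S S T)) *
          kr (kr (adj (Q.G s) (Q.G' s) q) q) (1 : Matrix (T → α) (T → α) K)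
    rw [Matrix.one_mul, Matrix.one_mul, Matrix.one_mul, Matrix.mul_assoc, Sys.Two_kr_assoc,
      Matrix.mul_assoc]
  · rw [Submodule.map_comp]
    show ((Q.P (s.p t) (s.p t)).map (bnd (S := S) (Q.G s))).map r = _
    rw [map_bnd_P]
    exact Q.Two_map_P (Q.assoc_mem s s t) (Q.assoc_symm_mem s s t) (pm_symm_mul _)
  · rw [Submodule.map_comp]
    show ((Q.N (s.p t) (s.p t)).map (bnd (S := S) (Q.G s))).map r = _
    rw [map_bnd_N]
    exact Q.Two_map_N (Q.assoc_mem s s t) (Q.assoc_symm_mem s s t) (pm_symm_mul _)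

/-- from `cs_P` with the objects `s t`, `t` and the idempotents `kr q 1`, `1`, and `cod_sand_eq` -/
theorem pT_step [CharZero K] {q : Matrix (S → α) (S → α) K} (hq : q ∈ Q.P s s) (hq2 : q * q = q) :
    (Q.pT t s q) ^ 2 ≤ Q.a t t * Q.pT t (s.p s) (kr (adj (Q.G s) (Q.G' s) q) q) := by
  have h1 := Q.cs_P (s := s.p t) (s' := t) (e := kr q (1 : Matrix (T → α) (T → α) K))
    (f := (1 : Matrix (T → α) (T → α) K)) (Q.kr_mem hq (Q.one_mem t)) (Q.one_mem t)
    (by rw [kr_mul, hq2, Matrix.one_mul]) (Matrix.one_mul _)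
  rw [cod_sand_eq, csp_sand_one, mul_comm] at h1
  exact h1

theorem a_nonneg (s : Shp S) (t : Shp T) : 0 ≤ Q.a s t := by
  unfold a
  have h1 : finrank K (Q.N s t) ≤ finrank K (Q.P s t) := Submodule.finrank_mono (Q.N_le s t)
  have h2 : (finrank K (Q.N s t) : ℝ) ≤ finrank K (Q.P s t) := by exact_mod_cast h1
  linarith

/-- induction on `k`, for all shapes -/
theorem pT_iter [CharZero K] (t : Shp T) (k : ℕ) : ∀ {S : Type} [Fintype S] [DecidableEq S]
    (s : Shp S) (q : Matrix (S → α) (S → α) K), q ∈ Q.P s s → q * q = q →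
    (Q.pT t s q) ^ (2 ^ k) ≤ (Q.a t t) ^ (2 ^ k - 1) * (q.rank : ℝ) ^ (2 ^ k) *
      (Fintype.card α : ℝ) ^ (2 * Fintype.card T) := by
  induction k with
  | zero =>
    intro S _ _ s q hq hq2
    simpa using Q.pT_base (s := s) (t := t) hq2
  | succ k ih =>
    intro S _ _ s q hq hq2
    have ha := Q.a_nonneg t t
    have hr : (kr (adj (Q.G s) (Q.G' s) q) q).rank = q.rank * q.rank := by
      rw [rank_kr_idem (adj_idem (Q.g'g s) hq2) hq2, rank_adj_idem (Q.g'g s) hq2]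
    have h1 := ih (s.p s) (kr (adj (Q.G s) (Q.G' s) q) q) (Q.kr_mem (Q.adj_mem hq) hq)
      (by rw [kr_mul, adj_idem (Q.g'g s) hq2, hq2])
    have h2 := Q.pT_step (t := t) hq hq2
    have hk : 1 ≤ 2 ^ k := Nat.one_le_two_pow
    calc (Q.pT t s q) ^ (2 ^ (k + 1)) = ((Q.pT t s q) ^ 2) ^ (2 ^ k) := by
          rw [← pow_mul, pow_succ, mul_comm]
      _ ≤ (Q.a t t * Q.pT t (s.p s) (kr (adj (Q.G s) (Q.G' s) q) q)) ^ (2 ^ k) :=
          pow_le_pow_left₀ (sq_nonneg _) h2 _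
      _ = (Q.a t t) ^ (2 ^ k) * (Q.pT t (s.p s) (kr (adj (Q.G s) (Q.G' s) q) q)) ^ (2 ^ k) :=
          mul_pow _ _ _
      _ ≤ (Q.a t t) ^ (2 ^ k) * ((Q.a t t) ^ (2 ^ k - 1) *
            ((kr (adj (Q.G s) (Q.G' s) q) q).rank : ℝ) ^ (2 ^ k) *
            (Fintype.card α : ℝ) ^ (2 * Fintype.card T)) :=
          mul_le_mul_of_nonneg_left h1 (pow_nonneg ha _)
      _ = (Q.a t t) ^ (2 ^ (k + 1) - 1) * (q.rank : ℝ) ^ (2 ^ (k + 1)) *
            (Fintype.card α : ℝ) ^ (2 * Fintype.card T) := by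
          have e1 : 2 ^ (k + 1) - 1 = 2 ^ k + (2 ^ k - 1) := by
            rw [pow_succ]
            omega
          have e2 : 2 ^ (k + 1) = 2 ^ k + 2 ^ k := by
            rw [pow_succ]
            omega
          rw [e1, e2, hr, pow_add, pow_add, Nat.cast_mul, mul_pow]
          ring

/-- The upper bound, by taking `2^k`-th roots (`root_bound`). -/
theorem pT_le [CharZero K] {q : Matrix (S → α) (S → α) K} (hq : q ∈ Q.P s s) (hq2 : q * q = q)
    (hpos : 0 < Q.a t t) : Q.pT t s q ≤ (q.rank : ℝ) * Q.a t t :=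
  root_bound (Q.pT_nonneg q) hpos (Nat.cast_nonneg _)
    fun k => Q.pT_iter t k s q hq hq2

end SSys

end ZS
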