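import Pool.Agent.W_f569db_zs.Chain

set_option autoImplicit false

/-!
# If the parity operator belongs to the system then numerically trivial endomorphisms are nilpotent
-/

noncomputable section

namespace ZS

open Matrix Module ZO

variable {α : Type} [Fintype α] [DecidableEq α] {K : Type*} [Field K] [CharZero K]

namespace SSys

variable (Q : SSys α K)

theorem dg_mem_of_par (h : dg Q.ε Unit ∈ Q.P Shp.o Shp.o) {S : Type} (s : Shp S) :
    ∀ [Fintype S] [DecidableEq S], dg Q.ε S ∈ Q.P s s := by
  induction s with
  | e =>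
    intro i1 i2
    have h1 : dg Q.ε Empty = (1 : Matrix (Empty → α) (Empty → α) K) := by
      ext c d
      have hcd : c = d := Subsingleton.elim _ _
      subst hcd
      unfold dg
      rw [Matrix.diagonal_apply_eq, Matrix.one_apply_eq, Finset.prod_of_isEmpty]
    rw [h1]
    exact Q.one_mem _
  | o =>
    intro i1 i2
    have h1 : i1 = PUnit.fintype := Subsingleton.elim _ _
    have h2 : i2 = instDecidableEqPUnit := Subsingleton.elim _ _
    subst h1 h2
    exact h
  | @p S T s t ih1 ih2 =>
    intro i1 i2
    have j1 : Fintype S := Fintype.ofInjective (Sum.inl : S → S ⊕ T) Sum.inl_injective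
    have j2 : Fintype T := Fintype.ofInjective (Sum.inr : T → S ⊕ T) Sum.inr_injective
    have j3 : DecidableEq S := Classical.decEq _
    have j4 : DecidableEq T := Classical.decEq _
    have h1 : i1 = instFintypeSum S T := Subsingleton.elim _ _
    have h2 : i2 = instDecidableEqSum := Subsingleton.elim _ _
    subst h1 h2
    rw [← dg_kr]
    exact Q.kr_mem ih1 ih2

/-- If the parity operator belongs to the system then the elements of `N s s` are nilpotent. -/
theorem nilBelow_of_par (h : dg Q.ε Unit ∈ Q.P Shp.o Shp.o) (M : ℕ) : Q.NilBelow M := by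
  intro S _ _ s _ x hx
  refine isNilpotent_of_trace_pow x fun k hk => ?_
  obtain ⟨j, rfl⟩ : ∃ j, k = j + 1 := ⟨k - 1, by omega⟩
  have hxj : ∀ j : ℕ, x ^ j ∈ Q.P s s := by
    intro j
    induction j with
    | zero => rw [pow_zero]; exact Q.one_mem s
    | succ j ih => rw [pow_succ]; exact Q.mul_mem ih hx.1
  have h1 := hx.2 (x ^ j * dg Q.ε S) (Q.mul_mem (hxj j) (Q.dg_mem_of_par h s))
  rw [← Matrix.mul_assoc x, ← pow_succ', Matrix.trace_mul_comm, Matrix.mul_assoc, dg_sq Q.ε_sq,
    Matrix.mul_one] at h1
  exact h1

end SSys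

end ZS
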