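import Pool.Agent.W_f569db_zs.Two
import Pool.Agent.W_f569db_zo.Ann

set_option autoImplicit false

/-!
# One layer
-/

noncomputable section

namespace ZS

open Matrix Module ZO

set_option linter.unusedSectionVars false

variable {α : Type} [Fintype α] [DecidableEq α] {K : Type*} [Field K] [CharZero K]

namespace SSys

variable (Q : SSys α K) {S T : Type} [Fintype S] [DecidableEq S] [Fintype T] [DecidableEq T]
  {s : Shp S}

/-- bending one factor `t` of the target, then exchanging the two factors -/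
theorem cod_eq_pT (t : Shp T) {q : Matrix (S → α) (S → α) K} (hq : q ∈ Q.P s s) :
    cod (sand (1 : Matrix (T ⊕ T → α) (T ⊕ T → α) K) q) (Q.P s (t.p t)) (Q.N s (t.p t)) =
      Q.pT t s q := by
  have h1 := ann_cod_congr (sand (1 : Matrix (T ⊕ T → α) (T ⊕ T → α) K) q)
    (sand (1 : Matrix (T → α) (T → α) K) (kr (1 : Matrix (T → α) (T → α) K) q))
    (bnd (S := T) (T' := T) (T := S) (Q.G t)) (bnd (S := T) (T' := T) (T := S) (Q.G t))
    (Q.bnd_inj t)
    (fun x => by rw [sand_apply, sand_apply, Matrix.one_mul, Matrix.one_mul, bnd_mul])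
    (Q.P s (t.p t)) (Q.N s (t.p t))
  rw [map_bnd_P, map_bnd_N] at h1
  rw [h1, pT]
  have hcomm : kr (1 : Matrix (T → α) (T → α) K) q * Q.sw s t =
      Q.sw s t * kr q (1 : Matrix (T → α) (T → α) K) := (Q.sw_kr hq (Q.one_mem t)).symm
  have h4 := ann_cod_congr
    (sand (1 : Matrix (T → α) (T → α) K) (kr (1 : Matrix (T → α) (T → α) K) q))
    (sand (1 : Matrix (T → α) (T → α) K) (kr q (1 : Matrix (T → α) (T → α) K)))
    (sand (1 : Matrix (T → α) (T → α) K) (Q.sw s t))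
    (sand (1 : Matrix (T → α) (T → α) K) (Q.sw s t)) (Two_inj (Q.sw_sw t s))
    (fun x => by
      simp only [sand_apply, Matrix.one_mul]
      rw [Matrix.mul_assoc, hcomm, Matrix.mul_assoc])
    (Q.P (t.p s) t) (Q.N (t.p s) t)
  rw [h4, Q.Two_map_P (Q.sw_mem s t) (Q.sw_mem t s) (Q.sw_sw s t),
    Q.Two_map_N (Q.sw_mem s t) (Q.sw_mem t s) (Q.sw_sw s t)]

/-- Every `0 ≠ y ∈ P e s` has an idempotent `q ∈ P s s`, `q ≠ 1`, such that `f - f q ∈ N s v` for all
`f ∈ P s v` with `f y = 0`, if the elements of `N s s` are nilpotent. -/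
theorem exists_ann (hnil : ∀ x ∈ Q.N s s, IsNilpotent x) {y : Matrix (S → α) (Empty → α) K}
    (hy0 : y ≠ 0) :
    ∃ q ∈ Q.P s s, q * q = q ∧ q ≠ 1 ∧ ∀ (Y : Type) [Fintype Y] [DecidableEq Y] (v : Shp Y)
      (f : Matrix (Y → α) (S → α) K), f ∈ Q.P s v → f * y = 0 → f - f * q ∈ Q.N s v := by
  let L : Submodule K (Matrix (S → α) (S → α) K) :=
    { carrier := {f | f ∈ Q.P s s ∧ f * y = 0}
      add_mem' := by
        rintro a b ⟨h1, h2⟩ ⟨h3, h4⟩
        refine ⟨add_mem h1 h3, ?_⟩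
        rw [Matrix.add_mul, h2, h4, add_zero]
      zero_mem' := ⟨zero_mem _, Matrix.zero_mul _⟩
      smul_mem' := by
        rintro c a ⟨h1, h2⟩
        refine ⟨Submodule.smul_mem _ c h1, ?_⟩
        rw [Matrix.smul_mul, h2, smul_zero] }
  obtain ⟨q, hq, hqq, hL, l, hl, hql⟩ := left_idemE (Q.alg s) (Q.alg_even s) hnil L
    (fun f hf => hf.1)
    (fun x hx f hf => ⟨Q.mul_mem hx hf.1, by rw [Matrix.mul_assoc, hf.2, Matrix.mul_zero]⟩)
  refine ⟨q, hq, hqq, ?_, ?_⟩
  · rintro rfl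
    obtain ⟨n, hn⟩ := hnil _ hql
    have h1 : (1 - l) * y = y := by
      rw [Matrix.sub_mul, Matrix.one_mul, hl.2, sub_zero]
    have h2 : ∀ m : ℕ, (1 - l) ^ m * y = y := by
      intro m
      induction m with
      | zero => rw [pow_zero, Matrix.one_mul]
      | succ m ih => rw [pow_succ, Matrix.mul_assoc, h1, ih]
    have h3 := h2 n
    rw [hn, Matrix.zero_mul] at h3
    exact hy0 h3.symm
  · intro Y _ _ v f hf hfy
    refine (Q.mem_N').2 ⟨sub_mem hf (Q.mul_mem hf hq), fun B hB => ?_⟩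
    have h1 : B * f ∈ L := ⟨Q.mul_mem hB hf, by rw [Matrix.mul_assoc, hfy, Matrix.mul_zero]⟩
    have h2 := hL _ h1
    rw [rad_alg] at h2
    have h3 := Q.str_N h2
    rw [Matrix.mul_sub, ← Matrix.mul_assoc]
    exact h3

/-- One layer. -/
theorem layer (hnil : ∀ x ∈ Q.N s s, IsNilpotent x) (t : Shp T) (hpos : 0 < Q.a t t)
    {y : Matrix (S → α) (Empty → α) K} (hy0 : y ≠ 0) :
    Q.A (Fintype.card S + 2 * Fintype.card T) -
        ((Fintype.card α : ℝ) ^ (Fintype.card S) - 1) * Q.A (2 * Fintype.card T) ≤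
      cod (sand (1 : Matrix (T ⊕ T → α) (T ⊕ T → α) K) y) (Q.P s (t.p t)) (Q.N s (t.p t)) := by
  obtain ⟨q, hq, hqq, hq1, hann⟩ := Q.exists_ann hnil hy0
  set φ := sand (1 : Matrix (T ⊕ T → α) (T ⊕ T → α) K) y with hφ
  set F := Q.P s (t.p t) with hF
  set G := Q.N s (t.p t) with hG
  have hGF : G ≤ F := Q.N_le s (t.p t)
  have h1 := cod_eq φ F G
  have h2 := dim_image_le (sand (1 : Matrix (T ⊕ T → α) (T ⊕ T → α) K) q)
    (fun x => by
      rw [sand_apply, sand_apply, Matrix.one_mul, Matrix.one_mul, Matrix.mul_assoc, hqq])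
    F G (F ⊓ LinearMap.ker φ) hGF
    (fun x hx => by
      rw [sand_apply, Matrix.one_mul]
      exact Q.mul_mem hx hq)
    (fun x hx => by
      rw [sand_apply, Matrix.one_mul]
      exact Q.N_mul_right hx hq)
    inf_le_left
    (fun x hx => by
      rw [sand_apply, Matrix.one_mul]
      refine hann _ _ x hx.1 ?_
      have h3 : φ x = 0 := hx.2
      rw [hφ, sand_apply, Matrix.one_mul] at h3
      exact h3)
  rw [Q.cod_eq_pT t hq] at h2
  have h3 : G ⊓ (F ⊓ LinearMap.ker φ) = G ⊓ LinearMap.ker φ := by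
    rw [← inf_assoc, inf_eq_left.2 hGF]
  rw [h3] at h2
  have h4 := Q.pT_le (t := t) hq hqq hpos
  have h5 := rank_lt_of_idem hqq hq1
  have h6 : (finrank K F : ℝ) - finrank K G = Q.A (Fintype.card S + 2 * Fintype.card T) := by
    have h7 := Q.a_eq_A s (t.p t)
    rw [Fintype.card_sum, ← two_mul] at h7
    exact h7
  have h8 : Q.a t t = Q.A (2 * Fintype.card T) := by
    rw [Q.a_eq_A t t, ← two_mul]
  have h9 : (q.rank : ℝ) ≤ (Fintype.card α : ℝ) ^ (Fintype.card S) - 1 := by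
    have h10 : ((q.rank + 1 : ℕ) : ℝ) ≤ ((Fintype.card (S → α) : ℕ) : ℝ) := by exact_mod_cast h5
    rw [Fintype.card_fun] at h10
    push_cast at h10
    linarith
  have h11 : (q.rank : ℝ) * Q.a t t ≤
      ((Fintype.card α : ℝ) ^ (Fintype.card S) - 1) * Q.a t t :=
    mul_le_mul_of_nonneg_right h9 hpos.le
  rw [h8] at h11 h4
  rw [h1, h6]
  linarith

end SSys

end ZS
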