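import Pool.Agent.WeilH_h6.RatNT

set_option autoImplicit false

/-!
# Definitions for the zero-one law

`numTriv`: the numerically trivial cycles of codimension `i`; `numRank X`: the dimension of the space
of cycles on `X` (with rational coefficients) modulo numerical equivalence; `homRank X`: the dimension
of the `K`-span of the cohomology classes of cycles on `X`; `NumTrivEnd`, `NilNum`: numerically
trivial algebraic endomorphisms and their nilpotency; `AlgParity`: the parity operator is algebraic.
-/

noncomputable section

namespace ZS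

open AlgebraicGeometry CategoryTheory MonoidalCategory
open Pool.Agent.WeilH_h6 Pool.Agent.WeilH_h6.VarClass

universe u v w

variable {k : Type u} [Field k] {𝒱 : VarClass k} {K : Type v} [Field K] (W : Weil.{u, v, w} 𝒱 K)

/-- The numerically trivial cycles of codimension `i` on `X`, with rational coefficients. -/
def numTriv [CharZero K] (X : 𝒱.Obj) (i : ℕ) : Submodule ℚ (Cyc X i) where
  carrier := {z | W.NumTrivial z}
  add_mem' := by
    intro z z' hz hz' j t h
    rw [W.cl_add, add_mul, map_add, hz j t h, hz' j t h, add_zero]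
  zero_mem' := by
    intro j t _
    rw [W.RatNT_cl_zero, zero_mul, map_zero]
  smul_mem' := by
    intro q z hz j t h
    rw [W.cl_smul, smul_mul_assoc, map_smul, hz j t h, smul_zero]

/-- The dimension over `ℚ` of the space of cycles on `X` modulo numerical equivalence. -/
def numRank [CharZero K] (X : 𝒱.Obj) : ℕ :=
  ∑ i ∈ Finset.range (X.dim + 1), Module.finrank ℚ (Cyc X i ⧸ numTriv W X i)

/-- The dimension over `K` of the span of the cohomology classes of cycles on `X`. -/
def homRank (X : 𝒱.Obj) : ℕ := Module.finrank K (W.algSpan X)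

/-- The endomorphism `φ` of `H(X)` is algebraic and numerically trivial: it is given by a class `a` in
the `K`-span of the algebraic classes on `X × X` which is orthogonal to all algebraic classes. -/
def NumTrivEnd (X : 𝒱.Obj) (φ : W.Hom X X) : Prop :=
  ∃ a ∈ W.algSpan (X.prod X), (∀ b ∈ W.algSpan (X.prod X), W.deg (a * b) = 0) ∧
    ∀ x y : W.H X, W.deg (W.ap φ x * y) = W.deg (a * W.cross x y)

/-- All numerically trivial algebraic endomorphisms of `H(X^m)`, `m ≥ 0`, are nilpotent. -/
def NilNum (X : 𝒱.Obj) : Prop :=
  ∀ (m : ℕ) (φ : W.Hom (X.pow m) (X.pow m)), NumTrivEnd W (X.pow m) φ →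
    ∃ N : ℕ, ∀ x : W.H (X.pow m), (W.ap φ)^[N] x = 0

/-- The parity operator of `H(X)` (multiplication by `(-1)^i` on `H^i(X)`) is algebraic. -/
def AlgParity (X : 𝒱.Obj) : Prop :=
  ∃ φ : W.Hom X X, W.IsAlgEnd X φ ∧ ∀ (i : ℕ), ∀ x ∈ W.grad X i, W.ap φ x = ((-1 : K) ^ i) • x

end ZS
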