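import Pool.Agent.W_f569db_zs.Pm

set_option autoImplicit false

/-!
# Bending with an arbitrary form

`bnd g : Matrix (S ⊕ T' → α) (T → α) K → Matrix (T' → α) (S ⊕ T → α) K` moves the tensor factors in
`S` from the target to the source with the help of the form `g` on `V^{⊗ S}`.
-/

noncomputable section

namespace ZS

open Matrix Module ZO

set_option linter.unusedSectionVars false

variable {α : Type} [Fintype α] [DecidableEq α] {K : Type*} [Field K]
  {S T T' T₁ : Type} [Fintype S] [DecidableEq S] [Fintype T] [DecidableEq T]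
  [Fintype T'] [DecidableEq T'] [Fintype T₁] [DecidableEq T₁]

/-- Bending. -/
def bnd (g : Matrix (S → α) (S → α) K) : Matrix (S ⊕ T' → α) (T → α) K →ₗ[K] Matrix (T' → α) (S ⊕ T → α) K where
  toFun F := Matrix.of fun t' u =>
    ∑ s' : S → α, g (u ∘ Sum.inl) s' * F (Sum.elim s' t') (u ∘ Sum.inr)
  map_add' F F' := by
    ext t' u
    simp [mul_add, Finset.sum_add_distrib]
  map_smul' c F := by
    ext t' u
    simp only [Matrix.of_apply, Matrix.smul_apply, smul_eq_mul, RingHom.id_apply, Finset.mul_sum]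
    exact Finset.sum_congr rfl fun _ _ => by ring

/-- The inverse of bending. -/
def bndI (g' : Matrix (S → α) (S → α) K) : Matrix (T' → α) (S ⊕ T → α) K →ₗ[K] Matrix (S ⊕ T' → α) (T → α) K where
  toFun H := Matrix.of fun v t =>
    ∑ s' : S → α, g' (v ∘ Sum.inl) s' * H (v ∘ Sum.inr) (Sum.elim s' t)
  map_add' F F' := by
    ext t' u
    simp [mul_add, Finset.sum_add_distrib]
  map_smul' c F := by
    ext t' u
    simp only [Matrix.of_apply, Matrix.smul_apply, smul_eq_mul, RingHom.id_apply, Finset.mul_sum]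
    exact Finset.sum_congr rfl fun _ _ => by ring

theorem bnd_apply (g : Matrix (S → α) (S → α) K) (F : Matrix (S ⊕ T' → α) (T → α) K) (t' : T' → α)
    (u : S ⊕ T → α) : bnd g F t' u =
      ∑ s' : S → α, g (u ∘ Sum.inl) s' * F (Sum.elim s' t') (u ∘ Sum.inr) := rfl

/-- `∑_{s'} G(s,s') ∑_{s''} G'(s',s'') H(t',(s'',t)) = H(t',(s,t))` because `G * G' = 1` -/
theorem bnd_bndI {g g' : Matrix (S → α) (S → α) K} (h : g * g' = 1) (H : Matrix (T' → α) (S ⊕ T → α) K) :
    bnd g (bndI g' H) = H := by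
  ext t' u
  have h1 := BendA_cancel (h)
    (fun s => H t' (Sum.elim s (u ∘ Sum.inr))) (u ∘ Sum.inl)
  rw [BendA_elim] at h1
  exact h1

theorem bndI_bnd {g g' : Matrix (S → α) (S → α) K} (h : g' * g = 1) (F : Matrix (S ⊕ T' → α) (T → α) K) :
    bndI g' (bnd g F) = F := by
  ext v t
  have h1 := BendA_cancel (h)
    (fun s => F (Sum.elim s (v ∘ Sum.inr)) t) (v ∘ Sum.inl)
  rw [BendA_elim] at h1
  exact h1

theorem bnd_mul (g : Matrix (S → α) (S → α) K) (F : Matrix (S ⊕ T' → α) (T → α) K)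
    (h : Matrix (T → α) (T₁ → α) K) :
    bnd g (F * h) = bnd g F * kr (1 : Matrix (S → α) (S → α) K) h := by
  ext t' u
  rw [BendA_mul_kr_one, bnd_apply]
  simp only [bnd_apply, Matrix.mul_apply, Finset.mul_sum, Finset.sum_mul]
  rw [Finset.sum_comm]
  refine Finset.sum_congr rfl fun t _ => Finset.sum_congr rfl fun s _ => ?_
  simp only [Sum.elim_comp_inl, Sum.elim_comp_inr]
  ring

theorem bnd_one_kr (g : Matrix (S → α) (S → α) K) (k : Matrix (T₁ → α) (T' → α) K)
    (F : Matrix (S ⊕ T' → α) (T → α) K) :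
    bnd g (kr (1 : Matrix (S → α) (S → α) K) k * F) = k * bnd g F := by
  ext t' u
  rw [Matrix.mul_apply, bnd_apply]
  simp only [bnd_apply, BendA_kr_one_mul, Finset.mul_sum]
  rw [Finset.sum_comm]
  refine Finset.sum_congr rfl fun t _ => Finset.sum_congr rfl fun s _ => ?_
  simp only [Sum.elim_comp_inl, Sum.elim_comp_inr]
  ring

/-- the adjoint of a matrix for the form `G = g` -/
def adj (g g' : Matrix (S → α) (S → α) K) (f : Matrix (S → α) (S → α) K) : Matrix (S → α) (S → α) K :=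
  (g * f * g')ᵀ

/-- `bnd ((f ⊗ 1) F) (t',(s,t)) = ∑ G(s,s') f(s',s'') F((s'',t'),t)` and `G f = (G f G') G` -/
theorem bnd_kr_one {g g' : Matrix (S → α) (S → α) K} (h : g' * g = 1) (f : Matrix (S → α) (S → α) K)
    (F : Matrix (S ⊕ T' → α) (T → α) K) :
    bnd g (kr f (1 : Matrix (T' → α) (T' → α) K) * F) =
      bnd g F * kr (adj g g' f) (1 : Matrix (T → α) (T → α) K) := by
  ext t' u
  rw [BendA_mul_one_kr, bnd_apply]
  simp only [BendA_one_kr_mul, Sum.elim_comp_inl, Sum.elim_comp_inr]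
  have h1 : (g *ᵥ (f *ᵥ fun s => F (Sum.elim s t') (u ∘ Sum.inr))) (u ∘ Sum.inl) =
      ((g * f * g') *ᵥ (g *ᵥ fun s => F (Sum.elim s t') (u ∘ Sum.inr)))
        (u ∘ Sum.inl) := by
    rw [Matrix.mulVec_mulVec, Matrix.mulVec_mulVec, Matrix.mul_assoc (g * f),
      h, Matrix.mul_one]
  refine Eq.trans h1 ?_
  refine Finset.sum_congr rfl fun s _ => ?_
  rw [mul_comm]
  rfl

theorem adj_mul {g g' : Matrix (S → α) (S → α) K} (h : g' * g = 1) (f f' : Matrix (S → α) (S → α) K) :
    adj g g' (f * f') = adj g g' f' * adj g g' f := by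
  unfold adj
  rw [← Matrix.transpose_mul]
  congr 1
  have h1 : g' * g = (1 : Matrix (S → α) (S → α) K) := h
  calc g * (f * f') * g' = g * f * 1 * (f' * g') := by
        simp only [Matrix.mul_assoc, Matrix.mul_one]
    _ = g * f * (g' * g) * (f' * g') := by rw [h1]
    _ = g * f * g' * (g * f' * g') := by simp only [Matrix.mul_assoc]

theorem trace_adj {g g' : Matrix (S → α) (S → α) K} (h : g' * g = 1) (f : Matrix (S → α) (S → α) K) :
    Matrix.trace (adj g g' f) = Matrix.trace f := by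
  unfold adj
  rw [Matrix.trace_transpose, Matrix.mul_assoc, Matrix.trace_mul_comm, Matrix.mul_assoc,
    h, Matrix.mul_one]

/-- bending by hand: the trace of `bnd g F * B` in terms of `F` and the bending of `B` the other way,
with the transposed form: both are
`∑ G(s,s') F((s',t'),t) B((s,t),t')` -/
theorem trace_bnd_mul (g : Matrix (S → α) (S → α) K) (F : Matrix (S ⊕ T' → α) (T → α) K)
    (B : Matrix (S ⊕ T → α) (T' → α) K) :
    Matrix.trace (bnd g F * B) = Matrix.trace (F * bnd gᵀ B) := by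
  have h1 : Matrix.trace (bnd g F * B) = ∑ t' : T' → α, ∑ s : S → α, ∑ t : T → α, ∑ s' : S → α,
      g s s' * F (Sum.elim s' t') t * B (Sum.elim s t) t' := by
    simp only [Matrix.trace, Matrix.diag, Matrix.mul_apply]
    refine Finset.sum_congr rfl fun t' _ => ?_
    rw [BendA_sum]
    refine Finset.sum_congr rfl fun s _ => Finset.sum_congr rfl fun t _ => ?_
    rw [bnd_apply, Finset.sum_mul]
    rfl
  have h2 : Matrix.trace (F * bnd gᵀ B) = ∑ s' : S → α, ∑ t' : T' → α, ∑ t : T → α, ∑ s : S → α,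
      g s s' * F (Sum.elim s' t') t * B (Sum.elim s t) t' := by
    simp only [Matrix.trace, Matrix.diag, Matrix.mul_apply]
    rw [BendA_sum]
    refine Finset.sum_congr rfl fun s' _ => Finset.sum_congr rfl fun t' _ =>
      Finset.sum_congr rfl fun t _ => ?_
    rw [bnd_apply, Finset.mul_sum]
    refine Finset.sum_congr rfl fun s _ => ?_
    simp only [Sum.elim_comp_inl, Sum.elim_comp_inr]
    have h3 : gᵀ s' s = g s s' := rfl
    rw [h3]
    ring
  rw [h1, h2, Finset.sum_comm]
  have h4 : ∀ t' : T' → α, (∑ s : S → α, ∑ t : T → α, ∑ s' : S → α,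
      g s s' * F (Sum.elim s' t') t * B (Sum.elim s t) t') =
      ∑ s' : S → α, ∑ t : T → α, ∑ s : S → α,
      g s s' * F (Sum.elim s' t') t * B (Sum.elim s t) t' := by
    intro t'
    rw [Finset.sum_comm]
    rw [Finset.sum_comm (s := (Finset.univ : Finset (S → α)))]
    refine Finset.sum_congr rfl fun t _ => ?_
    rw [Finset.sum_comm]
  rw [Finset.sum_comm]
  simp only [h4]
  rw [Finset.sum_comm]

/-- `bnd` as a composition: `(cap ⊗ 1) (assoc) (1 ⊗ F)` -/
theorem bnd_eq (g : Matrix (S → α) (S → α) K) (F : Matrix (S ⊕ T' → α) (T → α) K) :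
    bnd g F = pm α K (Equiv.emptySum Empty T') *
      (kr (capG g) (1 : Matrix (T' → α) (T' → α) K) *
        (pm α K (Equiv.sumAssoc S S T').symm * kr (1 : Matrix (S → α) (S → α) K) F)) := by
  ext t' u
  rw [pm_mul_apply, BendA_one_kr_mul, BendA_sum, bnd_apply, Finset.sum_comm]
  refine Finset.sum_congr rfl fun s' _ => ?_
  rw [Finset.sum_eq_single (u ∘ Sum.inl)]
  · rw [pm_mul_apply]
    have h1 : (Sum.elim (Sum.elim (u ∘ Sum.inl) s')
        ((t' ∘ (Equiv.emptySum Empty T')) ∘ Sum.inr)) ∘ (Equiv.sumAssoc S S T').symm =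
        Sum.elim (u ∘ Sum.inl) (Sum.elim s' t') := by
      funext x
      rcases x with x | x | x <;> rfl
    rw [h1, BendA_kr_l, Matrix.one_apply_eq, one_mul]
    rfl
  · intro s _ hs
    rw [pm_mul_apply]
    have h1 : (Sum.elim (Sum.elim s s')
        ((t' ∘ (Equiv.emptySum Empty T')) ∘ Sum.inr)) ∘ (Equiv.sumAssoc S S T').symm =
        Sum.elim s (Sum.elim s' t') := by
      funext x
      rcases x with x | x | x <;> rfl
    rw [h1, BendA_kr_l, Matrix.one_apply_ne hs, zero_mul, mul_zero]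
  · intro h
    exact absurd (Finset.mem_univ _) h

/-- `bndI` as a composition: `(1 ⊗ H) (assoc) (cup ⊗ 1)` -/
theorem bndI_eq (g' : Matrix (S → α) (S → α) K) (H : Matrix (T' → α) (S ⊕ T → α) K) :
    bndI g' H = kr (1 : Matrix (S → α) (S → α) K) H *
      (pm α K (Equiv.sumAssoc S S T) *
        (kr (cupG g') (1 : Matrix (T → α) (T → α) K) *
          pm α K (Equiv.emptySum Empty T).symm)) := by
  ext v t
  rw [BendA_kr_one_mul, BendA_sum]
  have h0 : bndI g' H v t =
      ∑ s' : S → α, g' (v ∘ Sum.inl) s' * H (v ∘ Sum.inr) (Sum.elim s' t) := rfl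
  rw [h0]
  refine Finset.sum_congr rfl fun s' _ => ?_
  have h1 : ∀ t₁ : T → α, (Sum.elim (v ∘ Sum.inl) (Sum.elim s' t₁)) ∘ (Equiv.sumAssoc S S T) =
      Sum.elim (Sum.elim (v ∘ Sum.inl) s') t₁ := by
    intro t₁
    funext x
    rcases x with (x | x) | x <;> rfl
  have h2 : (t ∘ (Equiv.emptySum Empty T).symm.symm) ∘ Sum.inr = t := by
    funext x
    rfl
  rw [Finset.sum_eq_single t]
  · rw [pm_mul_apply, mul_pm_apply, h1, BendA_kr_l, h2, Matrix.one_apply_eq, mul_one, mul_comm]
    rfl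
  · intro t₁ _ ht
    rw [pm_mul_apply, mul_pm_apply, h1, BendA_kr_l, h2, Matrix.one_apply_ne ht, mul_zero,
      mul_zero]
  · intro h
    exact absurd (Finset.mem_univ _) h

end ZS
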