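import Pool.Agent.W_f569db_zs.Bend

set_option autoImplicit false

/-!
# Bending and the subspaces `P`, `N`
-/

noncomputable section

namespace ZS

open Matrix Module ZO

set_option linter.unusedSectionVars false

variable {α : Type} [Fintype α] [DecidableEq α] {K : Type*} [Field K]
  {S T T' : Type} [Fintype S] [DecidableEq S] [Fintype T] [DecidableEq T]
  [Fintype T'] [DecidableEq T']

theorem bnd_mul_left (M g : Matrix (S → α) (S → α) K) (F : Matrix (S ⊕ T' → α) (T → α) K) :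
    bnd (M * g) F = bnd g F * kr Mᵀ (1 : Matrix (T → α) (T → α) K) := by
  ext t' u
  rw [BendA_mul_one_kr, bnd_apply]
  simp only [bnd_apply, Matrix.mul_apply, Finset.sum_mul, Matrix.transpose_apply]
  rw [Finset.sum_comm]
  refine Finset.sum_congr rfl fun s _ => Finset.sum_congr rfl fun s' _ => ?_
  simp only [Sum.elim_comp_inl, Sum.elim_comp_inr]
  ring

theorem dg_transpose (ε : α → K) : (dg ε S)ᵀ = dg ε S := Matrix.diagonal_transpose _

/-- the supertrace of `bnd g F * B` -/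
theorem str_bnd_mul {ε : α → K} {g : Matrix (S → α) (S → α) K} (hg : gᵀ = dg ε S * g)
    (F : Matrix (S ⊕ T' → α) (T → α) K) (B : Matrix (S ⊕ T → α) (T' → α) K) :
    Matrix.trace (dg ε T' * (bnd g F * B)) = Matrix.trace (dg ε (S ⊕ T') * (F * bnd g B)) := by
  have h1 : bnd gᵀ (B * dg ε T') = bnd g B * dg ε (S ⊕ T') := by
    rw [bnd_mul, hg, bnd_mul_left, dg_transpose, Matrix.mul_assoc, kr_mul, Matrix.mul_one,
      Matrix.one_mul, dg_kr]
  calc Matrix.trace (dg ε T' * (bnd g F * B)) = Matrix.trace (bnd g F * (B * dg ε T')) := by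
        rw [Matrix.trace_mul_comm, Matrix.mul_assoc]
    _ = Matrix.trace (F * (bnd g B * dg ε (S ⊕ T'))) := by
        rw [trace_bnd_mul, h1]
    _ = Matrix.trace (dg ε (S ⊕ T') * (F * bnd g B)) := by
        rw [← Matrix.mul_assoc, Matrix.trace_mul_comm]

namespace SSys

variable (Q : SSys α K) {s : Shp S} {t : Shp T} {t' : Shp T'}

/-- from `bnd_eq` -/
theorem bnd_mem {F : Matrix (S ⊕ T' → α) (T → α) K} (hF : F ∈ Q.P t (s.p t')) :
    bnd (Q.G s) F ∈ Q.P (s.p t) t' := by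
  rw [bnd_eq]
  exact Q.mul_mem (Q.lunit_mem t') (Q.mul_mem (Q.kr_mem (Q.cap_mem s) (Q.one_mem t'))
    (Q.mul_mem (Q.assoc_symm_mem s s t') (Q.kr_mem (Q.one_mem s) hF)))

/-- from `bndI_eq` -/
theorem bndI_mem {H : Matrix (T' → α) (S ⊕ T → α) K} (hH : H ∈ Q.P (s.p t) t') :
    bndI (Q.G' s) H ∈ Q.P t (s.p t') := by
  rw [bndI_eq]
  exact Q.mul_mem (Q.kr_mem (Q.one_mem s) hH) (Q.mul_mem (Q.assoc_mem s s t)
    (Q.mul_mem (Q.kr_mem (Q.cup_mem s) (Q.one_mem t)) (Q.lunit_symm_mem t)))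

theorem map_bnd_P (s : Shp S) (t : Shp T) (t' : Shp T') :
    (Q.P t (s.p t')).map (bnd (Q.G s)) = Q.P (s.p t) t' := by
  apply le_antisymm
  · rintro _ ⟨F, hF, rfl⟩
    exact Q.bnd_mem hF
  · intro H hH
    exact ⟨bndI (Q.G' s) H, Q.bndI_mem hH, bnd_bndI (Q.gg' s) H⟩

theorem map_bnd_N (s : Shp S) (t : Shp T) (t' : Shp T') :
    (Q.N t (s.p t')).map (bnd (Q.G s)) = Q.N (s.p t) t' := by
  apply le_antisymm
  · rintro _ ⟨F, hF, rfl⟩
    refine ⟨Q.bnd_mem hF.1, ?_⟩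
    intro B hB
    rw [str_bnd_mul (Q.g_symm s)]
    exact hF.2 _ (Q.bnd_mem hB)
  · intro H hH
    refine ⟨bndI (Q.G' s) H, ⟨Q.bndI_mem hH.1, ?_⟩, bnd_bndI (Q.gg' s) H⟩
    intro B' hB'
    have h1 : bnd (Q.G s) (bndI (Q.G' s) B') = B' := bnd_bndI (Q.gg' s) B'
    have h2 := str_bnd_mul (Q.g_symm s) (bndI (Q.G' s) H) (bndI (Q.G' s) B')
    rw [h1, bnd_bndI (Q.gg' s) H] at h2
    rw [← h2]
    exact hH.2 _ (Q.bndI_mem hB')

theorem bnd_inj (s : Shp S) : Function.Injective (bnd (S := S) (T := T) (T' := T') (Q.G s)) :=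
  Function.LeftInverse.injective (g := bndI (Q.G' s)) (fun F => bndI_bnd (Q.g'g s) F)

theorem a_bnd (s : Shp S) (t : Shp T) (t' : Shp T') : Q.a t (s.p t') = Q.a (s.p t) t' := by
  have h1 := (Submodule.equivMapOfInjective _ (Q.bnd_inj s) (Q.P t (s.p t'))).finrank_eq
  have h2 := (Submodule.equivMapOfInjective _ (Q.bnd_inj s) (Q.N t (s.p t'))).finrank_eq
  rw [map_bnd_P] at h1
  rw [map_bnd_N] at h2
  unfold a
  rw [h1, h2]

theorem finrank_P_bnd (s : Shp S) (t : Shp T) (t' : Shp T') :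
    finrank K (Q.P t (s.p t')) = finrank K (Q.P (s.p t) t') := by
  have h1 := (Submodule.equivMapOfInjective _ (Q.bnd_inj s) (Q.P t (s.p t'))).finrank_eq
  rw [map_bnd_P] at h1
  exact h1

/-- `a s t` is `A (card S + card T)` -/
theorem a_eq_A (s : Shp S) (t : Shp T) : Q.a s t = Q.A (Fintype.card S + Fintype.card T) := by
  have h1 : Q.a s t = Q.a (s.p Shp.e) t := Q.a_congr (Q.Pl_runit s).symm (Q.Pl_refl t)
  have h2 : Q.Pl (s.p t) (lin (Fintype.card S + Fintype.card T)) := by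
    have := Q.Pl_lin (s.p t)
    rwa [Fintype.card_sum] at this
  rw [h1, ← Q.a_bnd, Q.a_congr (Q.Pl_refl Shp.e) h2]
  rfl

/-- `dim P s t` is `h (card S + card T)` -/
theorem finrank_P (s : Shp S) (t : Shp T) :
    (finrank K (Q.P s t) : ℝ) = Q.h (Fintype.card S + Fintype.card T) := by
  have h1 : finrank K (Q.P s t) = finrank K (Q.P (s.p Shp.e) t) :=
    Q.finrank_P_congr (Q.Pl_runit s).symm (Q.Pl_refl t)
  rw [h1, ← Q.finrank_P_bnd, Q.finrank_P_e, Fintype.card_sum]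

/-- the adjoint is in `P` -/
theorem adj_mem {f : Matrix (S → α) (S → α) K} (hf : f ∈ Q.P s s) :
    adj (Q.G s) (Q.G' s) f ∈ Q.P s s := by
  have h : adj (Q.G s) (Q.G' s) f =
      bnd (Q.G s) (kr f (1 : Matrix (S → α) (S → α) K) * cupG (Q.G' s)) *
        pm α K (Equiv.sumEmpty S Empty).symm := by
    ext c d
    rw [mul_pm_apply]
    have h1 : ∀ s' : S → α, (kr f (1 : Matrix (S → α) (S → α) K) * cupG (Q.G' s))
        (Sum.elim s' c) ((d ∘ (Equiv.sumEmpty S Empty).symm.symm) ∘ Sum.inr) =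
        (f * Q.G' s) s' c := by
      intro s'
      rw [Matrix.mul_apply, Matrix.mul_apply, ← (Equiv.sumArrowEquivProdArrow S S α).symm.sum_comp,
        Fintype.sum_prod_type]
      refine Finset.sum_congr rfl ?_
      intro x _
      rw [Finset.sum_eq_single c]
      · show f s' x * (1 : Matrix (S → α) (S → α) K) c c * Q.G' s x c = f s' x * Q.G' s x c
        rw [Matrix.one_apply_eq, mul_one]
      · intro y _ hy
        show f s' x * (1 : Matrix (S → α) (S → α) K) c y * Q.G' s x y = 0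
        rw [Matrix.one_apply_ne (Ne.symm hy), mul_zero, zero_mul]
      · intro hc
        exact absurd (Finset.mem_univ c) hc
    show (Q.G s * f * Q.G' s) d c = ∑ s' : S → α, Q.G s _ s' * _
    simp_rw [h1]
    rw [Matrix.mul_assoc, Matrix.mul_apply]
    rfl
  rw [h]
  exact Q.mul_mem (Q.bnd_mem (Q.mul_mem (Q.kr_mem hf (Q.one_mem s)) (Q.cup_mem s)))
    (Q.runit_symm_mem s)

/-- `1 ⊗ A` is numerically trivial if `A` is -/
theorem one_kr_mem_N {A : Matrix (T' → α) (T → α) K} (hA : A ∈ Q.N t t') :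
    kr (1 : Matrix (S → α) (S → α) K) A ∈ Q.N (s.p t) (s.p t') := by
  have h1 : bnd (Q.G s) (kr (1 : Matrix (S → α) (S → α) K) A) =
      A * bnd (Q.G s) (1 : Matrix (S ⊕ T → α) (S ⊕ T → α) K) := by
    rw [← bnd_one_kr, Matrix.mul_one]
  have h2 : bnd (Q.G s) (kr (1 : Matrix (S → α) (S → α) K) A) ∈ Q.N (s.p (s.p t)) t' := by
    rw [h1]
    exact Q.N_mul_right hA (Q.bnd_mem (Q.one_mem _))
  rw [← map_bnd_N] at h2
  obtain ⟨F, hF, hF2⟩ := h2
  rw [← Q.bnd_inj s hF2]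
  exact hF

/-- `A ⊗ 1` is numerically trivial if `A` is -/
theorem kr_one_mem_N {A : Matrix (T' → α) (T → α) K} (hA : A ∈ Q.N t t') :
    kr A (1 : Matrix (S → α) (S → α) K) ∈ Q.N (t.p s) (t'.p s) := by
  have h1 : kr A (1 : Matrix (S → α) (S → α) K) =
      Q.sw s t' * (kr (1 : Matrix (S → α) (S → α) K) A * Q.sw t s) := by
    rw [← Q.sw_kr hA.1 (Q.one_mem s), ← Matrix.mul_assoc, Q.sw_sw, Matrix.one_mul]
  rw [h1]
  exact Q.N_mul_left (Q.sw_mem s t') (Q.N_mul_right (Q.one_kr_mem_N hA) (Q.sw_mem t s))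

end SSys

end ZS
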