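import Pool.Agent.W_f569db_zs.Defs
import Pool.Agent.WeilH_h6.NT
import Pool.Agent.WeilH_h6.Sel

set_option autoImplicit false

/-!
# Bridge A: the varieties `X^s`, bases of `H(X^s)`, matrices of linear maps
-/

noncomputable section

namespace ZS

open AlgebraicGeometry CategoryTheory MonoidalCategory ZO
open scoped TensorProduct DirectSum
open Pool.Agent.WeilH_h6 Pool.Agent.WeilH_h6.VarClass Pool.Agent.WeilH_h6.Weil

universe u v w

variable {k : Type u} [Field k] {𝒱 : VarClass k}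

/-- the variety `X^s` -/
def ob (X : 𝒱.Obj) : {S : Type} → Shp S → 𝒱.Obj
  | _, .e => Obj.pt
  | _, .o => X
  | _, .p s t => (ob X s).prod (ob X t)

theorem ob_lin (X : 𝒱.Obj) (n : ℕ) : ob X (lin n) = X.pow n := by
  induction n with
  | zero => rfl
  | succ n ih =>
    change (ob X (lin n)).prod X = (X.pow n).prod X
    rw [ih]

variable {K : Type v} [Field K] (W : Weil.{u, v, w} 𝒱 K) {X : 𝒱.Obj} {α : Type}
  (bs : Module.Basis α K (W.H X))

theorem exists_pt_basis : ∃ B : Module.Basis (Empty → α) K (W.H (Obj.pt : 𝒱.Obj)),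
    ∀ c, B c = 1 := by
  have h1 : (1 : W.H (Obj.pt : 𝒱.Obj)) ≠ 0 := by
    intro h
    have h2 := W.tr_pt_one
    rw [h, map_zero] at h2
    exact one_ne_zero h2.symm
  refine ⟨Module.Basis.mk (v := fun _ : Empty → α => (1 : W.H (Obj.pt : 𝒱.Obj))) ?_ ?_,
    fun c => ?_⟩
  · rw [linearIndependent_unique_iff]
    exact h1
  · intro x _
    have h2 : x = W.tr Obj.pt x • (1 : W.H (Obj.pt : 𝒱.Obj)) := W.eq_smul_one x
    rw [h2]
    exact Submodule.smul_mem _ _ (Submodule.subset_span ⟨fun s => s.elim, rfl⟩)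
  · rw [Module.Basis.mk_apply]

/-- the basis of `H(X^s)`: external products of the basis vectors `bs` -/
def bS : {S : Type} → (s : Shp S) → Module.Basis (S → α) K (W.H (ob X s))
  | _, .e => Classical.choose (exists_pt_basis W (𝒱 := 𝒱) (α := α))
  | _, .o => bs.reindex (Equiv.funUnique Unit α).symm
  | _, .p s t => ((((bS s).tensorProduct (bS t)).map (W.ku (ob X s) (ob X t))).reindex
      (Equiv.sumArrowEquivProdArrow _ _ α).symm :)

theorem bS_e (c : Empty → α) : bS W bs Shp.e c = (1 : W.H (Obj.pt : 𝒱.Obj)) :=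
  Classical.choose_spec (exists_pt_basis W (𝒱 := 𝒱) (α := α)) c

theorem bS_o (c : Unit → α) : bS W bs Shp.o c = bs (c ()) := by
  change bs.reindex (Equiv.funUnique Unit α).symm c = _
  rw [Module.Basis.reindex_apply]
  rfl

theorem bS_p {S T : Type} (s : Shp S) (t : Shp T) (c : S ⊕ T → α) : bS W bs (s.p t) c =
    W.p1 (ob X s) (ob X t) (bS W bs s (c ∘ Sum.inl)) *
      W.p2 (ob X s) (ob X t) (bS W bs t (c ∘ Sum.inr)) := by
  change (((bS W bs s).tensorProduct (bS W bs t)).map (W.ku (ob X s) (ob X t))).reindex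
      (Equiv.sumArrowEquivProdArrow _ _ α).symm c = _
  rw [Module.Basis.reindex_apply, Module.Basis.map_apply, Equiv.symm_symm]
  have h1 : (Equiv.sumArrowEquivProdArrow S T α) c = (c ∘ Sum.inl, c ∘ Sum.inr) := rfl
  rw [h1, Module.Basis.tensorProduct_apply, W.ku_tmul]

/-- coordinates of an external product -/
theorem bS_repr_p {S T : Type} (s : Shp S) (t : Shp T) (x : W.H (ob X s)) (y : W.H (ob X t))
    (c : S ⊕ T → α) : (bS W bs (s.p t)).repr (W.p1 (ob X s) (ob X t) x * W.p2 (ob X s) (ob X t) y) c =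
      (bS W bs s).repr x (c ∘ Sum.inl) * (bS W bs t).repr y (c ∘ Sum.inr) := by
  change ((((bS W bs s).tensorProduct (bS W bs t)).map (W.ku (ob X s) (ob X t))).reindex
      (Equiv.sumArrowEquivProdArrow _ _ α).symm).repr _ c = _
  rw [Module.Basis.repr_reindex_apply, Equiv.symm_symm, Module.Basis.map_repr,
    LinearEquiv.trans_apply, W.ku_symm]
  have h1 : (Equiv.sumArrowEquivProdArrow S T α) c = (c ∘ Sum.inl, c ∘ Sum.inr) := rfl
  rw [h1, Module.Basis.tensorProduct_repr_tmul_apply, smul_eq_mul, mul_comm]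

variable {S S' S'' : Type}

/-- the matrix of a linear map `H(X^s) → H(X^s')` -/
def mt (s : Shp S) (s' : Shp S') :
    (W.H (ob X s) →ₗ[K] W.H (ob X s')) →ₗ[K] Matrix (S' → α) (S → α) K where
  toFun φ := Matrix.of fun c d => (bS W bs s').repr (φ (bS W bs s d)) c
  map_add' φ ψ := by
    ext c d
    simp [Matrix.of_apply]
  map_smul' a φ := by
    ext c d
    simp [Matrix.of_apply]

theorem mt_apply (s : Shp S) (s' : Shp S') (φ : W.H (ob X s) →ₗ[K] W.H (ob X s')) (c : S' → α)
    (d : S → α) : mt W bs s s' φ c d = (bS W bs s').repr (φ (bS W bs s d)) c := rfl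

theorem mt_injective (s : Shp S) (s' : Shp S') : Function.Injective (mt W bs s s') := by
  intro φ ψ h
  refine (bS W bs s).ext fun d => ?_
  refine (bS W bs s').repr.injective ?_
  ext c
  exact congrFun (congrFun h c) d

theorem mt_id [DecidableEq S] [Fintype S] [DecidableEq α] (s : Shp S) :
    mt W bs s s LinearMap.id = 1 := by
  ext c d
  rw [mt_apply, LinearMap.id_apply, Module.Basis.repr_self, Matrix.one_apply, Finsupp.single_apply]
  simp only [eq_comm]

theorem mt_comp [Fintype S'] [DecidableEq S'] [Fintype α] [DecidableEq α] (s : Shp S) (s' : Shp S')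
    (s'' : Shp S'') (φ : W.H (ob X s) →ₗ[K] W.H (ob X s'))
    (ψ : W.H (ob X s') →ₗ[K] W.H (ob X s'')) :
    mt W bs s s'' (ψ ∘ₗ φ) = mt W bs s' s'' ψ * mt W bs s s' φ := by
  ext c d
  rw [mt_apply, LinearMap.comp_apply, Matrix.mul_apply]
  conv_lhs => rw [← (bS W bs s').sum_repr (φ (bS W bs s d))]
  rw [map_sum, map_sum, Finsupp.finsetSum_apply]
  refine Finset.sum_congr rfl fun e _ => ?_
  rw [map_smul, map_smul, Finsupp.smul_apply, smul_eq_mul, mul_comm]
  rfl

/-- external products of linear maps -/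
theorem mt_ext {T T' : Type} (s : Shp S) (s' : Shp S') (t : Shp T) (t' : Shp T')
    (φ : W.H (ob X s) →ₗ[K] W.H (ob X s')) (ψ : W.H (ob X t) →ₗ[K] W.H (ob X t')) :
    mt W bs (s.p t) (s'.p t') (W.extHom φ ψ) = kr (mt W bs s s' φ) (mt W bs t t' ψ) := by
  ext c d
  change (bS W bs (s'.p t')).repr (W.extHom φ ψ (bS W bs (s.p t) d)) c = _
  rw [bS_p, W.extHom_apply]
  exact bS_repr_p W bs s' t' _ _ c

/-- a linear map which permutes the basis vectors -/
theorem mt_pm [DecidableEq α] [Fintype S] [DecidableEq S] [Fintype S'] [DecidableEq S'] (s : Shp S)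
    (s' : Shp S') (f : S ≃ S') (φ : W.H (ob X s) →ₗ[K] W.H (ob X s'))
    (h : ∀ d : S → α, φ (bS W bs s d) = bS W bs s' (d ∘ f.symm)) :
    mt W bs s s' φ = pm α K f := by
  classical
  ext c d
  rw [mt_apply, h, Module.Basis.repr_self, Finsupp.single_apply]
  unfold pm
  rw [Matrix.of_apply]
  congr 1
  rw [eq_iff_iff]
  constructor
  · rintro rfl
    funext i
    simp
  · rintro rfl
    funext i
    simp

/-- the matrices of the algebraic maps -/
def PS (s : Shp S) (s' : Shp S') : Submodule K (Matrix (S' → α) (S → α) K) :=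
  (W.algHom (ob X s) (ob X s')).map (mt W bs s s')

theorem mt_mem_PS {s : Shp S} {s' : Shp S'} {φ : W.H (ob X s) →ₗ[K] W.H (ob X s')}
    (h : φ ∈ W.algHom (ob X s) (ob X s')) : mt W bs s s' φ ∈ PS W bs s s' :=
  Submodule.mem_map_of_mem h

theorem mt_mem_PS_iff {s : Shp S} {s' : Shp S'} {φ : W.H (ob X s) →ₗ[K] W.H (ob X s')} :
    mt W bs s s' φ ∈ PS W bs s s' ↔ φ ∈ W.algHom (ob X s) (ob X s') :=
  ⟨fun ⟨ψ, hψ, h⟩ => by rwa [← mt_injective W bs s s' h], fun h => mt_mem_PS W bs h⟩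

end ZS
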