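import Pool.Agent.W_f569db_zs.BrA

set_option autoImplicit false

/-!
# Bridge B: parity, planar isomorphisms, signed exchange
-/

noncomputable section

namespace ZS

open AlgebraicGeometry CategoryTheory MonoidalCategory ZO
open scoped TensorProduct DirectSum
open Pool.Agent.WeilH_h6 Pool.Agent.WeilH_h6.VarClass Pool.Agent.WeilH_h6.Weil

universe u v w

variable {k : Type u} [Field k] {𝒱 : VarClass k} {K : Type v} [Field K] (W : Weil.{u, v, w} 𝒱 K)
  {X : 𝒱.Obj} {α : Type} (bs : Module.Basis α K (W.H X)) (π : α → ℕ)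

variable {S S' S'' T T' U : Type}

/-- the degree (modulo 2) of a word -/
def dw (π : α → ℕ) : {S : Type} → (s : Shp S) → (S → α) → ℕ
  | _, .e, _ => 0
  | _, .o, c => π (c ())
  | _, .p s t, c => dw π s (c ∘ Sum.inl) + dw π t (c ∘ Sum.inr)

/-- the parity of a basis vector -/
def eps (K : Type v) [Field K] (π : α → ℕ) (a : α) : K := (-1) ^ π a

theorem eps_sq (a : α) : eps K π a * eps K π a = 1 := by
  unfold eps
  rw [← mul_pow, neg_mul_neg, one_mul, one_pow]

theorem prod_eps {S : Type} (s : Shp S) : ∀ [Fintype S] (c : S → α),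
    ∏ i, eps K π (c i) = (-1) ^ dw π s c := by
  induction s with
  | e =>
    intro _ c
    rw [Finset.univ_eq_empty, Finset.prod_empty]
    exact (pow_zero _).symm
  | o =>
    intro _ c
    rw [Fintype.prod_unique]
    rfl
  | @p S T s t ih1 ih2 =>
    intro inst c
    have : Fintype S := Fintype.ofInjective (Sum.inl : S → S ⊕ T) Sum.inl_injective
    have : Fintype T := Fintype.ofInjective (Sum.inr : T → S ⊕ T) Sum.inr_injective
    have h0 : inst = instFintypeSum S T := Subsingleton.elim _ _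
    subst h0
    rw [Fintype.prod_sum_type]
    have h2 := ih1 (c ∘ Sum.inl)
    have h3 := ih2 (c ∘ Sum.inr)
    simp only [Function.comp_apply] at h2 h3
    rw [h2, h3, ← pow_add]
    rfl

variable (hπ : ∀ a, W.par X (bs a) = ((-1 : K) ^ π a) • bs a)

include hπ in
theorem par_bS (s : Shp S) (c : S → α) :
    W.par (ob X s) (bS W bs s c) = ((-1 : K) ^ dw π s c) • bS W bs s c := by
  revert c
  induction s with
  | e =>
    intro c
    have h : W.par (Obj.pt : 𝒱.Obj) 1 = 1 := W.par_algSpan (W.one_mem_algSpan _)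
    have h2 : W.par (ob X Shp.e) (bS W bs Shp.e c) = W.par (Obj.pt : 𝒱.Obj) (1 : W.H (Obj.pt : 𝒱.Obj)) := by
      rw [← bS_e W bs c]; rfl
    rw [h2, h, bS_e]
    change _ = ((-1 : K) ^ 0) • (1 : W.H (Obj.pt : 𝒱.Obj))
    rw [pow_zero, one_smul]
  | o =>
    intro c
    rw [bS_o]
    exact hπ _
  | @p S T s t ih1 ih2 =>
    intro c
    rw [bS_p]
    change W.par ((ob X s).prod (ob X t)) _ = _
    rw [W.par_mul, W.par_pull, W.par_pull, ih1, ih2, map_smul, map_smul, smul_mul_smul_comm,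
      ← pow_add]
    rfl

/-- the parity operator in coordinates -/
theorem mt_par [Fintype S] [DecidableEq S] [DecidableEq α] [Fintype α] (s : Shp S)
    (hπ : ∀ a, W.par X (bs a) = ((-1 : K) ^ π a) • bs a) :
    mt W bs s s (W.par (ob X s)) = dg (eps K π) S := by
  ext c d
  rw [mt_apply, par_bS W bs π hπ, map_smul, Module.Basis.repr_self, Finsupp.smul_apply,
    Finsupp.single_apply]
  unfold dg
  rw [Matrix.diagonal_apply, prod_eps (K := K) π s c]
  by_cases h : d = c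
  · subst h
    rw [if_pos rfl, if_pos rfl, smul_eq_mul, mul_one]
  · rw [if_neg h, if_neg (fun h' => h h'.symm), smul_zero]

theorem even_PS [Fintype S] [DecidableEq S] [Fintype S'] [DecidableEq S'] [DecidableEq α] [Fintype α]
    {s : Shp S} {s' : Shp S'} (hπ : ∀ a, W.par X (bs a) = ((-1 : K) ^ π a) • bs a)
    {A : Matrix (S' → α) (S → α) K} (hA : A ∈ PS W bs s s') :
    dg (eps K π) S' * A = A * dg (eps K π) S := by
  obtain ⟨φ, hφ, rfl⟩ := hA
  rw [← mt_par W bs π s hπ, ← mt_par W bs π s' hπ, ← mt_comp, ← mt_comp]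
  congr 1
  refine LinearMap.ext fun x => ?_
  exact (W.par_algHom hφ x).symm

theorem one_mem_PS [Fintype S] [DecidableEq S] [DecidableEq α] (s : Shp S) :
    (1 : Matrix (S → α) (S → α) K) ∈ PS W bs s s := by
  rw [← mt_id W bs s]
  exact mt_mem_PS W bs (W.id_mem_algHom _)

theorem mul_mem_PS [Fintype S'] [DecidableEq S'] [DecidableEq α] [Fintype α] {s : Shp S} {s' : Shp S'}
    {s'' : Shp S''} {A : Matrix (S'' → α) (S' → α) K} {B : Matrix (S' → α) (S → α) K}
    (hA : A ∈ PS W bs s' s'') (hB : B ∈ PS W bs s s') : A * B ∈ PS W bs s s'' := by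
  obtain ⟨φ, hφ, rfl⟩ := hA
  obtain ⟨ψ, hψ, rfl⟩ := hB
  rw [← mt_comp]
  exact mt_mem_PS W bs (W.comp_mem_algHom hψ hφ)

theorem kr_mem_PS [CharZero K] {s : Shp S} {s' : Shp S'} {t : Shp T} {t' : Shp T'}
    {A : Matrix (S' → α) (S → α) K} {B : Matrix (T' → α) (T → α) K}
    (hA : A ∈ PS W bs s s') (hB : B ∈ PS W bs t t') : kr A B ∈ PS W bs (s.p t) (s'.p t') := by
  obtain ⟨φ, hφ, rfl⟩ := hA
  obtain ⟨ψ, hψ, rfl⟩ := hB
  rw [← mt_ext]
  exact mt_mem_PS W bs (W.extHom_mem_algHom hφ hψ)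

section planar

variable [Fintype S] [DecidableEq S] [Fintype T] [DecidableEq T] [Fintype U] [DecidableEq U]
  [DecidableEq α]

theorem assoc_mem_PS (s : Shp S) (t : Shp T) (u : Shp U) :
    pm α K (Equiv.sumAssoc S T U) ∈ PS W bs ((s.p t).p u) (s.p (t.p u)) := by
  rw [← mt_pm W bs ((s.p t).p u) (s.p (t.p u)) (Equiv.sumAssoc S T U)
    (W.pull (assocM (ob X s) (ob X t) (ob X u))).toLinearMap]
  · exact mt_mem_PS W bs (W.pull_mem_algHom _)
  · intro d
    rw [bS_p, bS_p, bS_p, bS_p]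
    exact W.pull_assocM _ _ _ _ _ _

/-- the inverse of the associator -/
abbrev assocI (Y Z T : 𝒱.Obj) : (Y.prod Z).prod T ⟶ Y.prod (Z.prod T) :=
  Obj.lift (Obj.fst (Y.prod Z) T ≫ Obj.fst Y Z)
    (Obj.lift (Obj.fst (Y.prod Z) T ≫ Obj.snd Y Z) (Obj.snd (Y.prod Z) T))

theorem pull_assocI (Y Z T : 𝒱.Obj) (y : W.H Y) (z : W.H Z) (t : W.H T) :
    W.pull (assocI Y Z T)
      (W.p1 Y (Z.prod T) y * W.p2 Y (Z.prod T) (W.p1 Z T z * W.p2 Z T t)) =
    W.p1 (Y.prod Z) T (W.p1 Y Z y * W.p2 Y Z z) * W.p2 (Y.prod Z) T t := by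
  simp only [map_mul, ← W.pull_comp, Obj.lift_fst, Obj.lift_snd, mul_assoc, ← Category.assoc]

theorem assoc_symm_mem_PS (s : Shp S) (t : Shp T) (u : Shp U) :
    pm α K (Equiv.sumAssoc S T U).symm ∈ PS W bs (s.p (t.p u)) ((s.p t).p u) := by
  rw [← mt_pm W bs (s.p (t.p u)) ((s.p t).p u) (Equiv.sumAssoc S T U).symm
    (W.pull (assocI (ob X s) (ob X t) (ob X u))).toLinearMap]
  · exact mt_mem_PS W bs (W.pull_mem_algHom _)
  · intro d
    rw [bS_p, bS_p, bS_p, bS_p]
    exact pull_assocI W _ _ _ _ _ _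

theorem lunit_mem_PS (s : Shp S) : pm α K (Equiv.emptySum Empty S) ∈ PS W bs (Shp.e.p s) s := by
  rw [← mt_pm W bs (Shp.e.p s) s (Equiv.emptySum Empty S)
    (W.pull (Obj.lift (ob X s).toPt (𝟙 (ob X s)))).toLinearMap]
  · exact mt_mem_PS W bs (W.pull_mem_algHom _)
  · intro d
    rw [bS_p, bS_e]
    change W.pull (Obj.lift (ob X s).toPt (𝟙 (ob X s))) (W.p1 Obj.pt (ob X s) 1 *
      W.p2 Obj.pt (ob X s) (bS W bs s (d ∘ Sum.inr))) = _
    rw [map_one, one_mul, ← W.pull_comp, Obj.lift_snd, W.pull_id]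
    rfl

theorem lunit_symm_mem_PS (s : Shp S) :
    pm α K (Equiv.emptySum Empty S).symm ∈ PS W bs s (Shp.e.p s) := by
  rw [← mt_pm W bs s (Shp.e.p s) (Equiv.emptySum Empty S).symm
    (W.pull (Obj.snd Obj.pt (ob X s))).toLinearMap]
  · exact mt_mem_PS W bs (W.pull_mem_algHom _)
  · intro d
    rw [bS_p, bS_e]
    change W.pull (Obj.snd Obj.pt (ob X s)) (bS W bs s d) = W.p1 Obj.pt (ob X s) 1 *
      W.p2 Obj.pt (ob X s) (bS W bs s d)
    rw [map_one, one_mul]

theorem runit_mem_PS (s : Shp S) : pm α K (Equiv.sumEmpty S Empty) ∈ PS W bs (s.p Shp.e) s := by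
  rw [← mt_pm W bs (s.p Shp.e) s (Equiv.sumEmpty S Empty)
    (W.pull (Obj.lift (𝟙 (ob X s)) (ob X s).toPt)).toLinearMap]
  · exact mt_mem_PS W bs (W.pull_mem_algHom _)
  · intro d
    rw [bS_p, bS_e]
    change W.pull (Obj.lift (𝟙 (ob X s)) (ob X s).toPt) (W.p1 (ob X s) Obj.pt
      (bS W bs s (d ∘ Sum.inl)) * W.p2 (ob X s) Obj.pt 1) = _
    rw [map_one, mul_one, ← W.pull_comp, Obj.lift_fst, W.pull_id]
    rfl

theorem runit_symm_mem_PS (s : Shp S) :
    pm α K (Equiv.sumEmpty S Empty).symm ∈ PS W bs s (s.p Shp.e) := by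
  rw [← mt_pm W bs s (s.p Shp.e) (Equiv.sumEmpty S Empty).symm
    (W.pull (Obj.fst (ob X s) Obj.pt)).toLinearMap]
  · exact mt_mem_PS W bs (W.pull_mem_algHom _)
  · intro d
    rw [bS_p, bS_e]
    change W.pull (Obj.fst (ob X s) Obj.pt) (bS W bs s d) = W.p1 (ob X s) Obj.pt (bS W bs s d) *
      W.p2 (ob X s) Obj.pt 1
    rw [map_one, mul_one]

end planar

/-- the signed exchange `H(X^s × X^t) → H(X^t × X^s)` -/
def swL (X : 𝒱.Obj) (s : Shp S) (t : Shp T) : W.H (ob X (s.p t)) →ₗ[K] W.H (ob X (t.p s)) :=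
  (W.pull (swapM (ob X t) (ob X s))).toLinearMap

/-- the external product of two linear maps -/
def exL {s : Shp S} {s' : Shp S'} {t : Shp T} {t' : Shp T'} (φ : W.H (ob X s) →ₗ[K] W.H (ob X s'))
    (ψ : W.H (ob X t) →ₗ[K] W.H (ob X t')) : W.H (ob X (s.p t)) →ₗ[K] W.H (ob X (s'.p t')) :=
  W.extHom φ ψ

/-- the matrix of the signed exchange -/
def swS (s : Shp S) (t : Shp T) : Matrix (T ⊕ S → α) (S ⊕ T → α) K :=
  mt W bs (s.p t) (t.p s) (swL W X s t)

theorem swS_mem (s : Shp S) (t : Shp T) : swS W bs s t ∈ PS W bs (s.p t) (t.p s) :=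
  mt_mem_PS W bs (W.pull_mem_algHom _)

theorem swS_swS [Fintype S] [DecidableEq S] [Fintype T] [DecidableEq T] [DecidableEq α] [Fintype α]
    (s : Shp S) (t : Shp T) : swS W bs t s * swS W bs s t = 1 := by
  have h : swapM (ob X s) (ob X t) ≫ swapM (ob X t) (ob X s) = 𝟙 _ := by
    refine Obj.hom_ext ?_ ?_
    · rw [Category.assoc, Obj.lift_fst, Obj.lift_snd, Category.id_comp]
    · rw [Category.assoc, Obj.lift_snd, Obj.lift_fst, Category.id_comp]
  unfold swS
  rw [← mt_comp, ← mt_id W bs (s.p t)]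
  congr 1
  have key : ∀ x : W.H ((ob X s).prod (ob X t)),
      W.pull (swapM (ob X s) (ob X t)) (W.pull (swapM (ob X t) (ob X s)) x) = x := by
    intro x
    rw [← W.pull_comp, h, W.pull_id]
  exact LinearMap.ext key

theorem swS_kr [CharZero K] [Fintype S] [DecidableEq S] [Fintype S'] [DecidableEq S'] [Fintype T]
    [DecidableEq T] [Fintype T'] [DecidableEq T'] [DecidableEq α] [Fintype α] {s : Shp S}
    {s' : Shp S'} {t : Shp T} {t' : Shp T'} {A : Matrix (S' → α) (S → α) K}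
    {B : Matrix (T' → α) (T → α) K} (hA : A ∈ PS W bs s s') (hB : B ∈ PS W bs t t') :
    swS W bs s' t' * kr A B = kr B A * swS W bs s t := by
  obtain ⟨φ, hφ, rfl⟩ := hA
  obtain ⟨ψ, hψ, rfl⟩ := hB
  unfold swS
  have e1 : kr (mt W bs s s' φ) (mt W bs t t' ψ) = mt W bs (s.p t) (s'.p t') (exL W φ ψ) :=
    (mt_ext W bs s s' t t' φ ψ).symm
  have e2 : kr (mt W bs t t' ψ) (mt W bs s s' φ) = mt W bs (t.p s) (t'.p s') (exL W ψ φ) :=
    (mt_ext W bs t t' s s' ψ φ).symm
  rw [e1, e2, ← mt_comp, ← mt_comp]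
  congr 1
  refine LinearMap.ext fun x => ?_
  change W.pull (swapM (ob X t') (ob X s')) (W.extHom φ ψ x) =
    W.extHom ψ φ (W.pull (swapM (ob X t) (ob X s)) x)
  refine W.kunneth_induction (ob X s) (ob X t) (P := fun x => 
    W.pull (swapM (ob X t') (ob X s')) (W.extHom φ ψ x) =
    W.extHom ψ φ (W.pull (swapM (ob X t) (ob X s)) x)) ?_ ?_ x
  · intro a b ha hb
    rw [map_add, map_add, map_add, map_add, ha, hb]
  · intro y z
    refine W.hom_induction (P := fun y => W.pull (swapM (ob X t') (ob X s')) (W.extHom φ ψ 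
      (W.p1 (ob X s) (ob X t) y * W.p2 (ob X s) (ob X t) z)) =
      W.extHom ψ φ (W.pull (swapM (ob X t) (ob X s)) 
      (W.p1 (ob X s) (ob X t) y * W.p2 (ob X s) (ob X t) z))) ?_ ?_ ?_ y
    · simp only [map_zero, zero_mul]
    · intro a b ha hb
      simp only [map_add, add_mul, ha, hb]
    · intro i y hy
      refine W.hom_induction (P := fun z => W.pull (swapM (ob X t') (ob X s')) (W.extHom φ ψ 
        (W.p1 (ob X s) (ob X t) y * W.p2 (ob X s) (ob X t) z)) =
        W.extHom ψ φ (W.pull (swapM (ob X t) (ob X s)) 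
        (W.p1 (ob X s) (ob X t) y * W.p2 (ob X s) (ob X t) z))) ?_ ?_ ?_ z
      · simp only [map_zero, mul_zero]
      · intro a b ha hb
        simp only [map_add, mul_add, ha, hb]
      · intro j z hz
        rw [W.extHom_apply, W.pull_swapM, W.pull_swapM]
        have hy' := W.par_apply hy
        have hz' := W.par_apply hz
        have h1 : W.p2 (ob X t) (ob X s) y * W.p1 (ob X t) (ob X s) z = ((-1 : K) ^ (i * j)) •
            (W.p1 (ob X t) (ob X s) z * W.p2 (ob X t) (ob X s) y) := by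
          refine W.supercomm ?_ ?_
          · rw [W.par_pull, hy', map_smul]
          · rw [W.par_pull, hz', map_smul]
        have h2 : W.p2 (ob X t') (ob X s') (φ y) * W.p1 (ob X t') (ob X s') (ψ z) =
            ((-1 : K) ^ (i * j)) •
            (W.p1 (ob X t') (ob X s') (ψ z) * W.p2 (ob X t') (ob X s') (φ y)) := by
          refine W.supercomm ?_ ?_
          · rw [W.par_pull, ← W.par_algHom hφ, hy', map_smul, map_smul]
          · rw [W.par_pull, ← W.par_algHom hψ, hz', map_smul, map_smul]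
        rw [h1, h2, map_smul, W.extHom_apply]

end ZS
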