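import Pool.Agent.W_f569db_zs.BrB

set_option autoImplicit false

/-!
# Bridge C: the forms `Tr (x y)` on `H(X^s)` and their inverses
-/

noncomputable section

namespace ZS

open AlgebraicGeometry CategoryTheory MonoidalCategory ZO Matrix
open scoped TensorProduct DirectSum
open Pool.Agent.WeilH_h6 Pool.Agent.WeilH_h6.VarClass Pool.Agent.WeilH_h6.Weil

universe u v w

variable {k : Type u} [Field k] {𝒱 : VarClass k} {K : Type v} [Field K] (W : Weil.{u, v, w} 𝒱 K)
  {X : 𝒱.Obj} {α : Type} (bs : Module.Basis α K (W.H X)) (π : α → ℕ)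

variable {S : Type}

/-- the matrix of the Poincaré pairing of `X^s` -/
def GS (s : Shp S) : Matrix (S → α) (S → α) K :=
  Matrix.of fun c d => W.tr (ob X s) (bS W bs s c * bS W bs s d)

theorem GS_apply (s : Shp S) (c d : S → α) :
    GS W bs s c d = W.tr (ob X s) (bS W bs s c * bS W bs s d) := rfl

/-- its inverse -/
def GI (s : Shp S) : Matrix (S → α) (S → α) K :=
  Matrix.of fun c d => (bS W bs s).repr ((W.pd (ob X s)).symm ((bS W bs s).coord c)) d

variable [Fintype S] [DecidableEq S] [Fintype α] [DecidableEq α]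

theorem GI_mul (s : Shp S) : GI W bs s * GS W bs s = 1 := by
  ext c e
  rw [Matrix.mul_apply]
  have h1 : ∀ d, GI W bs s c d * GS W bs s d e = W.tr (ob X s)
      (((bS W bs s).repr ((W.pd (ob X s)).symm ((bS W bs s).coord c)) d • bS W bs s d) *
        bS W bs s e) := by
    intro d
    rw [smul_mul_assoc, map_smul]
    rfl
  rw [Finset.sum_congr rfl fun d _ => h1 d, ← map_sum, ← Finset.sum_mul, Module.Basis.sum_repr,
    ← pd_apply, LinearEquiv.apply_symm_apply, Module.Basis.coord_apply, Module.Basis.repr_self,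
    Matrix.one_apply, Finsupp.single_apply]
  simp only [eq_comm]

theorem mul_GI (s : Shp S) : GS W bs s * GI W bs s = 1 :=
  mul_eq_one_comm.1 (GI_mul W bs s)

theorem GS_par (hπ : ∀ a, W.par X (bs a) = ((-1 : K) ^ π a) • bs a) (s : Shp S) (c d : S → α) :
    (-1 : K) ^ dw π s c * GS W bs s c d = GS W bs s c d * (-1) ^ dw π s d := by
  have h1 : W.tr (ob X s) (W.par (ob X s) (bS W bs s c * bS W bs s d)) = GS W bs s c d :=
    W.tr_par _
  rw [W.par_mul, par_bS W bs π hπ, par_bS W bs π hπ, smul_mul_smul_comm, map_smul, ← GS_apply,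
    smul_eq_mul] at h1
  have h2 : (-1 : K) ^ dw π s d * (-1) ^ dw π s d = 1 := by
    rw [← mul_pow, neg_mul_neg, one_mul, one_pow]
  calc (-1 : K) ^ dw π s c * GS W bs s c d =
      ((-1 : K) ^ dw π s c * (-1) ^ dw π s d * GS W bs s c d) * (-1) ^ dw π s d := by
        rw [show ((-1 : K) ^ dw π s c * (-1) ^ dw π s d * GS W bs s c d) * (-1) ^ dw π s d =
          ((-1 : K) ^ dw π s d * (-1) ^ dw π s d) * ((-1) ^ dw π s c * GS W bs s c d) by ring, h2,
          one_mul]
    _ = GS W bs s c d * (-1) ^ dw π s d := by rw [h1]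

theorem GS_even (hπ : ∀ a, W.par X (bs a) = ((-1 : K) ^ π a) • bs a) (s : Shp S) :
    dg (eps K π) S * GS W bs s = GS W bs s * dg (eps K π) S := by
  ext c d
  unfold dg
  rw [Matrix.diagonal_mul, Matrix.mul_diagonal, prod_eps (K := K) π s, prod_eps (K := K) π s]
  exact GS_par W bs π hπ s c d

theorem GS_symm (hπ : ∀ a, W.par X (bs a) = ((-1 : K) ^ π a) • bs a) (s : Shp S) :
    (GS W bs s)ᵀ = dg (eps K π) S * GS W bs s := by
  ext c d
  unfold dg
  rw [Matrix.diagonal_mul, prod_eps (K := K) π s, Matrix.transpose_apply, GS_par W bs π hπ,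
    GS_apply, W.tr_comm, par_bS W bs π hπ, mul_smul_comm, map_smul, smul_eq_mul, mul_comm]
  rfl

theorem exists_trL (Y : 𝒱.Obj) : ∃ φ ∈ W.algHom Y Obj.pt, ∀ v : W.H Y,
    φ v = W.tr Y v • (1 : W.H (Obj.pt : 𝒱.Obj)) := by
  obtain ⟨φ, hφ, h⟩ := W.exists_push Y.toPt
  refine ⟨φ, hφ, fun v => ?_⟩
  have h1 := h v 1
  rw [map_one, mul_one, mul_one] at h1
  rw [W.eq_smul_one (φ v), h1]

omit [Fintype S] [DecidableEq S] [Fintype α] [DecidableEq α] in
theorem repr_e_one (c : Empty → α) :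
    (bS W bs Shp.e).repr (1 : W.H (Obj.pt : 𝒱.Obj)) c = 1 := by
  rw [← bS_e W bs c]
  exact (congrArg (fun f => f c) ((bS W bs Shp.e).repr_self c)).trans Finsupp.single_eq_same

/-- the trace form as a linear map `H(X^s × X^s) → H(pt)` -/
def capL (s : Shp S) : W.H (ob X (s.p s)) →ₗ[K] W.H (ob X Shp.e) :=
  Classical.choose (exists_trL W (ob X s)) ∘ₗ (W.pull (diag (ob X s))).toLinearMap

theorem cap_mem_PS (s : Shp S) : capG (GS W bs s) ∈ PS W bs (s.p s) Shp.e := by
  have h1 : capG (GS W bs s) = mt W bs (s.p s) Shp.e (capL W s) := by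
    ext c d
    rw [mt_apply, bS_p]
    have h2 := (Classical.choose_spec (exists_trL W (ob X s))).2 (W.pull (diag (ob X s))
      (W.p1 (ob X s) (ob X s) (bS W bs s (d ∘ Sum.inl)) *
        W.p2 (ob X s) (ob X s) (bS W bs s (d ∘ Sum.inr))))
    have h3 : capL W s (W.p1 (ob X s) (ob X s) (bS W bs s (d ∘ Sum.inl)) *
        W.p2 (ob X s) (ob X s) (bS W bs s (d ∘ Sum.inr))) =
        GS W bs s (d ∘ Sum.inl) (d ∘ Sum.inr) • (1 : W.H (Obj.pt : 𝒱.Obj)) := by
      refine h2.trans ?_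
      rw [map_mul (W.pull (diag (ob X s))), W.pull_diag_p1, W.pull_diag_p2]
      rfl
    rw [h3]
    have h4 := congrArg (fun f => f c) (map_smul (bS W bs Shp.e).repr
      (GS W bs s (d ∘ Sum.inl) (d ∘ Sum.inr)) (1 : W.H (Obj.pt : 𝒱.Obj)))
    refine Eq.trans ?_ h4.symm
    change _ = GS W bs s (d ∘ Sum.inl) (d ∘ Sum.inr) * (bS W bs Shp.e).repr
      (1 : W.H (Obj.pt : 𝒱.Obj)) c
    rw [repr_e_one, mul_one]
    rfl
  rw [h1]
  exact mt_mem_PS W bs (W.comp_mem_algHom (W.pull_mem_algHom _)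
    (Classical.choose_spec (exists_trL W (ob X s))).1)

/-- the coordinates of the class of the diagonal -/
theorem repr_delta (s : Shp S) (c : S ⊕ S → α) :
    (bS W bs (s.p s)).repr (W.delta (ob X s)) c = GI W bs s (c ∘ Sum.inl) (c ∘ Sum.inr) := by
  let D : Matrix (S → α) (S → α) K := Matrix.of fun c d =>
    (bS W bs (s.p s)).repr (W.delta (ob X s)) (Sum.elim c d)
  have h0 : W.delta (ob X s) = ∑ p : (S → α) × (S → α), D p.1 p.2 •
      (W.p1 (ob X s) (ob X s) (bS W bs s p.1) * W.p2 (ob X s) (ob X s) (bS W bs s p.2)) := by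
    have h1 := (bS W bs (s.p s)).sum_repr (W.delta (ob X s))
    refine h1.symm.trans ?_
    refine Fintype.sum_equiv (Equiv.sumArrowEquivProdArrow S S α) _ _ fun x => ?_
    rw [bS_p]
    have h2 : Sum.elim (x ∘ Sum.inl) (x ∘ Sum.inr) = x := Sum.elim_comp_inl_inr x
    change _ = (bS W bs (s.p s)).repr (W.delta (ob X s)) (Sum.elim (x ∘ Sum.inl) (x ∘ Sum.inr)) • _
    rw [h2]
    rfl
  have key : ∀ v w : W.H (ob X s), W.tr (ob X s) (v * w) = W.tr (ob X s)
      ((∑ p : (S → α) × (S → α), (D p.1 p.2 * W.tr (ob X s) (v * bS W bs s p.1)) •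
        bS W bs s p.2) * w) := by
    intro v w
    rw [← W.tr_delta, ← mul_assoc, W.central (W.delta_mem _)]
    rw [h0, Finset.mul_sum, Finset.sum_mul, Finset.sum_mul, map_sum, map_sum]
    refine Finset.sum_congr rfl fun p _ => ?_
    have e : W.p1 (ob X s) (ob X s) v * (D p.1 p.2 • (W.p1 (ob X s) (ob X s) (bS W bs s p.1) *
        W.p2 (ob X s) (ob X s) (bS W bs s p.2))) * W.p2 (ob X s) (ob X s) w =
        D p.1 p.2 • (W.p1 (ob X s) (ob X s) (v * bS W bs s p.1) *
          W.p2 (ob X s) (ob X s) (bS W bs s p.2 * w)) := by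
      rw [mul_smul_comm, smul_mul_assoc, map_mul, map_mul]
      simp only [mul_assoc]
    rw [e, map_smul, W.tr_prod, smul_mul_assoc, map_smul, smul_eq_mul, smul_eq_mul, mul_assoc]
  have h1 : GS W bs s * D = 1 := by
    ext a e
    have h2 : bS W bs s a = ∑ p : (S → α) × (S → α), (D p.1 p.2 * W.tr (ob X s)
        (bS W bs s a * bS W bs s p.1)) • bS W bs s p.2 := W.ext_tr fun w => key _ w
    have h3 := congrArg (fun x => (bS W bs s).repr x e) h2
    simp only [map_sum, map_smul, Module.Basis.repr_self, Finsupp.finsetSum_apply,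
      Finsupp.smul_apply, Finsupp.single_apply, smul_eq_mul, mul_ite, mul_one, mul_zero] at h3
    rw [Fintype.sum_prod_type] at h3
    simp only [Finset.sum_ite_eq', Finset.mem_univ, if_true] at h3
    rw [Matrix.mul_apply, Matrix.one_apply, h3]
    refine Finset.sum_congr rfl fun c _ => ?_
    rw [mul_comm]
    rfl
  have h2 : D = GI W bs s := by
    calc D = (GI W bs s * GS W bs s) * D := by rw [GI_mul, Matrix.one_mul]
      _ = GI W bs s := by rw [Matrix.mul_assoc, h1, Matrix.mul_one]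
  rw [← h2]
  change _ = (bS W bs (s.p s)).repr (W.delta (ob X s)) (Sum.elim (c ∘ Sum.inl) (c ∘ Sum.inr))
  rw [Sum.elim_comp_inl_inr]

/-- the class of the diagonal as a linear map `H(pt) → H(X^s × X^s)` -/
def cupL (X : 𝒱.Obj) (s : Shp S) : W.H (ob X Shp.e) →ₗ[K] W.H (ob X (s.p s)) :=
  LinearMap.mulLeft K (W.delta (ob X s)) ∘ₗ (W.pull ((ob X s).prod (ob X s)).toPt).toLinearMap

theorem cup_mem_PS (s : Shp S) : cupG (GI W bs s) ∈ PS W bs Shp.e (s.p s) := by
  have h1 : cupG (GI W bs s) = mt W bs Shp.e (s.p s) (cupL W X s) := by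
    ext c d
    rw [mt_apply, bS_e]
    have h2 : cupL W X s (1 : W.H (Obj.pt : 𝒱.Obj)) = W.delta (ob X s) := by
      change W.delta (ob X s) * W.pull ((ob X s).prod (ob X s)).toPt 1 = _
      rw [map_one, mul_one]
    refine Eq.trans ?_ (congrArg (fun x => (bS W bs (s.p s)).repr x c) h2).symm
    exact (repr_delta W bs s c).symm
  rw [h1]
  exact mt_mem_PS W bs (W.comp_mem_algHom (W.pull_mem_algHom _)
    (W.mulLeft_mem_algHom (W.delta_mem _)))

end ZS
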