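import Pool.Agent.W_f569db_zs.BrE
import Pool.Agent.W_f569db_zs.Par

set_option autoImplicit false

/-!
# Bridge F: numerically trivial endomorphisms and their nilpotency
-/

noncomputable section

namespace ZS

open AlgebraicGeometry CategoryTheory MonoidalCategory ZO Matrix
open scoped TensorProduct DirectSum
open Pool.Agent.WeilH_h6 Pool.Agent.WeilH_h6.VarClass Pool.Agent.WeilH_h6.Weil

universe u v w

section abstract_part

variable {α : Type} [Fintype α] [DecidableEq α] {K : Type*} [Field K] (Q : SSys α K)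

/-- nilpotency for all shapes from nilpotency for the linear shapes -/
theorem nilBelow_of_lin (h : ∀ m, ∀ x ∈ Q.N (lin m) (lin m), IsNilpotent x) (M : ℕ) :
    Q.NilBelow M := by
  intro S _ _ s _ x hx
  obtain ⟨e, h1, h2⟩ := Q.Pl_lin s
  have hee : pm α K e.symm * pm α K e = (1 : Matrix (S → α) (S → α) K) := pm_symm_mul e
  have hx' : pm α K e * x * pm α K e.symm ∈ Q.N (lin (Fintype.card S)) (lin (Fintype.card S)) :=
    Q.N_mul_right (Q.N_mul_left h1 hx) h2
  obtain ⟨n, hn⟩ := h _ _ hx'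
  have h3 : ∀ n : ℕ, (pm α K e * x * pm α K e.symm) ^ n * pm α K e = pm α K e * x ^ n := by
    intro n
    induction n with
    | zero => rw [pow_zero, pow_zero, Matrix.one_mul, Matrix.mul_one]
    | succ n ih =>
      rw [pow_succ, Matrix.mul_assoc, Matrix.mul_assoc (pm α K e * x), hee, Matrix.mul_one,
        ← Matrix.mul_assoc, ih, pow_succ, Matrix.mul_assoc]
  refine ⟨n, ?_⟩
  have h4 := h3 n
  rw [hn, Matrix.zero_mul] at h4
  calc x ^ n = (pm α K e.symm * pm α K e) * x ^ n := by rw [hee, Matrix.one_mul]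
    _ = 0 := by rw [Matrix.mul_assoc, ← h4, Matrix.mul_zero]

end abstract_part

variable {k : Type u} [Field k] {𝒱 : VarClass k} {K : Type v} [Field K] [CharZero K]
  (W : Weil.{u, v, w} 𝒱 K) {X : 𝒱.Obj} {α : Type} [Fintype α] [DecidableEq α]
  (bs : Module.Basis α K (W.H X)) (π : α → ℕ)
  (hπ : ∀ a, W.par X (bs a) = ((-1 : K) ^ π a) • bs a)

variable {S : Type} [Fintype S] [DecidableEq S] (s : Shp S)

/-- the action of an algebraic class in coordinates -/
theorem act_coord {a : W.H ((ob X s).prod (ob X s))} (ha : a ∈ W.algSpan ((ob X s).prod (ob X s)))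
    (v : W.H (ob X s)) : W.act a v = ∑ p : (S → α) × (S → α),
      ((bS W bs (s.p s)).repr a (Sum.elim p.1 p.2) * W.tr (ob X s) (v * bS W bs s p.1)) •
        bS W bs s p.2 := by
  let D : (S → α) → (S → α) → K := fun c d => (bS W bs (s.p s)).repr a (Sum.elim c d)
  have h0 : a = ∑ p : (S → α) × (S → α), D p.1 p.2 •
      (W.p1 (ob X s) (ob X s) (bS W bs s p.1) * W.p2 (ob X s) (ob X s) (bS W bs s p.2)) := by
    have h1 := (bS W bs (s.p s)).sum_repr a
    refine h1.symm.trans ?_
    refine Fintype.sum_equiv (Equiv.sumArrowEquivProdArrow S S α) _ _ fun x => ?_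
    rw [bS_p]
    have h2 : Sum.elim (x ∘ Sum.inl) (x ∘ Sum.inr) = x := Sum.elim_comp_inl_inr x
    change _ = (bS W bs (s.p s)).repr a (Sum.elim (x ∘ Sum.inl) (x ∘ Sum.inr)) • _
    rw [h2]
    rfl
  refine W.ext_tr fun w => ?_
  rw [W.tr_act, ← mul_assoc, W.central ha]
  conv_lhs => rw [h0]
  rw [Finset.mul_sum, Finset.sum_mul, Finset.sum_mul, map_sum, map_sum]
  refine Finset.sum_congr rfl fun p _ => ?_
  have e : W.p1 (ob X s) (ob X s) v * (D p.1 p.2 • (W.p1 (ob X s) (ob X s) (bS W bs s p.1) *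
      W.p2 (ob X s) (ob X s) (bS W bs s p.2))) * W.p2 (ob X s) (ob X s) w =
      D p.1 p.2 • (W.p1 (ob X s) (ob X s) (v * bS W bs s p.1) *
        W.p2 (ob X s) (ob X s) (bS W bs s p.2 * w)) := by
    rw [mul_smul_comm, smul_mul_assoc, map_mul, map_mul]
    simp only [mul_assoc]
  rw [e, map_smul, W.tr_prod, smul_mul_assoc, map_smul, smul_eq_mul, smul_eq_mul, mul_assoc]

omit [Fintype S] [DecidableEq S] in
theorem vM_entry (a : W.H (ob X s)) (c : S → α) (d : Empty → α) :
    vM W bs s a c d = (bS W bs s).repr a c := by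
  rw [vM_apply, mt_apply, bS_e]
  exact congrArg (fun x => (bS W bs s).repr x c) (vec_one W a)

/-- the matrix of the action of a class is the bent vector of the class -/
theorem mt_act {a : W.H ((ob X s).prod (ob X s))} (ha : a ∈ W.algSpan ((ob X s).prod (ob X s))) :
    mt W bs s s (W.act a) = bnd (GS W bs s) (vM W bs (s.p s) a) *
      pm α K (Equiv.sumEmpty S Empty).symm := by
  ext c d
  rw [mt_apply, act_coord W bs s ha, map_sum, Finsupp.finsetSum_apply, Fintype.sum_prod_type]
  simp only [map_smul, Module.Basis.repr_self, Finsupp.smul_apply, Finsupp.single_apply, smul_eq_mul,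
    mul_ite, mul_one, mul_zero, Finset.sum_ite_eq', Finset.mem_univ, if_true]
  rw [mul_pm_apply, bnd_apply]
  refine Finset.sum_congr rfl fun e _ => ?_
  have h1 : vM W bs (s.p s) a (Sum.elim e c) ((d ∘ ⇑(Equiv.sumEmpty S Empty).symm.symm) ∘ Sum.inr) =
      (bS W bs (s.p s)).repr a (Sum.elim e c) := vM_entry W bs (s.p s) a _ _
  have h2 : (d ∘ ⇑(Equiv.sumEmpty S Empty).symm.symm) ∘ Sum.inl = d := by
    funext i
    rfl
  rw [h1, h2, mul_comm]
  rfl

/-- numerically trivial endomorphisms -/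
theorem mt_act_mem_N {a : W.H ((ob X s).prod (ob X s))}
    (ha : a ∈ W.algSpan ((ob X s).prod (ob X s))) :
    mt W bs s s (W.act a) ∈ (sysS W bs π hπ).N s s ↔ W.NT a := by
  rw [mt_act W bs s ha]
  have h1 : vM W bs (s.p s) a ∈ (sysS W bs π hπ).N Shp.e (s.p s) ↔ W.NT a := by
    rw [← map_vM_N]
    constructor
    · rintro ⟨b, hb, h⟩
      rw [← vM_injective W bs (s.p s) h]
      exact hb
    · intro h
      exact Submodule.mem_map_of_mem (show a ∈ ntSub W (ob X (s.p s)) from h)
  rw [← h1]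
  have h2 : (sysS W bs π hπ).G s = GS W bs s := rfl
  constructor
  · intro h
    have h3 := (sysS W bs π hπ).N_mul_right h ((sysS W bs π hπ).runit_mem s)
    rw [Matrix.mul_assoc, pm_symm_mul (Equiv.sumEmpty S Empty), Matrix.mul_one,
      ← (sysS W bs π hπ).map_bnd_N s Shp.e s] at h3
    obtain ⟨F, hF, h4⟩ := h3
    rw [h2] at h4
    have h5 := (sysS W bs π hπ).bnd_inj (T := Empty) (T' := S) s (a₁ := F) (a₂ := vM W bs (s.p s) a) h4
    rwa [← h5]
  · intro h
    refine (sysS W bs π hπ).N_mul_right ?_ ((sysS W bs π hπ).runit_symm_mem s)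
    rw [← (sysS W bs π hπ).map_bnd_N s Shp.e s]
    exact ⟨_, h, rfl⟩

end ZS
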