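import Pool.Agent.W_f569db_zo.Pm

set_option autoImplicit false

/-!
# Zero-one law for the standard conjecture D, without parity operator: abstract setting

`V` is a super vector space with a homogeneous basis indexed by the finite type `α`; the parity of the
basis vector `a` is given by the sign `ε a`.  The objects are *shapes*: iterated products of the unit
object `e` and of the object `o`, with the type of letters as an index, so that the words of shape
`s : Shp S` are the maps `S → α`.  A linear map `V^{⊗ s} → V^{⊗ s'}` is a matrix in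
`Matrix (S' → α) (S → α) K`.

`SSys α K`: a family of spaces `P s s'` of even matrices, closed under products and Kronecker products
`kr`, containing the associativity and unit isomorphisms, the signed exchange `sw`, for every shape an
even super-symmetric nondegenerate form `G s` (as a map to the unit object) and its inverse.

`SSys.N`: the matrices of `P s s'` which are orthogonal to `P s' s` for the supertrace.
-/

noncomputable section

namespace ZS

open Matrix Module ZO

/-- The shapes, indexed by the type of letters. -/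
inductive Shp : Type → Type 1
  | e : Shp Empty
  | o : Shp Unit
  | p {S T : Type} : Shp S → Shp T → Shp (S ⊕ T)

section

variable {α : Type} {K : Type*} [Field K] {S T : Type}

/-- The evaluation `V^{⊗ S} ⊗ V^{⊗ S} → K` given by a bilinear form `G`. -/
def capG (G : Matrix (S → α) (S → α) K) : Matrix (Empty → α) (S ⊕ S → α) K :=
  Matrix.of fun _ c => G (c ∘ Sum.inl) (c ∘ Sum.inr)

/-- The coevaluation `K → V^{⊗ S} ⊗ V^{⊗ S}` given by a matrix `G'`. -/
def cupG (G' : Matrix (S → α) (S → α) K) : Matrix (S ⊕ S → α) (Empty → α) K :=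
  Matrix.of fun c _ => G' (c ∘ Sum.inl) (c ∘ Sum.inr)

/-- The parity operator of `V^{⊗ S}`. -/
def dg [Fintype α] [DecidableEq α] (ε : α → K) (S : Type) [Fintype S] [DecidableEq S] :
    Matrix (S → α) (S → α) K :=
  Matrix.diagonal fun c => ∏ s, ε (c s)

end

/-- A tensor category of even matrices with duality. -/
structure SSys (α : Type) [Fintype α] [DecidableEq α] (K : Type*) [Field K] where
  /-- the morphisms `V^{⊗ s} → V^{⊗ s'}` -/
  P : {S S' : Type} → Shp S → Shp S' → Submodule K (Matrix (S' → α) (S → α) K)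
  /-- the parity of the basis vectors -/
  ε : α → K
  ε_sq : ∀ a, ε a * ε a = 1
  /-- the bilinear forms -/
  G : {S : Type} → Shp S → Matrix (S → α) (S → α) K
  /-- their inverses -/
  G' : {S : Type} → Shp S → Matrix (S → α) (S → α) K
  /-- the signed exchange of two factors -/
  sw : {S T : Type} → Shp S → Shp T → Matrix (T ⊕ S → α) (S ⊕ T → α) K
  gg' : ∀ {S : Type} [Fintype S] [DecidableEq S] (s : Shp S), G s * G' s = 1
  g'g : ∀ {S : Type} [Fintype S] [DecidableEq S] (s : Shp S), G' s * G s = 1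
  g_even : ∀ {S : Type} [Fintype S] [DecidableEq S] (s : Shp S), dg ε S * G s = G s * dg ε S
  g_symm : ∀ {S : Type} [Fintype S] [DecidableEq S] (s : Shp S), (G s)ᵀ = dg ε S * G s
  even : ∀ {S S' : Type} [Fintype S] [DecidableEq S] [Fintype S'] [DecidableEq S'] {s : Shp S}
    {s' : Shp S'} {A : Matrix (S' → α) (S → α) K}, A ∈ P s s' → dg ε S' * A = A * dg ε S
  one_mem : ∀ {S : Type} [Fintype S] [DecidableEq S] (s : Shp S),
    (1 : Matrix (S → α) (S → α) K) ∈ P s s
  mul_mem : ∀ {S S' S'' : Type} [Fintype S] [DecidableEq S] [Fintype S'] [DecidableEq S']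
    [Fintype S''] [DecidableEq S''] {s : Shp S} {s' : Shp S'} {s'' : Shp S''}
    {A : Matrix (S'' → α) (S' → α) K} {B : Matrix (S' → α) (S → α) K},
    A ∈ P s' s'' → B ∈ P s s' → A * B ∈ P s s''
  kr_mem : ∀ {S S' T T' : Type} [Fintype S] [DecidableEq S] [Fintype S'] [DecidableEq S']
    [Fintype T] [DecidableEq T] [Fintype T'] [DecidableEq T'] {s : Shp S} {s' : Shp S'}
    {t : Shp T} {t' : Shp T'} {A : Matrix (S' → α) (S → α) K} {B : Matrix (T' → α) (T → α) K},
    A ∈ P s s' → B ∈ P t t' → kr A B ∈ P (s.p t) (s'.p t')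
  assoc_mem : ∀ {S T U : Type} [Fintype S] [DecidableEq S] [Fintype T] [DecidableEq T]
    [Fintype U] [DecidableEq U] (s : Shp S) (t : Shp T) (u : Shp U),
    pm α K (Equiv.sumAssoc S T U) ∈ P ((s.p t).p u) (s.p (t.p u))
  assoc_symm_mem : ∀ {S T U : Type} [Fintype S] [DecidableEq S] [Fintype T] [DecidableEq T]
    [Fintype U] [DecidableEq U] (s : Shp S) (t : Shp T) (u : Shp U),
    pm α K (Equiv.sumAssoc S T U).symm ∈ P (s.p (t.p u)) ((s.p t).p u)
  lunit_mem : ∀ {S : Type} [Fintype S] [DecidableEq S] (s : Shp S),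
    pm α K (Equiv.emptySum Empty S) ∈ P (Shp.e.p s) s
  lunit_symm_mem : ∀ {S : Type} [Fintype S] [DecidableEq S] (s : Shp S),
    pm α K (Equiv.emptySum Empty S).symm ∈ P s (Shp.e.p s)
  runit_mem : ∀ {S : Type} [Fintype S] [DecidableEq S] (s : Shp S),
    pm α K (Equiv.sumEmpty S Empty) ∈ P (s.p Shp.e) s
  runit_symm_mem : ∀ {S : Type} [Fintype S] [DecidableEq S] (s : Shp S),
    pm α K (Equiv.sumEmpty S Empty).symm ∈ P s (s.p Shp.e)
  sw_mem : ∀ {S T : Type} [Fintype S] [DecidableEq S] [Fintype T] [DecidableEq T] (s : Shp S)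
    (t : Shp T), sw s t ∈ P (s.p t) (t.p s)
  sw_sw : ∀ {S T : Type} [Fintype S] [DecidableEq S] [Fintype T] [DecidableEq T] (s : Shp S)
    (t : Shp T), sw t s * sw s t = 1
  sw_kr : ∀ {S S' T T' : Type} [Fintype S] [DecidableEq S] [Fintype S'] [DecidableEq S']
    [Fintype T] [DecidableEq T] [Fintype T'] [DecidableEq T'] {s : Shp S} {s' : Shp S'}
    {t : Shp T} {t' : Shp T'} {A : Matrix (S' → α) (S → α) K} {B : Matrix (T' → α) (T → α) K},
    A ∈ P s s' → B ∈ P t t' → sw s' t' * kr A B = kr B A * sw s t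
  cap_mem : ∀ {S : Type} [Fintype S] [DecidableEq S] (s : Shp S), capG (G s) ∈ P (s.p s) Shp.e
  cup_mem : ∀ {S : Type} [Fintype S] [DecidableEq S] (s : Shp S), cupG (G' s) ∈ P Shp.e (s.p s)

/-- The letters of the `n`-th power. -/
def L : ℕ → Type
  | 0 => Empty
  | n + 1 => L n ⊕ Unit

/-- The shape of the `n`-th power. -/
def lin : (n : ℕ) → Shp (L n)
  | 0 => Shp.e
  | n + 1 => (lin n).p Shp.o

instance instFintypeL : (n : ℕ) → Fintype (L n)
  | 0 => inferInstanceAs (Fintype Empty)
  | n + 1 => @instFintypeSum (L n) Unit (instFintypeL n) _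

instance instDecidableEqL : (n : ℕ) → DecidableEq (L n)
  | 0 => inferInstanceAs (DecidableEq Empty)
  | n + 1 => @instDecidableEqSum (L n) Unit (instDecidableEqL n) _

variable {α : Type} [Fintype α] [DecidableEq α] {K : Type*} [Field K]

namespace SSys

variable (Q : SSys α K)

/-- The numerically trivial morphisms: the matrices `A ∈ P s s'` such that the supertrace of `A B` is
zero for all `B ∈ P s' s`. -/
def N {S S' : Type} [Fintype S] [DecidableEq S] [Fintype S'] [DecidableEq S'] (s : Shp S)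
    (s' : Shp S') : Submodule K (Matrix (S' → α) (S → α) K) where
  carrier := {A | A ∈ Q.P s s' ∧ ∀ B ∈ Q.P s' s, Matrix.trace (dg Q.ε S' * (A * B)) = 0}
  add_mem' := by
    rintro A A' ⟨h1, h2⟩ ⟨h3, h4⟩
    refine ⟨add_mem h1 h3, fun B hB => ?_⟩
    rw [Matrix.add_mul, Matrix.mul_add, Matrix.trace_add, h2 B hB, h4 B hB, add_zero]
  zero_mem' := ⟨zero_mem _, fun B _ => by
    rw [Matrix.zero_mul, Matrix.mul_zero, Matrix.trace_zero]⟩
  smul_mem' := by
    rintro c A ⟨h1, h2⟩
    refine ⟨Submodule.smul_mem _ c h1, fun B hB => ?_⟩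
    rw [Matrix.smul_mul, Matrix.mul_smul, Matrix.trace_smul, h2 B hB, smul_zero]

theorem mem_N {S S' : Type} [Fintype S] [DecidableEq S] [Fintype S'] [DecidableEq S'] {s : Shp S}
    {s' : Shp S'} {A : Matrix (S' → α) (S → α) K} :
    A ∈ Q.N s s' ↔ A ∈ Q.P s s' ∧ ∀ B ∈ Q.P s' s, Matrix.trace (dg Q.ε S' * (A * B)) = 0 := Iff.rfl

theorem N_le {S S' : Type} [Fintype S] [DecidableEq S] [Fintype S'] [DecidableEq S'] (s : Shp S)
    (s' : Shp S') : Q.N s s' ≤ Q.P s s' := fun _ h => h.1

/-- `dim P s s' - dim N s s'` -/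
def a {S S' : Type} [Fintype S] [DecidableEq S] [Fintype S'] [DecidableEq S'] (s : Shp S)
    (s' : Shp S') : ℝ :=
  (finrank K (Q.P s s') : ℝ) - finrank K (Q.N s s')

/-- the dimension of the space of classes on the `n`-th power -/
def h (n : ℕ) : ℝ := finrank K (Q.P Shp.e (lin n))

/-- the dimension of the space of classes on the `n`-th power modulo the numerically trivial ones -/
def A (n : ℕ) : ℝ := Q.a Shp.e (lin n)

/-- The symmetric group acts on the words by signed permutations which belong to the system. -/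
def HasPerm : Prop :=
  ∀ m : ℕ, ∃ (ρ : Equiv.Perm (L m) →* Matrix (L m → α) (L m → α) K)
    (sgn : Equiv.Perm (L m) → (L m → α) → K),
    (∀ σ, ρ σ ∈ Q.P (lin m) (lin m)) ∧ (∀ σ c, sgn σ c ≠ 0) ∧
      (∀ (σ : Equiv.Perm (L m)) (c : L m → α), ρ σ c (c ∘ σ) = sgn σ c) ∧
        ∀ (σ : Equiv.Perm (L m)) (c d : L m → α), c ∘ σ ≠ d → ρ σ c d = 0

end SSys

/-- the twisted trace radical of a set of square matrices -/
def radE {ι : Type*} [Fintype ι] [DecidableEq ι] (E : Matrix ι ι K)
    (D : Subalgebra K (Matrix ι ι K)) : Submodule K (Matrix ι ι K) where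
  carrier := {A | A ∈ D ∧ ∀ B ∈ D, Matrix.trace (E * (A * B)) = 0}
  add_mem' := by
    rintro A A' ⟨h1, h2⟩ ⟨h3, h4⟩
    refine ⟨add_mem h1 h3, fun B hB => ?_⟩
    rw [Matrix.add_mul, Matrix.mul_add, Matrix.trace_add, h2 B hB, h4 B hB, add_zero]
  zero_mem' := ⟨zero_mem _, fun B _ => by
    rw [Matrix.zero_mul, Matrix.mul_zero, Matrix.trace_zero]⟩
  smul_mem' := by
    rintro c A ⟨h1, h2⟩
    refine ⟨Subalgebra.smul_mem _ h1 c, fun B hB => ?_⟩
    rw [Matrix.smul_mul, Matrix.mul_smul, Matrix.trace_smul, h2 B hB, smul_zero]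

theorem mem_radE {ι : Type*} [Fintype ι] [DecidableEq ι] {E : Matrix ι ι K}
    {D : Subalgebra K (Matrix ι ι K)} {A : Matrix ι ι K} :
    A ∈ radE E D ↔ A ∈ D ∧ ∀ B ∈ D, Matrix.trace (E * (A * B)) = 0 := Iff.rfl

end ZS
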