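import Pool.Agent.W_f569db_zs.BendB
import Pool.Agent.W_f569db_zo.DC
import Pool.Agent.W_f569db_zo.Orb
import Pool.Agent.W_f569db_zo.SymAlg

set_option autoImplicit false

/-!
# The lower bound `b^(2m) ≤ (m+1)^(b^2) * h (2m)`
-/

noncomputable section

namespace ZS

open Matrix Module ZO

set_option linter.unusedSectionVars false

variable {α : Type} [Fintype α] [DecidableEq α] {K : Type*} [Field K]

section orb

variable {S : Type} [Fintype S] [DecidableEq S]
  {ρ : Equiv.Perm S → Matrix (S → α) (S → α) K} {sgn : Equiv.Perm S → (S → α) → K}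

theorem orbS_left (h1 : ∀ (σ : Equiv.Perm S) (c : S → α), ρ σ c (c ∘ σ) = sgn σ c)
    (h0 : ∀ (σ : Equiv.Perm S) (c d : S → α), c ∘ σ ≠ d → ρ σ c d = 0) (e : Equiv.Perm S)
    (A : Matrix (S → α) (S → α) K) (c d : S → α) : (ρ e * A) c d = sgn e c * A (c ∘ e) d := by
  rw [Matrix.mul_apply, Finset.sum_eq_single (c ∘ e)]
  · rw [h1]
  · intro x _ hx
    rw [h0 e c x (Ne.symm hx), zero_mul]
  · intro h
    exact absurd (Finset.mem_univ _) h

theorem orbS_right (h1 : ∀ (σ : Equiv.Perm S) (c : S → α), ρ σ c (c ∘ σ) = sgn σ c)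
    (h0 : ∀ (σ : Equiv.Perm S) (c d : S → α), c ∘ σ ≠ d → ρ σ c d = 0) (e : Equiv.Perm S)
    (A : Matrix (S → α) (S → α) K) (c d : S → α) : (A * ρ e) c (d ∘ e) = A c d * sgn e d := by
  rw [Matrix.mul_apply, Finset.sum_eq_single d]
  · rw [h1]
  · intro x _ hx
    rw [h0 e x (d ∘ e) (fun h => hx (e.surjective.injective_comp_right h)), mul_zero]
  · intro h
    exact absurd (Finset.mem_univ _) h

theorem orbS_eq (hs : ∀ σ c, sgn σ c ≠ 0)
    (h1 : ∀ (σ : Equiv.Perm S) (c : S → α), ρ σ c (c ∘ σ) = sgn σ c)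
    (h0 : ∀ (σ : Equiv.Perm S) (c d : S → α), c ∘ σ ≠ d → ρ σ c d = 0)
    {A : Matrix (S → α) (S → α) K} (hA : ∀ e : Equiv.Perm S, ρ e * A = A * ρ e)
    {q q' : (S → α) × (S → α)} (h : orbCnt S q = orbCnt S q') (hq : A q.1 q.2 = 0) :
    A q'.1 q'.2 = 0 := by
  obtain ⟨e, he⟩ := orb_perm (u := fun s => (q.1 s, q.2 s)) (v := fun s => (q'.1 s, q'.2 s))
    fun p => congrArg Fin.val (congrFun h p)
  have h3 : q'.1 ∘ e = q.1 := funext fun s => congrArg Prod.fst (congrFun he s)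
  have h4 : q'.2 ∘ e = q.2 := funext fun s => congrArg Prod.snd (congrFun he s)
  have h5 := congrFun (congrFun (hA e) q'.1) (q'.2 ∘ e)
  rw [orbS_left h1 h0, orbS_right h1 h0, h3, h4, hq, mul_zero] at h5
  exact (mul_eq_zero.1 h5.symm).resolve_right (hs _ _)

theorem orbS (hs : ∀ σ c, sgn σ c ≠ 0)
    (h1 : ∀ (σ : Equiv.Perm S) (c : S → α), ρ σ c (c ∘ σ) = sgn σ c)
    (h0 : ∀ (σ : Equiv.Perm S) (c d : S → α), c ∘ σ ≠ d → ρ σ c d = 0)
    (C : Submodule K (Matrix (S → α) (S → α) K))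
    (hC : ∀ A ∈ C, ∀ e : Equiv.Perm S, ρ e * A = A * ρ e) :
    finrank K C ≤ (Fintype.card S + 1) ^ (Fintype.card α ^ 2) := by
  classical
  have hinj : Function.Injective (orbMap S C) := by
    rw [← LinearMap.ker_eq_bot, LinearMap.ker_eq_bot']
    intro A hA0
    refine Subtype.ext (Matrix.ext fun c d => ?_)
    have h2 : ∃ q : (S → α) × (S → α), orbCnt S q = orbCnt S (c, d) := ⟨(c, d), rfl⟩
    have h3 := congrFun hA0 (orbCnt S (c, d))
    have h4 : orbMap S C A (orbCnt S (c, d)) = A.1 h2.choose.1 h2.choose.2 := orbVal_pos _ h2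
    rw [h4] at h3
    exact orbS_eq hs h1 h0 (hC A.1 A.2) h2.choose_spec h3
  have h2 := LinearMap.finrank_le_finrank_of_injective hinj
  rw [Module.finrank_fintype_fun_eq_card, Fintype.card_fun, Fintype.card_fin, Fintype.card_prod,
    ← sq] at h2
  exact h2

/-- the image of the group algebra -/
theorem exists_symS [CharZero K] (ρ : Equiv.Perm S →* Matrix (S → α) (S → α) K) :
    ∃ D : Subalgebra K (Matrix (S → α) (S → α) K), IsSemisimpleRing D ∧
      (∀ e : Equiv.Perm S, ρ e ∈ D) ∧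
      D.toSubmodule ≤ Submodule.span K (Set.range fun e : Equiv.Perm S => ρ e) := by
  classical
  let F : MonoidAlgebra K (Equiv.Perm S) →ₐ[K] Matrix (S → α) (S → α) K :=
    MonoidAlgebra.lift K (Matrix (S → α) (S → α) K) (Equiv.Perm S) ρ
  have hF : ∀ e : Equiv.Perm S, F (MonoidAlgebra.of K (Equiv.Perm S) e) = ρ e := by
    intro e
    exact MonoidAlgebra.lift_of (R := K) ρ e
  refine ⟨F.range, ?_, ?_, ?_⟩
  · haveI : NeZero (Nat.card (Equiv.Perm S) : K) :=
      ⟨by exact_mod_cast Nat.card_pos.ne'⟩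
    have : IsSemisimpleRing (MonoidAlgebra K (Equiv.Perm S)) := inferInstance
    exact RingHom.isSemisimpleRing_of_surjective (F.rangeRestrict : MonoidAlgebra K (Equiv.Perm S) →+* F.range)
      F.rangeRestrict_surjective
  · intro e
    exact ⟨MonoidAlgebra.of K (Equiv.Perm S) e, hF e⟩
  · rintro _ ⟨x, rfl⟩
    induction x using MonoidAlgebra.induction_on with
    | of e => exact Submodule.subset_span ⟨e, (hF e).symm⟩
    | add a b ha hb =>
      have : F (a + b) = F a + F b := map_add F a b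
      exact this ▸ Submodule.add_mem _ ha hb
    | smul c a ha =>
      have : F (c • a) = c • F a := map_smul F c a
      exact this ▸ Submodule.smul_mem _ c ha

end orb

variable [CharZero K]

theorem low (Q : SSys α K) (hQ : Q.HasPerm) (m : ℕ) :
    (Fintype.card α : ℝ) ^ (2 * m) ≤ (m + 1 : ℝ) ^ (Fintype.card α ^ 2) * Q.h (2 * m) := by
  obtain ⟨ρ, sgn, hmem, hs, hρ1, hρ0⟩ := hQ m
  obtain ⟨D, hss, hpm, hD⟩ := exists_symS ρ
  have h1 := dc D hss
  have h2 := orbS (ρ := ρ) hs hρ1 hρ0 (Subalgebra.toSubmodule (Subalgebra.centralizer K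
    (D : Set (Matrix (L m → α) (L m → α) K)))) (by
      intro A hA e
      exact hA (ρ e) (hpm e))
  have hDQ : D.toSubmodule ≤ Q.P (lin m) (lin m) := by
    refine hD.trans ?_
    rw [Submodule.span_le]
    rintro _ ⟨e, rfl⟩
    exact hmem e
  have h5 : (finrank K D : ℝ) ≤ Q.h (2 * m) := by
    have h3 := Submodule.finrank_mono hDQ
    have h4 := Q.finrank_P (lin m) (lin m)
    rw [card_L, ← two_mul] at h4
    rw [← h4]
    exact_mod_cast h3
  have h6 : ((Fintype.card (L m → α) ^ 2 : ℕ) : ℝ) ≤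
      ((finrank K D * finrank K (Subalgebra.centralizer K
        (D : Set (Matrix (L m → α) (L m → α) K))) : ℕ) : ℝ) := by
    exact_mod_cast h1
  have h7 : ((Fintype.card (L m → α) ^ 2 : ℕ) : ℝ) = (Fintype.card α : ℝ) ^ (2 * m) := by
    rw [Fintype.card_fun, ← pow_mul, mul_comm, card_L]
    push_cast
    rfl
  have h8 : ((finrank K (Subalgebra.centralizer K
      (D : Set (Matrix (L m → α) (L m → α) K))) : ℕ) : ℝ) ≤
        (m + 1 : ℝ) ^ (Fintype.card α ^ 2) := by
    have h9 : finrank K (Subalgebra.centralizer K (D : Set (Matrix (L m → α) (L m → α) K))) ≤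
        (Fintype.card (L m) + 1) ^ (Fintype.card α ^ 2) := h2
    rw [card_L] at h9
    exact_mod_cast h9
  rw [← h7]
  refine h6.trans ?_
  push_cast
  rw [mul_comm]
  exact mul_le_mul h8 h5 (by positivity) (by positivity)

end ZS
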